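import Pool.Agent.PEN.Defs

/-! # Hyperbolic penny graphs: gaps of contact darts (rows D4, D5, D6, D7) -/

set_option autoImplicit false

namespace Pool.Agent.PEN

open Classical UpperHalfPlane

noncomputable section

section D
variable {V : Type} (G : Tg V)

theorem bk_mem11 {v a : V} (hv : v ∈ G.P) (hb : ¬ G.bd v) (ha : (v, a) ∈ G.D) :
    (v, G.bk v a) ∈ G.D :=
  G.sub (G.ap1 a v (G.int2 v a hv hb ha))

theorem fw_mem11 {v a : V} (hv : v ∈ G.P) (hb : ¬ G.bd v) (ha : (v, a) ∈ G.D) :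
    (v, G.ap v a) ∈ G.D :=
  G.symm _ _ (G.sub (G.ap2 v a (G.int1 v a hv hb ha)))

theorem bk_fw11 {v a : V} (hv : v ∈ G.P) (hb : ¬ G.bd v) (ha : (v, a) ∈ G.D) :
    G.bk v (G.ap v a) = a :=
  G.ap4 v a (G.int1 v a hv hb ha)

theorem iter_mem11 {v a : V} (hv : v ∈ G.P) (hb : ¬ G.bd v) (ha : (v, a) ∈ G.D) (i : ℕ) :
    (v, (G.bk v)^[i] a) ∈ G.D := by
  induction i with
  | zero => exact ha
  | succ i ih =>
    rw [Function.iterate_succ_apply']
    exact bk_mem11 G hv hb ih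

theorem cl_bk11 {v y : V} (hv : v ∈ G.P) (hb : ¬ G.bd v) (hy : (v, y) ∈ G.D)
    (hc : ¬ G.con v y) : G.cl (v, G.bk v y) = G.cl (v, y) := by
  have h1 : (v, y) ∈ G.Dp := G.int1 v y hv hb hy
  have h2 : (y, v) ∈ G.Dp := G.int2 v y hv hb hy
  have h3 : G.ap v (G.ap y v) = y := G.ap3 y v h2
  have e : G.tri (v, G.bk v y) = G.tri (y, v) := by
    unfold Tg.tri Tg.bk
    simp only
    rw [h3]
    ext z
    simp only [Finset.mem_insert, Finset.mem_singleton]
    tauto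
  unfold Tg.cl
  rw [e]
  by_cases hs : G.tri (y, v) = G.tri (v, y)
  · rw [hs]
  · apply SimpleGraph.ConnectedComponent.eq.mpr
    apply SimpleGraph.Adj.reachable
    exact ⟨hs, y, v, h2, h1, fun h => hc (G.csymm _ _ h), rfl, rfl⟩

/-- D4: the gap of a contact dart lies in one class -/
theorem cl_og {v a : V} (hv : v ∈ G.P) (hb : ¬ G.bd v) (ha : (v, a) ∈ G.D) (h : G.HasO v a) :
    G.con v (G.og v a) ∧ (v, G.og v a) ∈ G.Dp ∧ G.cl (v, G.og v a) = G.cl (v, a) := by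
  have e : G.og v a = (G.bk v)^[Nat.find h] a := by
    unfold Tg.og
    rw [dif_pos h]
  rw [e]
  refine ⟨Nat.find_spec h, G.int1 v _ hv hb (iter_mem11 G hv hb ha _), ?_⟩
  have key : ∀ i, i ≤ Nat.find h → G.cl (v, (G.bk v)^[i] a) = G.cl (v, a) := by
    intro i
    induction i with
    | zero => intro _; rfl
    | succ i ih =>
      intro hi
      rw [Function.iterate_succ_apply',
        cl_bk11 G hv hb (iter_mem11 G hv hb ha i) (Nat.find_min h (by omega))]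
      exact ih (by omega)
  exact key _ le_rfl

/-- the angle at an interior vertex is shared among its contact darts -/
theorem sum_Th11 {v : V} (hv : v ∈ G.P) (hb : ¬ G.bd v) :
    ∑ x ∈ G.Dp.filter (fun x => x.1 = v ∧ G.con x.1 x.2), G.Th x.1 x.2 =
      ∑ y ∈ G.D.filter (fun y => y.1 = v ∧ G.HasO v y.2), G.th v y.2 := by
  rw [← Finset.sum_fiberwise_of_maps_to (s := G.D.filter (fun y => y.1 = v ∧ G.HasO v y.2))
    (t := G.Dp.filter (fun x => x.1 = v ∧ G.con x.1 x.2)) (g := fun y => (v, G.og v y.2))]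
  · apply Finset.sum_congr rfl
    rintro ⟨x1, x2⟩ hx
    rw [Finset.mem_filter] at hx
    obtain ⟨_, hx1, _⟩ := hx
    simp only at hx1
    subst hx1
    unfold Tg.Th
    rw [if_neg hb, Finset.filter_filter]
    apply Finset.sum_congr
    · apply Finset.filter_congr
      intro y _
      simp only [Prod.mk.injEq, true_and]
      tauto
    · intro y _; rfl
  · rintro ⟨y1, y2⟩ hy
    rw [Finset.mem_filter] at hy
    obtain ⟨hy0, hy1, hy2⟩ := hy
    simp only at hy1 hy2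
    subst hy1
    have h := cl_og G hv hb hy0 hy2
    rw [Finset.mem_filter]
    exact ⟨h.2.1, rfl, h.1⟩

variable {k : ℕ} {om : ℝ}

theorem turn11 (hG : G.Good k om) {v : V} (hv : v ∈ G.P) (hb : ¬ G.bd v) :
    2 * Real.pi ≤ ∑ y ∈ G.D.filter (fun y => y.1 = v ∧ G.HasO v y.2), G.th v y.2 := by
  have hinj : Set.InjOn Prod.snd
      ((G.D.filter (fun y => y.1 = v ∧ G.HasO v y.2) : Finset (V × V)) : Set (V × V)) := by
    rintro ⟨y1, y2⟩ hy ⟨z1, z2⟩ hz hyz
    rw [Finset.mem_coe, Finset.mem_filter] at hy hz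
    have e1 : y1 = v := hy.2.1
    have e2 : z1 = v := hz.2.1
    simp only at hyz
    rw [e1, e2, hyz]
  rw [← Finset.sum_image (f := fun a => G.th v a) hinj]
  have mem : ∀ a, a ∈ (G.D.filter (fun y => y.1 = v ∧ G.HasO v y.2)).image Prod.snd ↔
      (v, a) ∈ G.D ∧ G.HasO v a := by
    intro a
    rw [Finset.mem_image]
    constructor
    · rintro ⟨⟨y1, y2⟩, hy, rfl⟩
      rw [Finset.mem_filter] at hy
      obtain ⟨hy0, hy1, hy2⟩ := hy
      simp only at hy1 hy2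
      subst hy1
      exact ⟨hy0, hy2⟩
    · rintro ⟨h1, h2⟩
      exact ⟨(v, a), Finset.mem_filter.mpr ⟨h1, rfl, h2⟩, rfl⟩
  apply hG.turn v hv hb
  · have hpos : 0 < (G.D.filter (fun x => x.1 = v ∧ G.con x.1 x.2)).card :=
      lt_of_lt_of_le (by norm_num) (hG.deg v hv)
    obtain ⟨⟨x1, x2⟩, hx⟩ := Finset.card_pos.mp hpos
    rw [Finset.mem_filter] at hx
    obtain ⟨hx0, hx1, hx2⟩ := hx
    simp only at hx1 hx2
    subst hx1
    exact ⟨x2, (mem x2).mpr ⟨hx0, 0, hx2⟩⟩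
  · intro a ha
    exact ((mem a).mp ha).1
  · intro a ha
    obtain ⟨h1, i, hi⟩ := (mem a).mp ha
    refine (mem _).mpr ⟨fw_mem11 G hv hb h1, i + 1, ?_⟩
    rw [Function.iterate_succ_apply, bk_fw11 G hv hb h1]
    exact hi

/-- D5: interior points have weight at least `k + 1` -/
theorem w_int (hG : G.Good k om) {v : V} (hv : v ∈ G.P) (hb : ¬ G.bd v) :
    k + 1 ≤ ∑ x ∈ G.Dp.filter (fun x => x.1 = v ∧ G.con x.1 x.2), G.w om x.1 x.2 := by
  have h1 : ∑ x ∈ G.Dp.filter (fun x => x.1 = v ∧ G.con x.1 x.2), G.Th x.1 x.2 / om ≤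
      ((∑ x ∈ G.Dp.filter (fun x => x.1 = v ∧ G.con x.1 x.2), G.w om x.1 x.2 : ℕ) : ℝ) := by
    rw [Nat.cast_sum]
    apply Finset.sum_le_sum
    rintro ⟨x1, x2⟩ hx
    rw [Finset.mem_filter] at hx
    obtain ⟨_, hx1, _⟩ := hx
    simp only at hx1
    subst hx1
    unfold Tg.w
    rw [if_neg hb]
    exact Nat.le_ceil _
  rw [← Finset.sum_div, sum_Th11 G hv hb] at h1
  have h2 := turn11 G hG hv hb
  have h3 : (k : ℝ) < (∑ y ∈ G.D.filter (fun y => y.1 = v ∧ G.HasO v y.2), G.th v y.2) / om := by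
    rw [lt_div_iff₀ hG.om_pos]
    exact lt_of_lt_of_le hG.hom h2
  have h4 := lt_of_lt_of_le h3 h1
  have h5 := Nat.cast_lt.mp h4
  omega

/-- D6: boundary points have weight at least 2 -/
theorem w_bd (hG : G.Good k om) {v : V} (hv : v ∈ G.P) (hb : G.bd v) :
    2 ≤ ∑ x ∈ G.Dp.filter (fun x => x.1 = v ∧ G.con x.1 x.2), G.w om x.1 x.2 := by
  have h1 : ∑ x ∈ G.Dp.filter (fun x => x.1 = v ∧ G.con x.1 x.2), G.w om x.1 x.2 =
      (G.Dp.filter (fun x => x.1 = v ∧ G.con x.1 x.2)).card := by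
    rw [Finset.card_eq_sum_ones]
    apply Finset.sum_congr rfl
    rintro ⟨x1, x2⟩ hx
    rw [Finset.mem_filter] at hx
    obtain ⟨_, hx1, _⟩ := hx
    simp only at hx1
    subst hx1
    unfold Tg.w
    rw [if_pos hb]
  rw [h1]
  have h2 := hG.deg v hv
  have h3 : ((G.D.filter (fun x => x.1 = v ∧ G.con x.1 x.2)) \
      (G.Dp.filter (fun x => x.1 = v ∧ G.con x.1 x.2))).card ≤ 1 := by
    apply Finset.card_le_one.mpr
    rintro ⟨x1, x2⟩ hx ⟨y1, y2⟩ hy
    rw [Finset.mem_sdiff, Finset.mem_filter, Finset.mem_filter] at hx hy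
    obtain ⟨⟨hx0, hx1, hx2⟩, hx3⟩ := hx
    obtain ⟨⟨hy0, hy1, hy2⟩, hy3⟩ := hy
    simp only at hx1 hx2 hy1 hy2 hx3 hy3
    subst hx1
    subst hy1
    have e := hG.left _ _ _ hx0 hy0 (fun h => hx3 ⟨h, rfl, hx2⟩) (fun h => hy3 ⟨h, rfl, hy2⟩)
    rw [e]
  have h4 := Finset.card_le_card_sdiff_add_card
    (s := G.D.filter (fun x => x.1 = v ∧ G.con x.1 x.2))
    (t := G.Dp.filter (fun x => x.1 = v ∧ G.con x.1 x.2))
  omega

/-- D7: the sum of the gaps of a class -/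
theorem Th_sum (hG : G.Good k om) (C : G.adj.ConnectedComponent) :
    ∑ x ∈ G.cJ C, G.Th x.1 x.2 ≤ ∑ x ∈ G.cD C, G.th x.1 x.2 := by
  obtain ⟨A, hA⟩ : ∃ A : V × V → Finset (V × V), ∀ x, A x = if G.bd x.1 then {x} else
      G.D.filter (fun y => y.1 = x.1 ∧ G.HasO x.1 y.2 ∧ G.og x.1 y.2 = x.2) := ⟨_, fun _ => rfl⟩
  have hTh : ∀ x, G.Th x.1 x.2 = ∑ y ∈ A x, G.th y.1 y.2 := by
    rintro ⟨x1, x2⟩
    rw [hA]
    unfold Tg.Th
    by_cases hb : G.bd x1
    · rw [if_pos hb, if_pos hb, Finset.sum_singleton]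
    · rw [if_neg hb, if_neg hb]
      apply Finset.sum_congr rfl
      intro y hy
      rw [Finset.mem_filter] at hy
      rw [hy.2.1]
  have hsub : ∀ x ∈ G.cJ C, A x ⊆ G.cD C := by
    rintro ⟨x1, x2⟩ hx ⟨y1, y2⟩ hy
    unfold Tg.cJ at hx
    rw [Finset.mem_filter] at hx
    obtain ⟨hx0, hx1, hx2⟩ := hx
    unfold Tg.cD
    rw [Finset.mem_filter]
    rw [hA] at hy
    by_cases hb : G.bd x1
    · rw [if_pos hb, Finset.mem_singleton] at hy
      rw [hy]
      exact ⟨hx0, hx1⟩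
    · rw [if_neg hb, Finset.mem_filter] at hy
      obtain ⟨hy0, hy1, hy2, hy3⟩ := hy
      simp only at hy1 hy2 hy3
      subst hy1
      have hv := G.mem _ _ hy0
      have h := cl_og G hv hb hy0 hy2
      rw [hy3] at h
      exact ⟨G.int1 _ _ hv hb hy0, h.2.2.symm.trans hx1⟩
  have hdis : Set.PairwiseDisjoint ((G.cJ C : Finset (V × V)) : Set (V × V)) A := by
    rintro ⟨x1, x2⟩ _ ⟨z1, z2⟩ _ hne
    rw [Function.onFun, Finset.disjoint_left]
    rintro ⟨y1, y2⟩ hy hz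
    apply hne
    rw [hA] at hy hz
    by_cases hb : G.bd x1
    · rw [if_pos hb, Finset.mem_singleton] at hy
      by_cases hb' : G.bd z1
      · rw [if_pos hb', Finset.mem_singleton] at hz
        rw [← hy, ← hz]
      · rw [if_neg hb', Finset.mem_filter] at hz
        have e1 : y1 = z1 := hz.2.1
        have e2 : y1 = x1 := congrArg Prod.fst hy
        exact absurd (e1.symm.trans e2 ▸ hb) hb'
    · rw [if_neg hb, Finset.mem_filter] at hy
      have e1 : y1 = x1 := hy.2.1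
      by_cases hb' : G.bd z1
      · rw [if_pos hb', Finset.mem_singleton] at hz
        have e2 : y1 = z1 := congrArg Prod.fst hz
        exact absurd (e2.symm.trans e1 ▸ hb') hb
      · rw [if_neg hb', Finset.mem_filter] at hz
        have e2 : y1 = z1 := hz.2.1
        have e3 : G.og x1 y2 = x2 := hy.2.2.2
        have e4 : G.og z1 y2 = z2 := hz.2.2.2
        rw [← e3, ← e4, ← e1, ← e2]
  calc ∑ x ∈ G.cJ C, G.Th x.1 x.2 = ∑ x ∈ G.cJ C, ∑ y ∈ A x, G.th y.1 y.2 :=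
        Finset.sum_congr rfl (fun x _ => hTh x)
    _ = ∑ y ∈ (G.cJ C).biUnion A, G.th y.1 y.2 := (Finset.sum_biUnion hdis).symm
    _ ≤ ∑ x ∈ G.cD C, G.th x.1 x.2 := by
        apply Finset.sum_le_sum_of_subset_of_nonneg
        · exact Finset.biUnion_subset.mpr hsub
        · rintro ⟨y1, y2⟩ hy _
          unfold Tg.cD at hy
          rw [Finset.mem_filter] at hy
          exact (G.thpos _ _ hy.1).le

end D

end

end Pool.Agent.PEN
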