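import Pool.Agent.PEN.DG66
import Pool.Agent.PEN.D11

/-! # Hyperbolic penny graphs: the class inequality -/

set_option autoImplicit false

namespace Pool.Agent.PEN

open Classical

noncomputable section

variable {V : Type} (G : Tg V) {k : ℕ} {om : ℝ}

/-- D8: rounding -/
theorem w_lt (hG : G.Good k om) {x : V × V} (hx : x ∈ G.Dp) (hc : G.con x.1 x.2) :
    (G.w om x.1 x.2 : ℝ) < G.Th x.1 x.2 / om + 1 := by
  have hom := hG.om_pos
  by_cases hb : G.bd x.1
  · have h1 : G.w om x.1 x.2 = 1 := by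
      unfold Tg.w
      rw [if_pos hb]
    have h2 : G.Th x.1 x.2 = G.th x.1 x.2 := by
      unfold Tg.Th
      rw [if_pos hb]
    rw [h1, h2]
    have h3 : 0 < G.th x.1 x.2 / om := div_pos (G.thpos _ _ hx) hom
    push_cast
    linarith
  · have h1 : G.w om x.1 x.2 = ⌈G.Th x.1 x.2 / om⌉₊ := by
      unfold Tg.w
      rw [if_neg hb]
    rw [h1]
    refine Nat.ceil_lt_add_one (div_nonneg ?_ hom.le)
    unfold Tg.Th
    rw [if_neg hb]
    refine Finset.sum_nonneg fun y hy => ?_
    obtain ⟨hyD, hy1, -⟩ := Finset.mem_filter.1 hy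
    have h2 : (x.1, y.2) ∈ G.D := by
      rw [← hy1]
      exact hyD
    exact (G.thpos _ _ (G.int1 _ _ (G.mem _ _ h2) hb h2)).le

/-- The angles of the triangles of a class. -/
theorem sum_th66 (hG : G.Good k om) (C : G.adj.ConnectedComponent) :
    3 * (∑ x ∈ G.cD C, G.th x.1 x.2) ≤ (2 * k - 3) * om * (G.cT C).card := by
  have h1 : ∑ x ∈ G.cD C, G.th x.2 (G.ap x.1 x.2) = ∑ x ∈ G.cD C, G.th x.1 x.2 := by
    refine Finset.sum_bij' (fun x _ => (x.2, G.ap x.1 x.2)) (fun x _ => (G.ap x.1 x.2, x.1))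
      (fun x hx => rot_cD66 G hx) (fun x hx => rot_cD66' G hx) ?_ ?_ ?_
    · intro x hx
      have hx' := ((mem_cD66 G).1 hx).1
      dsimp only
      rw [G.ap3 _ _ hx']
    · intro x hx
      have hx' := ((mem_cD66 G).1 hx).1
      dsimp only
      rw [G.ap4 _ _ hx']
    · intro x hx
      rfl
  have h2 : ∑ x ∈ G.cD C, G.th (G.ap x.1 x.2) x.1 = ∑ x ∈ G.cD C, G.th x.1 x.2 := by
    refine Finset.sum_bij' (fun x _ => (G.ap x.1 x.2, x.1)) (fun x _ => (x.2, G.ap x.1 x.2))
      (fun x hx => rot_cD66' G hx) (fun x hx => rot_cD66 G hx) ?_ ?_ ?_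
    · intro x hx
      have hx' := ((mem_cD66 G).1 hx).1
      dsimp only
      rw [G.ap4 _ _ hx']
    · intro x hx
      have hx' := ((mem_cD66 G).1 hx).1
      dsimp only
      rw [G.ap3 _ _ hx']
    · intro x hx
      rfl
  have h3 : ∑ x ∈ G.cD C, (3 * (G.th x.1 x.2 + G.th x.2 (G.ap x.1 x.2) +
      G.th (G.ap x.1 x.2) x.1)) ≤ ∑ x ∈ G.cD C, (2 * (k : ℝ) - 3) * om :=
    Finset.sum_le_sum fun x hx => hG.tsum _ _ ((mem_cD66 G).1 hx).1
  rw [← Finset.mul_sum, Finset.sum_add_distrib, Finset.sum_add_distrib, h1, h2,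
    Finset.sum_const, card_cD, nsmul_eq_mul] at h3
  push_cast at h3
  nlinarith

/-- D9: the general class: `3 sum w < (2k-3) m + 3 j` -/
theorem class_gen (hG : G.Good k om) (C : G.adj.ConnectedComponent) (hj : (G.cJ C).Nonempty) :
    3 * (∑ x ∈ G.cJ C, G.w om x.1 x.2) < (2 * k - 3) * (G.cT C).card + 3 * (G.cJ C).card := by
  have hom := hG.om_pos
  have hk := hG.hk
  have h1 : ∑ x ∈ G.cJ C, (G.w om x.1 x.2 : ℝ) < ∑ x ∈ G.cJ C, (G.Th x.1 x.2 / om + 1) := by
    refine Finset.sum_lt_sum_of_nonempty hj fun x hx => ?_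
    unfold Tg.cJ at hx
    rw [Finset.mem_filter] at hx
    exact w_lt G hG hx.1 hx.2.2
  rw [Finset.sum_add_distrib, ← Finset.sum_div, Finset.sum_const, nsmul_eq_mul, mul_one] at h1
  have h2 := Th_sum G hG C
  have h3 := sum_th66 G hG C
  have h4 : (∑ x ∈ G.cJ C, G.Th x.1 x.2) / om ≤ (2 * k - 3) * (G.cT C).card / 3 := by
    rw [div_le_iff₀ hom]
    linarith
  have h5 : (3 : ℝ) * (∑ x ∈ G.cJ C, (G.w om x.1 x.2 : ℝ)) <
      (2 * k - 3) * (G.cT C).card + 3 * (G.cJ C).card := by linarith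
  have h6 : (((2 * k - 3 : ℕ) : ℝ)) = 2 * k - 3 := by
    rw [Nat.cast_sub (by omega)]
    push_cast
    ring
  rw [← h6] at h5
  exact_mod_cast h5

theorem bk_mem66 {v : V} (hb : ¬ G.bd v) {a : V} (ha : (v, a) ∈ G.D) (n : ℕ) :
    (v, (G.bk v)^[n] a) ∈ G.D := by
  induction n with
  | zero => exact ha
  | succ n ih =>
    rw [Function.iterate_succ_apply']
    have h1 := G.int2 v _ (G.mem _ _ ih) hb ih
    exact G.sub (G.ap1 _ _ h1)

/-- if the clockwise neighbour of `c` is `a` then the counterclockwise neighbour of `a` is `c` -/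
theorem bk_inv66 {v : V} (hb : ¬ G.bd v) {c a : V} (hc : (v, c) ∈ G.D) (h : G.bk v c = a) :
    G.ap v a = c := by
  have h1 := G.int2 v _ (G.mem _ _ hc) hb hc
  have h2 := G.ap3 _ _ h1
  unfold Tg.bk at h
  rw [h] at h2
  exact h2

/-- The darts which belong to the gap of `(v,a)`. -/
theorem og_cases66 {v : V} (hb : ¬ G.bd v) {a b : V} (hbD : (v, b) ∈ G.D) (hO : G.HasO v b)
    (h : G.og v b = a) : b = a ∨ (¬ G.con v (G.ap v a) ∧
      (b = G.ap v a ∨ ¬ G.con v (G.ap v (G.ap v a)))) := by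
  unfold Tg.og at h
  rw [dif_pos hO] at h
  have hmin : ∀ m, m < Nat.find hO → ¬ G.con v ((G.bk v)^[m] b) := fun m hm => Nat.find_min hO hm
  rcases hn : Nat.find hO with _ | n
  · rw [hn] at h
    exact Or.inl h
  · right
    rw [hn] at h hmin
    rw [Function.iterate_succ_apply'] at h
    have h1 := bk_inv66 G hb (bk_mem66 G hb hbD n) h
    rw [h1]
    refine ⟨hmin n (Nat.lt_succ_self n), ?_⟩
    rcases n with _ | n
    · exact Or.inl rfl
    · right
      have h2 := bk_inv66 G hb (bk_mem66 G hb hbD n)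
        (show G.bk v ((G.bk v)^[n] b) = (G.bk v)^[n + 1] b from
          (Function.iterate_succ_apply' _ _ _).symm)
      rw [h2]
      exact hmin n (by omega)

theorem Th_one66 (hG : G.Good k om) {v a : V} (ha : (v, a) ∈ G.Dp)
    (hc : G.con v (G.ap v a)) : G.Th v a ≤ G.th v a := by
  unfold Tg.Th
  split_ifs with hb
  · exact le_refl _
  · have h1 : G.D.filter (fun y => y.1 = v ∧ G.HasO v y.2 ∧ G.og v y.2 = a) ⊆ {(v, a)} := by
      intro y hy
      obtain ⟨hyD, hy1, hy2, hy3⟩ := Finset.mem_filter.1 hy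
      have h2 : (v, y.2) ∈ G.D := by
        rw [← hy1]
        exact hyD
      rw [Finset.mem_singleton]
      rcases og_cases66 G hb h2 hy2 hy3 with h3 | h3
      · exact Prod.ext hy1 h3
      · exact absurd hc h3.1
    refine le_trans (Finset.sum_le_sum_of_subset_of_nonneg h1 ?_) (by simp)
    intro y hy _
    rw [Finset.mem_singleton] at hy
    rw [hy]
    exact (G.thpos _ _ ha).le

theorem Th_two66 (hG : G.Good k om) {v a : V} (ha : (v, a) ∈ G.Dp)
    (ha' : (v, G.ap v a) ∈ G.Dp) (hc : G.con v (G.ap v (G.ap v a))) :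
    G.Th v a ≤ G.th v a + G.th v (G.ap v a) := by
  have hne : (v, a) ≠ (v, G.ap v a) := by
    intro h
    have h1 : a = G.ap v a := congrArg Prod.snd h
    exact G.ne _ _ (G.sub (G.ap1 _ _ ha)) h1
  unfold Tg.Th
  split_ifs with hb
  · have := G.thpos _ _ ha'
    linarith
  · have h1 : G.D.filter (fun y => y.1 = v ∧ G.HasO v y.2 ∧ G.og v y.2 = a) ⊆
        {(v, a), (v, G.ap v a)} := by
      intro y hy
      obtain ⟨hyD, hy1, hy2, hy3⟩ := Finset.mem_filter.1 hy
      have h2 : (v, y.2) ∈ G.D := by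
        rw [← hy1]
        exact hyD
      rw [Finset.mem_insert, Finset.mem_singleton]
      rcases og_cases66 G hb h2 hy2 hy3 with h3 | h3
      · exact Or.inl (Prod.ext hy1 h3)
      · rcases h3.2 with h4 | h4
        · exact Or.inr (Prod.ext hy1 h4)
        · exact absurd hc h4
    refine le_trans (Finset.sum_le_sum_of_subset_of_nonneg h1 ?_) ?_
    · intro y hy _
      rw [Finset.mem_insert, Finset.mem_singleton] at hy
      rcases hy with hy | hy
      · rw [hy]
        exact (G.thpos _ _ ha).le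
      · rw [hy]
        exact (G.thpos _ _ ha').le
    · rw [Finset.sum_pair hne]

theorem w_le66 (hG : G.Good k om) {v a : V} (n : ℕ) (hn : 1 ≤ n) (h : G.Th v a ≤ n * om) :
    G.w om v a ≤ n := by
  unfold Tg.w
  split_ifs with hb
  · exact hn
  · rw [Nat.ceil_le, div_le_iff₀ hG.om_pos]
    exact h

theorem con_of_cD66 {C : G.adj.ConnectedComponent} (hI : (G.cI C).card = 0)
    (hB : (G.cB C).card = 0) {x : V × V} (hx : x ∈ G.cD C) : G.con x.1 x.2 := by
  rw [Finset.card_eq_zero] at hI hB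
  rw [mem_cD66] at hx
  by_contra hc
  by_cases hs : (x.2, x.1) ∈ G.Dp
  · have : x ∈ G.cI C := by
      unfold Tg.cI
      rw [Finset.mem_filter]
      exact ⟨hx.1, hx.2, hc, hs⟩
    rw [hI] at this
    exact absurd this (Finset.notMem_empty _)
  · have : x ∈ G.cB C := by
      unfold Tg.cB
      rw [Finset.mem_filter]
      exact ⟨hx.1, hx.2, hc, hs⟩
    rw [hB] at this
    exact absurd this (Finset.notMem_empty _)

theorem cJ_sub66 (C : G.adj.ConnectedComponent) : G.cJ C ⊆ G.cD C := by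
  intro x hx
  unfold Tg.cJ at hx
  rw [Finset.mem_filter] at hx
  rw [mem_cD66]
  exact ⟨hx.1, hx.2.1⟩

/-- D10: one triangle, no hull side, no inner side -/
theorem class_one (hG : G.Good k om) (C : G.adj.ConnectedComponent) (hm : (G.cT C).card = 1)
    (hI : (G.cI C).card = 0) (hB : (G.cB C).card = 0) :
    ∑ x ∈ G.cJ C, G.w om x.1 x.2 ≤ 3 := by
  have h1 : ∀ x ∈ G.cJ C, G.w om x.1 x.2 ≤ 1 := by
    intro x hx
    have hxD := cJ_sub66 G C hx
    have hxp := ((mem_cD66 G).1 hxD).1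
    have c1 := con_of_cD66 G hI hB hxD
    have c2 := con_of_cD66 G hI hB (rot_cD66 G hxD)
    have c3 := con_of_cD66 G hI hB (rot_cD66' G hxD)
    dsimp only at c2 c3
    refine w_le66 G hG 1 (le_refl 1) ?_
    have h2 := Th_one66 G hG hxp (G.csymm _ _ c3)
    have h3 := hG.tcon _ _ hxp c1 c2 c3
    push_cast
    linarith
  calc ∑ x ∈ G.cJ C, G.w om x.1 x.2 ≤ ∑ x ∈ G.cJ C, 1 := Finset.sum_le_sum h1
    _ = (G.cJ C).card := by simp
    _ ≤ (G.cD C).card := Finset.card_le_card (cJ_sub66 G C)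
    _ = 3 := by rw [card_cD, hm]

theorem swap_cD66 {x : V × V} {C : G.adj.ConnectedComponent} (hx : x ∈ G.cI C) :
    (x.2, x.1) ∈ G.cI C := by
  unfold Tg.cI at hx ⊢
  rw [Finset.mem_filter] at hx ⊢
  obtain ⟨h1, h2, h3, h4⟩ := hx
  refine ⟨h4, ?_, fun h => h3 (G.csymm _ _ h), h1⟩
  rw [← h2]
  unfold Tg.cl
  refine SimpleGraph.ConnectedComponent.sound (SimpleGraph.Adj.reachable ?_)
  refine ⟨(tri_swap66 G h1 h4).symm, x.2, x.1, h4, h1, fun h => h3 (G.csymm _ _ h), rfl, rfl⟩

theorem mem_cT66 {x : V × V} {C : G.adj.ConnectedComponent} (hx : x ∈ G.cD C) :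
    G.tri x ∈ G.cT C := by
  unfold Tg.cT
  exact Finset.mem_image_of_mem _ hx

/-- one of the four contact darts of a rhombus -/
theorem rhomb_w66 (hG : G.Good k om) {C : G.adj.ConnectedComponent} (hI : (G.cI C).card = 2)
    (hB : (G.cB C).card = 0) {x : V × V} (hx : x ∈ G.cI C) :
    G.w om x.2 (G.ap x.1 x.2) ≤ 2 ∧ G.w om (G.ap x.1 x.2) x.1 ≤ 2 := by
  have hx' := swap_cD66 G hx
  have hx0 := hx
  have hx0' := hx'
  unfold Tg.cI at hx0 hx0'
  rw [Finset.mem_filter] at hx0 hx0'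
  obtain ⟨p1, p2, p3, p4⟩ := hx0
  obtain ⟨q1, q2, q3, q4⟩ := hx0'
  have n1 := G.ne _ _ (G.sub p1)
  have hII : G.cI C = {x, (x.2, x.1)} := by
    symm
    apply Finset.eq_of_subset_of_card_le
    · intro y hy
      rw [Finset.mem_insert, Finset.mem_singleton] at hy
      rcases hy with rfl | rfl
      · exact hx
      · exact hx'
    · rw [hI, Finset.card_pair]
      intro h
      exact n1 (congrArg Prod.fst h)
  have hcon : ∀ y ∈ G.cD C, y ≠ x → y ≠ (x.2, x.1) → G.con y.1 y.2 := by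
    intro y hy h1 h2
    by_contra hc
    rw [mem_cD66] at hy
    by_cases hs : (y.2, y.1) ∈ G.Dp
    · have : y ∈ G.cI C := by
        unfold Tg.cI
        rw [Finset.mem_filter]
        exact ⟨hy.1, hy.2, hc, hs⟩
      rw [hII, Finset.mem_insert, Finset.mem_singleton] at this
      rcases this with h | h
      · exact h1 h
      · exact h2 h
    · have : y ∈ G.cB C := by
        unfold Tg.cB
        rw [Finset.mem_filter]
        exact ⟨hy.1, hy.2, hc, hs⟩
      rw [Finset.card_eq_zero] at hB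
      rw [hB] at this
      exact absurd this (Finset.notMem_empty _)
  have hxD : x ∈ G.cD C := (mem_cD66 G).2 ⟨p1, p2⟩
  have hxD' : (x.2, x.1) ∈ G.cD C := (mem_cD66 G).2 ⟨q1, q2⟩
  have n2 := G.ne _ _ (G.sub (G.ap1 _ _ p1))
  have n3 := G.ne _ _ (G.sub (G.ap2 _ _ p1))
  have n2' := G.ne _ _ (G.sub (G.ap1 _ _ q1))
  have n3' := G.ne _ _ (G.sub (G.ap2 _ _ q1))
  have c1 : G.con x.2 (G.ap x.1 x.2) := hcon _ (rot_cD66 G hxD)
    (fun h => n1 (congrArg Prod.fst h).symm) (fun h => n3 (congrArg Prod.snd h))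
  have c2 : G.con (G.ap x.1 x.2) x.1 := hcon _ (rot_cD66' G hxD)
    (fun h => n3 (congrArg Prod.fst h)) (fun h => n2 (congrArg Prod.fst h).symm)
  have c3 : G.con x.1 (G.ap x.2 x.1) := hcon _ (rot_cD66 G hxD')
    (fun h => n3' (congrArg Prod.snd h)) (fun h => n1 (congrArg Prod.fst h))
  have c4 : G.con (G.ap x.2 x.1) x.2 := hcon _ (rot_cD66' G hxD')
    (fun h => n2' (congrArg Prod.fst h).symm) (fun h => n3' (congrArg Prod.fst h))
  constructor
  · refine w_le66 G hG 2 (by norm_num) ?_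
    have e : G.ap x.2 (G.ap x.1 x.2) = x.1 := G.ap3 _ _ p1
    have h1 : G.Th x.2 (G.ap x.1 x.2) ≤ G.th x.2 (G.ap x.1 x.2) + G.th x.2 x.1 := by
      have h2 := Th_two66 G hG (v := x.2) (a := G.ap x.1 x.2) (G.ap1 _ _ p1)
        (by rw [e]; exact q1) (by rw [e]; exact G.csymm _ _ c4)
      rw [e] at h2
      exact h2
    have h3 := hG.rh2 x.2 x.1 q1 p1 q3 c3 c4 c1 c2
    push_cast
    linarith
  · refine w_le66 G hG 2 (by norm_num) ?_
    have e : G.ap (G.ap x.1 x.2) x.1 = x.2 := G.ap4 _ _ p1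
    have h1 := Th_one66 G hG (v := G.ap x.1 x.2) (a := x.1) (G.ap2 _ _ p1)
      (by rw [e]; exact G.csymm _ _ c1)
    have h3 := hG.rh1 x.1 x.2 p1 q1 p3 c1 c2 c3 c4
    push_cast
    linarith

/-- D11: the rhombus -/
theorem class_two (hG : G.Good k om) (C : G.adj.ConnectedComponent) (hm : (G.cT C).card = 2)
    (hI : (G.cI C).card = 2) (hB : (G.cB C).card = 0) :
    ∑ x ∈ G.cJ C, G.w om x.1 x.2 ≤ 8 := by
  obtain ⟨x, hx⟩ : (G.cI C).Nonempty := by
    rw [← Finset.card_pos]
    omega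
  have hx' := swap_cD66 G hx
  have hx0 := hx
  have hx0' := hx'
  unfold Tg.cI at hx0 hx0'
  rw [Finset.mem_filter] at hx0 hx0'
  obtain ⟨p1, p2, p3, p4⟩ := hx0
  obtain ⟨q1, q2, q3, q4⟩ := hx0'
  have hxD : x ∈ G.cD C := (mem_cD66 G).2 ⟨p1, p2⟩
  have hxD' : (x.2, x.1) ∈ G.cD C := (mem_cD66 G).2 ⟨q1, q2⟩
  have hT : G.cT C = {G.tri x, G.tri (x.2, x.1)} := by
    symm
    apply Finset.eq_of_subset_of_card_le
    · intro y hy
      rw [Finset.mem_insert, Finset.mem_singleton] at hy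
      rcases hy with rfl | rfl
      · exact mem_cT66 G hxD
      · exact mem_cT66 G hxD'
    · rw [hm, Finset.card_pair (tri_swap66 G p1 p4)]
  obtain ⟨r1, r2⟩ := rhomb_w66 G hG hI hB hx
  obtain ⟨r3, r4⟩ := rhomb_w66 G hG hI hB hx'
  have h1 : ∀ z ∈ G.cJ C, G.w om z.1 z.2 ≤ 2 := by
    intro z hz
    have hzD := cJ_sub66 G C hz
    have hzp := ((mem_cD66 G).1 hzD).1
    unfold Tg.cJ at hz
    rw [Finset.mem_filter] at hz
    have hzc := hz.2.2
    have h2 := mem_cT66 G hzD
    rw [hT, Finset.mem_insert, Finset.mem_singleton] at h2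
    rcases h2 with h2 | h2
    · rcases (tri_eq_iff G p1 hzp).1 h2.symm with h3 | h3 | h3
      · rw [h3] at hzc
        exact absurd hzc p3
      · rw [h3]
        exact r1
      · rw [h3]
        exact r2
    · rcases (tri_eq_iff G q1 hzp).1 h2.symm with h3 | h3 | h3
      · rw [h3] at hzc
        exact absurd hzc q3
      · rw [h3]
        exact r3
      · rw [h3]
        exact r4
  have hdisj : Disjoint (G.cJ C) (G.cI C) := by
    rw [Finset.disjoint_left]
    intro y hy hy'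
    unfold Tg.cJ at hy
    unfold Tg.cI at hy'
    rw [Finset.mem_filter] at hy hy'
    exact hy'.2.2.1 hy.2.2
  have hcard : (G.cJ C).card + (G.cI C).card ≤ (G.cD C).card := by
    rw [← Finset.card_union_of_disjoint hdisj]
    refine Finset.card_le_card (Finset.union_subset (cJ_sub66 G C) ?_)
    intro y hy
    unfold Tg.cI at hy
    rw [Finset.mem_filter] at hy
    exact (mem_cD66 G).2 ⟨hy.1, hy.2.1⟩
  rw [card_cD, hm, hI] at hcard
  calc ∑ x ∈ G.cJ C, G.w om x.1 x.2 ≤ ∑ x ∈ G.cJ C, 2 := Finset.sum_le_sum h1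
    _ = (G.cJ C).card * 2 := by simp
    _ ≤ 8 := by omega

theorem card_split66 (C : G.adj.ConnectedComponent) :
    (G.cJ C).card + (G.cI C).card + (G.cB C).card = 3 * (G.cT C).card := by
  rw [← card_cD]
  have h1 : Disjoint (G.cJ C) (G.cI C) := by
    rw [Finset.disjoint_left]
    intro y hy hy'
    unfold Tg.cJ at hy
    unfold Tg.cI at hy'
    rw [Finset.mem_filter] at hy hy'
    exact hy'.2.2.1 hy.2.2
  have h2 : Disjoint (G.cJ C ∪ G.cI C) (G.cB C) := by
    rw [Finset.disjoint_left]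
    intro y hy hy'
    unfold Tg.cB at hy'
    rw [Finset.mem_filter] at hy'
    rcases Finset.mem_union.1 hy with hy | hy
    · unfold Tg.cJ at hy
      rw [Finset.mem_filter] at hy
      exact hy'.2.2.1 hy.2.2
    · unfold Tg.cI at hy
      rw [Finset.mem_filter] at hy
      exact hy'.2.2.2 hy.2.2.2
  rw [← Finset.card_union_of_disjoint h1, ← Finset.card_union_of_disjoint h2]
  congr 1
  ext y
  unfold Tg.cJ Tg.cI Tg.cB Tg.cD
  simp only [Finset.mem_union, Finset.mem_filter]
  tauto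

/-- D12: the class inequality `sum w <= 3 m + mu (I + b)`, `mu = k - 4` -/
theorem class_ineq (hG : G.Good k om) (C : G.adj.ConnectedComponent) (hm : 0 < (G.cT C).card) :
    2 * (∑ x ∈ G.cJ C, G.w om x.1 x.2) ≤ 6 * (G.cT C).card
      + (k - 4) * ((G.cI C).card + 2 * (G.cB C).card) := by
  rcases Finset.eq_empty_or_nonempty (G.cJ C) with hJ | hJ
  · rw [hJ]
    simp
  have hgen := class_gen G hG C hJ
  have hsplit := card_split66 G C
  have hconn := conn G C
  have hk := hG.hk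
  obtain ⟨μ, rfl⟩ : ∃ μ, k = μ + 4 := ⟨k - 4, by omega⟩
  have e1 : μ + 4 - 4 = μ := by omega
  have e2 : 2 * (μ + 4) - 3 = 2 * μ + 5 := by omega
  rw [e2] at hgen
  rw [e1]
  have hone := class_one G hG C
  have htwo := class_two G hG C
  have hzero : (G.cT C).card = 1 → (G.cI C).card = 0 := by
    intro h
    rw [Finset.card_eq_zero, Finset.eq_empty_iff_forall_notMem]
    intro x hx
    have hx' := swap_cD66 G hx
    unfold Tg.cI at hx hx'
    rw [Finset.mem_filter] at hx hx'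
    have h1 := mem_cT66 G ((mem_cD66 G).2 ⟨hx.1, hx.2.1⟩)
    have h2 := mem_cT66 G ((mem_cD66 G).2 ⟨hx'.1, hx'.2.1⟩)
    obtain ⟨t, ht⟩ := Finset.card_eq_one.1 h
    rw [ht, Finset.mem_singleton] at h1 h2
    exact tri_swap66 G hx.1 hx.2.2.2 (h1.trans h2.symm)
  generalize (∑ x ∈ G.cJ C, G.w om x.1 x.2) = S at *
  generalize (G.cT C).card = m at *
  generalize (G.cI C).card = I at *
  generalize (G.cB C).card = b at *
  generalize (G.cJ C).card = j at *
  have hμ : 2 ≤ μ := by omega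
  rcases Nat.eq_zero_or_pos b with hb | hb
  · subst hb
    by_cases h1 : m = 1
    · have hI := hzero h1
      have := hone h1 hI rfl
      subst h1
      omega
    · by_cases h2 : m = 2
      · subst h2
        by_cases h3 : I = 2
        · have := htwo rfl h3 rfl
          subst h3
          nlinarith
        · have h4 : 3 ≤ I := by omega
          by_contra hcon
          push Not at hcon
          nlinarith
      · have h3 : 3 ≤ m := by omega
        by_contra hcon
        push Not at hcon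
        by_cases h4 : m = 3
        · subst h4
          by_cases h5 : I = 4
          · subst h5
            have h6 : 6 * 3 + μ * (4 + 2 * 0) + 2 ≤ 2 * S := by omega
            nlinarith
          · have h6 : 5 ≤ I := by omega
            nlinarith
        · have h5 : 4 ≤ m := by omega
          nlinarith
  · by_contra hcon
    push Not at hcon
    nlinarith

end

end Pool.Agent.PEN
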