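import Pool.Agent.PEN.Defs

/-! # Hyperbolic penny graphs: triangles and classes -/

set_option autoImplicit false

namespace Pool.Agent.PEN

open Classical

noncomputable section

theorem comp_edges66 {T : Type} (G : SimpleGraph T) (c : G.ConnectedComponent)
    (S : Finset T) (hS : ∀ t, t ∈ S ↔ G.connectedComponentMk t = c) (E : Finset (T × T))
    (hE : ∀ s t, G.Adj s t → G.connectedComponentMk s = c → (s, t) ∈ E) :
    2 * S.card ≤ E.card + 2 := by
  have : Fintype c := Fintype.subtype S (fun t => hS t)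
  have hconn := c.connected_toSimpleGraph
  have h1 := hconn.card_vert_le_card_edgeSet_add_one
  have hSc : S.card = Nat.card c := by
    symm
    exact Nat.subtype_card S (fun t => hS t)
  have h2 : 2 * Nat.card c.toSimpleGraph.edgeSet ≤ E.card := by
    rw [Nat.card_eq_fintype_card, ← SimpleGraph.edgeFinset_card,
      ← SimpleGraph.dart_card_eq_twice_card_edges, ← Finset.card_univ]
    refine Finset.card_le_card_of_injOn (fun d => ((d.fst : T), (d.snd : T))) ?_ ?_
    · intro d _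
      have hd := d.adj
      exact hE _ _ hd d.fst.2
    · intro d _ d' _ h
      simp only [Prod.mk.injEq] at h
      exact SimpleGraph.Dart.ext _ _ (Prod.ext (Subtype.ext h.1) (Subtype.ext h.2))
  omega

variable {V : Type} (G : Tg V)

theorem tri_rot66 {x : V × V} (hx : x ∈ G.Dp) :
    G.tri (x.2, G.ap x.1 x.2) = G.tri x := by
  unfold Tg.tri
  dsimp only
  rw [G.ap3 _ _ hx]
  ext y
  simp only [Finset.mem_insert, Finset.mem_singleton]
  tauto

theorem tri_rot66' {x : V × V} (hx : x ∈ G.Dp) :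
    G.tri (G.ap x.1 x.2, x.1) = G.tri x := by
  unfold Tg.tri
  dsimp only
  rw [G.ap4 _ _ hx]
  ext y
  simp only [Finset.mem_insert, Finset.mem_singleton]
  tauto

theorem tri_swap66 {x : V × V} (hx : x ∈ G.Dp) (hx' : (x.2, x.1) ∈ G.Dp) :
    G.tri x ≠ G.tri (x.2, x.1) := by
  intro h
  have h1 : G.ap x.2 x.1 ∈ G.tri x := by
    rw [h]
    unfold Tg.tri
    simp
  unfold Tg.tri at h1
  rw [Finset.mem_insert, Finset.mem_insert, Finset.mem_singleton] at h1
  have n1 := G.ne _ _ (G.sub (G.ap1 _ _ hx'))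
  have n2 := G.ne _ _ (G.sub (G.ap2 _ _ hx'))
  rcases h1 with h1 | h1 | h1
  · exact n1 h1.symm
  · exact n2 h1
  · exact G.ap5 _ _ hx hx' h1.symm

/-- D1: three darts per triangle; the triangle determines the dart up to rotation -/
theorem tri_eq_iff {x y : V × V} (hx : x ∈ G.Dp) (hy : y ∈ G.Dp) :
    G.tri x = G.tri y ↔ y = x ∨ y = (x.2, G.ap x.1 x.2) ∨ y = (G.ap x.1 x.2, x.1) := by
  constructor
  · intro h
    have h1 : y.1 ∈ G.tri x := by
      rw [h]
      unfold Tg.tri
      simp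
    have h2 : y.2 ∈ G.tri x := by
      rw [h]
      unfold Tg.tri
      simp
    unfold Tg.tri at h1 h2
    rw [Finset.mem_insert, Finset.mem_insert, Finset.mem_singleton] at h1 h2
    have hne := G.ne _ _ (G.sub hy)
    have hx1 := G.ap1 _ _ hx
    have hx2 := G.ap2 _ _ hx
    have key : ∀ z : V × V, z ∈ G.Dp → G.tri z = G.tri x → y = (z.2, z.1) → False := by
      intro z hz hzx hyz
      have h3 : (z.2, z.1) ∈ G.Dp := by
        rw [← hyz]
        exact hy
      apply tri_swap66 G hz h3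
      rw [hzx, h, hyz]
    rcases h1 with h1 | h1 | h1
    · rcases h2 with h2 | h2 | h2
      · exact absurd (h1.trans h2.symm) hne
      · exact Or.inl (Prod.ext h1 h2)
      · exact (key _ hx2 (tri_rot66' G hx) (Prod.ext h1 h2)).elim
    · rcases h2 with h2 | h2 | h2
      · exact (key _ hx rfl (Prod.ext h1 h2)).elim
      · exact absurd (h1.trans h2.symm) hne
      · exact Or.inr (Or.inl (Prod.ext h1 h2))
    · rcases h2 with h2 | h2 | h2
      · exact Or.inr (Or.inr (Prod.ext h1 h2))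
      · exact (key _ hx1 (tri_rot66 G hx) (Prod.ext h1 h2)).elim
      · exact absurd (h1.trans h2.symm) hne
  · rintro (h | h | h)
    · rw [h]
    · rw [h, tri_rot66 G hx]
    · rw [h, tri_rot66' G hx]

theorem mem_cD66 {x : V × V} {C : G.adj.ConnectedComponent} :
    x ∈ G.cD C ↔ x ∈ G.Dp ∧ G.cl x = C := by
  unfold Tg.cD
  rw [Finset.mem_filter]

theorem rot_cD66 {x : V × V} {C : G.adj.ConnectedComponent} (hx : x ∈ G.cD C) :
    (x.2, G.ap x.1 x.2) ∈ G.cD C := by
  rw [mem_cD66] at hx ⊢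
  refine ⟨G.ap1 _ _ hx.1, ?_⟩
  rw [← hx.2]
  unfold Tg.cl
  rw [tri_rot66 G hx.1]

theorem rot_cD66' {x : V × V} {C : G.adj.ConnectedComponent} (hx : x ∈ G.cD C) :
    (G.ap x.1 x.2, x.1) ∈ G.cD C := by
  rw [mem_cD66] at hx ⊢
  refine ⟨G.ap2 _ _ hx.1, ?_⟩
  rw [← hx.2]
  unfold Tg.cl
  rw [tri_rot66' G hx.1]

/-- D2 -/
theorem card_cD (C : G.adj.ConnectedComponent) : (G.cD C).card = 3 * (G.cT C).card := by
  have hT : G.cT C = (G.cD C).image G.tri := rfl
  rw [hT, Finset.card_eq_sum_card_image G.tri (G.cD C), Finset.sum_const_nat (m := 3), mul_comm]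
  intro t ht
  obtain ⟨x, hx, rfl⟩ := Finset.mem_image.1 ht
  have hxp := ((mem_cD66 G).1 hx).1
  have n1 := G.ne _ _ (G.sub hxp)
  have n2 := G.ne _ _ (G.sub (G.ap1 _ _ hxp))
  have n3 := G.ne _ _ (G.sub (G.ap2 _ _ hxp))
  have e : (G.cD C).filter (fun a => G.tri a = G.tri x) =
      {x, (x.2, G.ap x.1 x.2), (G.ap x.1 x.2, x.1)} := by
    ext y
    rw [Finset.mem_filter, Finset.mem_insert, Finset.mem_insert, Finset.mem_singleton]
    constructor
    · rintro ⟨h1, h2⟩
      exact (tri_eq_iff G hxp ((mem_cD66 G).1 h1).1).1 h2.symm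
    · rintro (h | h | h)
      · rw [h]
        exact ⟨hx, rfl⟩
      · rw [h]
        exact ⟨rot_cD66 G hx, tri_rot66 G hxp⟩
      · rw [h]
        exact ⟨rot_cD66' G hx, tri_rot66' G hxp⟩
  rw [e, Finset.card_insert_of_notMem, Finset.card_pair]
  · intro h
    exact n2 (congrArg Prod.fst h)
  · rw [Finset.mem_insert, Finset.mem_singleton, not_or]
    exact ⟨fun h => n1 (congrArg Prod.fst h), fun h => n3 (congrArg Prod.fst h).symm⟩

/-- D3: connectivity -/
theorem conn (C : G.adj.ConnectedComponent) : 2 * (G.cT C).card ≤ (G.cI C).card + 2 := by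
  rcases Finset.eq_empty_or_nonempty (G.cT C) with hT | ⟨s, hs⟩
  · rw [hT]
    simp
  have hT : ∀ t, t ∈ G.cT C ↔ ∃ x ∈ G.Dp, G.cl x = C ∧ G.tri x = t := by
    intro t
    unfold Tg.cT
    rw [Finset.mem_image]
    constructor
    · rintro ⟨x, hx, h⟩
      rw [Finset.mem_filter] at hx
      exact ⟨x, hx.1, hx.2, h⟩
    · rintro ⟨x, hx, h, h'⟩
      exact ⟨x, Finset.mem_filter.2 ⟨hx, h⟩, h'⟩
  have hmk : ∀ t ∈ G.cT C, G.adj.connectedComponentMk t = C := by
    intro t ht
    obtain ⟨x, _, h, rfl⟩ := (hT t).1 ht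
    exact h
  have hS : ∀ t, t ∈ G.cT C ↔ G.adj.connectedComponentMk t = C := by
    intro t
    refine ⟨hmk t, fun h => ?_⟩
    have h1 : G.adj.Reachable t s := SimpleGraph.ConnectedComponent.exact (h.trans (hmk s hs).symm)
    obtain ⟨p⟩ := h1
    cases p with
    | nil => exact hs
    | cons hadj _ =>
      obtain ⟨_, a, b, h2, h3, h4, h5, h6⟩ := hadj
      rw [hT]
      refine ⟨(a, b), h2, ?_, h5⟩
      unfold Tg.cl
      rw [h5]
      exact h
  refine le_trans (comp_edges66 G.adj C (G.cT C) hS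
    ((G.cI C).image fun x => (G.tri x, G.tri (x.2, x.1))) ?_)
    (Nat.add_le_add_right Finset.card_image_le 2)
  rintro u t ⟨_, a, b, h2, h3, h4, h5, h6⟩ hu
  rw [Finset.mem_image]
  refine ⟨(a, b), ?_, ?_⟩
  · unfold Tg.cI
    rw [Finset.mem_filter]
    refine ⟨h2, ?_, h4, h3⟩
    unfold Tg.cl
    rw [h5]
    exact hu
  · dsimp only
    rw [h5, h6]

end

end Pool.Agent.PEN
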