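import Pool.Agent.PEN.Defs
import Pool.Agent.Penny.Cos49

/-! # Hyperbolic penny graphs: Klein coordinates, orientation, law of cosines, angle sum -/

set_option autoImplicit false
set_option linter.all false

namespace Pool.Agent.PEN

open Classical UpperHalfPlane

noncomputable section

theorem kl_eq49 (z : ℍ) : kl z = Pool.Agent.Penny.kl z := by
  unfold kl Pool.Agent.Penny.kl
  rw [Complex.normSq_apply, UpperHalfPlane.coe_re, UpperHalfPlane.coe_im]
  refine Prod.ext rfl ?_
  show z.re ^ 2 + z.im ^ 2 = z.re * z.re + z.im * z.im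
  ring

theorem ori_eq49 (a b c : Pt) : ori a b c = Pool.Agent.Penny.dt a b c := rfl

theorem Dv_eq49 (v p : ℍ) : Dv v p = Pool.Agent.Penny.disc v p := rfl

theorem ang_eq49 (v a b : ℍ) : ang v a b = Pool.Agent.Penny.ang v a b := rfl

/-- B0 -/
theorem kl_inj : Function.Injective kl := by
  intro p q h
  rw [kl_eq49, kl_eq49] at h
  exact Pool.Agent.Penny.kl_inj h

/-- B1 -/
theorem ori_pos_iff (v a b : ℍ) :
    0 < ori (kl v) (kl a) (kl b) ↔ 0 < (Dv v b / Dv v a).im := by
  by_cases ha : a = v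
  · subst ha
    have h1 : ori (kl a) (kl a) (kl b) = 0 := by unfold ori; ring
    have h2 : Dv a a = 0 := by
      rw [Dv_eq49]; exact Pool.Agent.Penny.disc_eq_zero.2 rfl
    rw [h1, h2]
    simp
  · rw [kl_eq49, kl_eq49, kl_eq49, ori_eq49, Dv_eq49, Dv_eq49]
    exact (Pool.Agent.Penny.disc_im_pos ha).symm

theorem ang_pos {v a b : ℍ} (h : 0 < ori (kl v) (kl a) (kl b)) :
    0 < ang v a b ∧ ang v a b < Real.pi :=
  Pool.Agent.Penny.arg_pos49 ((ori_pos_iff v a b).1 h)

/-- B2: law of cosines -/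
theorem cosh_law {v a b : ℍ} (ha : a ≠ v) (hb : b ≠ v) :
    Real.cosh (dist a b) = Real.cosh (dist v a) * Real.cosh (dist v b)
      - Real.sinh (dist v a) * Real.sinh (dist v b) * Real.cos (ang v a b) := by
  rw [ang_eq49]
  exact Pool.Agent.Penny.cosh_law v a b ha hb

/-- B3 -/
theorem ang_sum {a b c : ℍ} (h : 0 < ori (kl a) (kl b) (kl c)) :
    ang a b c + ang b c a + ang c a b < Real.pi := by
  rw [kl_eq49, kl_eq49, kl_eq49, ori_eq49] at h
  rw [ang_eq49, ang_eq49, ang_eq49]
  exact Pool.Agent.Penny.ang_sum h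

end

end Pool.Agent.PEN
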