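import Pool.Agent.PEN.B39
import Pool.Agent.PEN.B49

/-! B5, B6 in the form of the blueprint. -/

set_option autoImplicit false

namespace Pool.Agent.PEN

open Classical UpperHalfPlane

noncomputable section

/-- B5: the angle of the contact triangle -/
theorem ang_contact {d : ℝ} (hd : 0 < d) {v a b : ℍ} (h1 : dist v a = d) (h2 : dist v b = d)
    (h3 : dist a b = d) (h : 0 < ori (kl v) (kl a) (kl b)) : ang v a b = alpha d :=
  ang_contact39 (fun ha hb => cosh_law ha hb) (fun h => ang_pos h) hd h1 h2 h3 h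

/-- B6: the rhombus -/
theorem rhombus {d : ℝ} (hd : 0 < d) {a b p q : ℍ} (h1 : 0 < ori (kl a) (kl b) (kl p))
    (h2 : 0 < ori (kl b) (kl a) (kl q)) (hbp : dist b p = d) (hpa : dist p a = d)
    (haq : dist a q = d) (hqb : dist q b = d) (hab : d ≤ dist a b) (hpq : d ≤ dist p q) :
    ang p a b ≤ 2 * alpha d ∧ ang a b p + ang a q b ≤ 2 * alpha d :=
  rhombus39 (fun ha hb => cosh_law ha hb) (fun h => ang_pos h) hd h1 h2 hbp hpa haq hqb hab hpq

end

end Pool.Agent.PEN
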