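import Pool.Agent.PEN.Defs

/-! # Hyperbolic penny graphs: interface of the planar triangulation -/

set_option autoImplicit false

namespace Pool.Agent.PEN

open Classical

noncomputable section

/-- What the assembly needs from a triangulation of a finite planar set: edges `T`, positively
oriented triangles `Tr`. -/
structure PTri (P : Finset Pt) (T : Pt → Pt → Prop) (Tr : Pt → Pt → Pt → Prop) : Prop where
  mem : ∀ a b, T a b → a ∈ P
  ne : ∀ a b, T a b → a ≠ b
  symm : ∀ a b, T a b → T b a
  /-- two edges from `v` are not on the same ray -/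
  ray : ∀ v x y, T v x → T v y → x ∉ openSegment ℝ v y
  tr : ∀ a b c, Tr a b c → T a b ∧ 0 < ori a b c
  rot : ∀ a b c, Tr a b c → Tr b c a
  uniq : ∀ a b c c', Tr a b c → Tr a b c' → c = c'
  ex : ∀ a b, T a b → Lft P a b → ∃ c, Tr a b c
  card : 2 ≤ P.card → ((P ×ˢ P).filter (fun x => T x.1 x.2 ∧ Lft P x.1 x.2)).card
    + 3 * (P.filter (Bd P)).card + 6 ≤ 6 * P.card

/-- The same without the count, with the angle lemma instead. (The count follows, see
`PTri0.toPTri`.) -/
structure PTri0 (P : Finset Pt) (T : Pt → Pt → Prop) (Tr : Pt → Pt → Pt → Prop) : Prop where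
  mem : ∀ a b, T a b → a ∈ P
  ne : ∀ a b, T a b → a ≠ b
  symm : ∀ a b, T a b → T b a
  ray : ∀ v x y, T v x → T v y → x ∉ openSegment ℝ v y
  tr : ∀ a b c, Tr a b c → T a b ∧ 0 < ori a b c
  rot : ∀ a b c, Tr a b c → Tr b c a
  uniq : ∀ a b c c', Tr a b c → Tr a b c' → c = c'
  ex : ∀ a b, T a b → Lft P a b → ∃ c, Tr a b c
  /-- no edge from `v` enters the open angle of a triangle at `v` -/
  angle : ∀ v a b c, Tr v a b → T v c → ¬ (0 < ori v a c ∧ 0 < ori v c b)

/-- two darts at `v` with empty left side are equal, if `P` is not on a line -/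
theorem PTri.left_unique {P : Finset Pt} {T : Pt → Pt → Prop} {Tr : Pt → Pt → Pt → Prop}
    (hT : PTri P T Tr) (hnc : ∀ a ∈ P, ∀ b ∈ P, a ≠ b → ∃ p ∈ P, ori a b p ≠ 0) {v a b : Pt}
    (ha : T v a) (hb : T v b) (ha' : ¬ Lft P v a) (hb' : ¬ Lft P v b) : a = b := by
  by_contra hab
  have hva : v ∈ P := hT.mem _ _ ha
  have haP : a ∈ P := hT.mem _ _ (hT.symm _ _ ha)
  have hbP : b ∈ P := hT.mem _ _ (hT.symm _ _ hb)
  have h1 : ori v a b ≤ 0 := by
    by_contra h
    exact ha' ⟨b, hbP, not_le.mp h⟩
  have h2 : ori v b a ≤ 0 := by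
    by_contra h
    exact hb' ⟨a, haP, not_le.mp h⟩
  have h0 : ori v a b = 0 := by
    unfold ori at *
    linarith
  have hne : v ≠ a := hT.ne _ _ ha
  have hnb : v ≠ b := hT.ne _ _ hb
  -- b - v = t (a - v)
  obtain ⟨t, ht1, ht2⟩ : ∃ t : ℝ, b.1 - v.1 = t * (a.1 - v.1) ∧ b.2 - v.2 = t * (a.2 - v.2) := by
    unfold ori at h0
    by_cases hx : a.1 - v.1 = 0
    · have hy : a.2 - v.2 ≠ 0 := by
        intro hy
        apply hne
        ext
        · linarith
        · linarith
      refine ⟨(b.2 - v.2) / (a.2 - v.2), ?_, ?_⟩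
      · rw [hx] at h0 ⊢
        have : (a.2 - v.2) * (b.1 - v.1) = 0 := by linarith
        rcases mul_eq_zero.mp this with h | h
        · exact absurd h hy
        · rw [h, mul_zero]
      · field_simp
    · refine ⟨(b.1 - v.1) / (a.1 - v.1), ?_, ?_⟩
      · field_simp
      · field_simp
        linarith
  rcases lt_trichotomy t 0 with h | h | h
  · -- opposite rays: everything is on the line
    obtain ⟨p, hp, hp2⟩ := hnc v hva a haP hne
    have h3 : ori v a p ≤ 0 := by
      by_contra h
      exact ha' ⟨p, hp, not_le.mp h⟩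
    have h4 : ori v b p ≤ 0 := by
      by_contra h
      exact hb' ⟨p, hp, not_le.mp h⟩
    have h5 : ori v b p = t * ori v a p := by
      unfold ori
      rw [ht1, ht2]
      ring
    rw [h5] at h4
    have h6 : ori v a p < 0 := lt_of_le_of_ne h3 hp2
    nlinarith [mul_pos_of_neg_of_neg h h6]
  · apply hnb
    rw [h] at ht1 ht2
    ext
    · linarith
    · linarith
  · rcases lt_trichotomy t 1 with h' | h' | h'
    · apply hT.ray v b a hb ha
      refine ⟨1 - t, t, by linarith, h, by ring, ?_⟩
      ext
      · simp only [Prod.fst_add, Prod.smul_fst, smul_eq_mul]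
        linarith
      · simp only [Prod.snd_add, Prod.smul_snd, smul_eq_mul]
        linarith
    · apply hab
      rw [h'] at ht1 ht2
      ext
      · linarith
      · linarith
    · apply hT.ray v a b ha hb
      refine ⟨1 - 1 / t, 1 / t, ?_, by positivity, by ring, ?_⟩
      · have : 1 / t < 1 := by
          rw [div_lt_one h]
          exact h'
        linarith
      · ext
        · simp only [Prod.fst_add, Prod.smul_fst, smul_eq_mul]
          field_simp
          linarith
        · simp only [Prod.snd_add, Prod.smul_snd, smul_eq_mul]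
          field_simp
          linarith

/-- at an interior point both sides of every dart contain points of `P` -/
theorem PTri.int_left {P : Finset Pt} {T : Pt → Pt → Prop} {Tr : Pt → Pt → Pt → Prop}
    (hT : PTri P T Tr) {v a : Pt} (hb : ¬ Bd P v) (h : T v a) : Lft P v a ∧ Lft P a v := by
  have hne : a ≠ v := (hT.ne _ _ h).symm
  have h0 : (a - v : Pt) ≠ 0 := sub_ne_zero.mpr hne
  have h0' : (v - a : Pt) ≠ 0 := sub_ne_zero.mpr hne.symm
  constructor
  · by_contra h1
    apply hb
    refine ⟨a - v, h0, fun p hp => ?_⟩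
    by_contra h2
    apply h1
    refine ⟨p, hp, ?_⟩
    unfold cr at h2
    unfold ori
    simp only [Prod.fst_sub, Prod.snd_sub] at h2
    linarith [not_le.mp h2]
  · by_contra h1
    apply hb
    refine ⟨v - a, h0', fun p hp => ?_⟩
    by_contra h2
    apply h1
    refine ⟨p, hp, ?_⟩
    unfold cr at h2
    unfold ori
    simp only [Prod.fst_sub, Prod.snd_sub] at h2
    linarith [not_le.mp h2]

end

end Pool.Agent.PEN
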