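import Mathlib

/-! # Hyperbolic penny graphs: definitions

Planar part: finite point sets of `ℝ × ℝ`, maximal families of pairwise non-crossing segments.
Hyperbolic part: the Klein coordinates `kl z = (re z, |z|^2)` of the upper half plane, directions and
angles. Abstract part: the combinatorial structure `Tg` of a triangulation. -/

set_option autoImplicit false

namespace Pool.Agent.PEN

open Classical

noncomputable section

/-! ### Planar part -/

/-- points of the plane -/
abbrev Pt := ℝ × ℝ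

/-- twice the signed area of the triangle `a b c` -/
def ori (a b c : Pt) : ℝ := (b.1 - a.1) * (c.2 - a.2) - (b.2 - a.2) * (c.1 - a.1)

/-- `p` is on the left of the line through `v` with direction `u` if `0 < cr u v p` -/
def cr (u v p : Pt) : ℝ := u.1 * (p.2 - v.2) - u.2 * (p.1 - v.1)

/-- proper crossing of the segments `a b` and `c e` -/
def Cross (a b c e : Pt) : Prop := ori a b c * ori a b e < 0 ∧ ori c e a * ori c e b < 0

/-- the open segment contains no point of `P` -/
def Free (P : Finset Pt) (a b : Pt) : Prop := ∀ p ∈ P, p ∉ openSegment ℝ a b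

/-- a maximal family of pairwise non-crossing free segments between points of `P` -/
structure IsTrg (P : Finset Pt) (T : Pt → Pt → Prop) : Prop where
  mem : ∀ a b, T a b → a ∈ P ∧ b ∈ P
  ne : ∀ a b, T a b → a ≠ b
  symm : ∀ a b, T a b → T b a
  free : ∀ a b, T a b → Free P a b
  noncross : ∀ a b c e, T a b → T c e → ¬ Cross a b c e
  maximal : ∀ a b, a ∈ P → b ∈ P → a ≠ b → Free P a b →
    (∀ c e, T c e → ¬ Cross a b c e) → T a b

/-- positively oriented empty triangle of the family `T` -/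
def IsT (P : Finset Pt) (T : Pt → Pt → Prop) (a b c : Pt) : Prop :=
  T a b ∧ T b c ∧ T c a ∧ 0 < ori a b c ∧
    ∀ p ∈ P, 0 ≤ ori a b p → 0 ≤ ori b c p → 0 ≤ ori c a p → p = a ∨ p = b ∨ p = c

/-- some open half plane at `v` contains no point of `P` -/
def Bd (P : Finset Pt) (v : Pt) : Prop := ∃ u : Pt, u ≠ 0 ∧ ∀ p ∈ P, cr u v p ≤ 0

/-- there is a point of `P` strictly on the left of `a b` -/
def Lft (P : Finset Pt) (a b : Pt) : Prop := ∃ p ∈ P, 0 < ori a b p

/-! ### Hyperbolic part -/

open UpperHalfPlane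

/-- Klein coordinates of the upper half plane: geodesics become straight segments -/
def kl (z : ℍ) : Pt := (z.re, z.re ^ 2 + z.im ^ 2)

/-- disc coordinate of `p` with centre `v` -/
def Dv (v p : ℍ) : ℂ := ((p : ℂ) - (v : ℂ)) / ((p : ℂ) - (starRingEnd ℂ) (v : ℂ))

/-- oriented angle at `v` from `a` to `b`, counterclockwise, in `(-π, π]` -/
def ang (v a b : ℍ) : ℝ := Complex.arg (Dv v b / Dv v a)

/-- the angle of the equilateral triangle with side `d` -/
def alpha (d : ℝ) : ℝ := Real.arccos (Real.tanh (d / 2) / Real.tanh d)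

/-- pairwise distances at least `d` -/
def Sep (d : ℝ) (P : Finset ℍ) : Prop := ∀ x ∈ P, ∀ y ∈ P, x ≠ y → d ≤ dist x y

/-- number of ordered pairs at distance exactly `d` (twice the number of edges) -/
def cd (d : ℝ) (P : Finset ℍ) : ℕ := ((P ×ˢ P).filter (fun x => dist x.1 x.2 = d)).card

/-! ### Abstract part -/

/-- The combinatorial structure of a triangulated point set. `D` are the darts, `Dp` the darts
with a triangle on the left, `ap a b` is the third vertex of the triangle on the left of `(a,b)`,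
`con` the contact relation, `bd` the boundary points, `th a b` the angle at `a` of the triangle
on the left of `(a,b)`. -/
structure Tg (V : Type) where
  P : Finset V
  D : Finset (V × V)
  Dp : Finset (V × V)
  ap : V → V → V
  con : V → V → Prop
  bd : V → Prop
  th : V → V → ℝ
  sub : Dp ⊆ D
  symm : ∀ a b, (a, b) ∈ D → (b, a) ∈ D
  mem : ∀ a b, (a, b) ∈ D → a ∈ P
  ne : ∀ a b, (a, b) ∈ D → a ≠ b
  csymm : ∀ a b, con a b → con b a
  ap1 : ∀ a b, (a, b) ∈ Dp → (b, ap a b) ∈ Dp
  ap2 : ∀ a b, (a, b) ∈ Dp → (ap a b, a) ∈ Dp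
  ap3 : ∀ a b, (a, b) ∈ Dp → ap b (ap a b) = a
  ap4 : ∀ a b, (a, b) ∈ Dp → ap (ap a b) a = b
  ap5 : ∀ a b, (a, b) ∈ Dp → (b, a) ∈ Dp → ap a b ≠ ap b a
  int1 : ∀ v a, v ∈ P → ¬ bd v → (v, a) ∈ D → (v, a) ∈ Dp
  int2 : ∀ v a, v ∈ P → ¬ bd v → (v, a) ∈ D → (a, v) ∈ Dp
  thpos : ∀ a b, (a, b) ∈ Dp → 0 < th a b

namespace Tg

variable {V : Type} (G : Tg V)

/-- the clockwise neighbour of `a` at `v` (for interior `v`) -/
def bk (v a : V) : V := G.ap a v

/-- going clockwise from `a` around `v` one meets a contact dart -/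
def HasO (v a : V) : Prop := ∃ i : ℕ, G.con v ((G.bk v)^[i] a)

/-- the first contact dart met going clockwise from `a` around `v` (`a` itself included) -/
def og (v a : V) : V := if h : G.HasO v a then (G.bk v)^[Nat.find h] a else a

/-- angle of the gap of the contact dart `(v,x)`, from `x` counterclockwise to the next contact dart;
at a boundary point just the angle of the triangle on the left of `(v,x)` -/
def Th (v x : V) : ℝ :=
  if G.bd v then G.th v x
  else ∑ y ∈ G.D.filter (fun y => y.1 = v ∧ G.HasO v y.2 ∧ G.og v y.2 = x), G.th v y.2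

/-- the weight of the contact dart `(v,x)` -/
def w (om : ℝ) (v x : V) : ℕ := if G.bd v then 1 else ⌈G.Th v x / om⌉₊

/-- the triangle on the left of a dart -/
def tri (x : V × V) : Finset V := {x.1, x.2, G.ap x.1 x.2}

/-- two triangles are adjacent if they share a non-contact edge -/
def adj : SimpleGraph (Finset V) where
  Adj s t := s ≠ t ∧ ∃ a b, (a, b) ∈ G.Dp ∧ (b, a) ∈ G.Dp ∧ ¬ G.con a b ∧
    ((G.tri (a, b) = s ∧ G.tri (b, a) = t))
  symm := ⟨by
    rintro s t ⟨h, a, b, h1, h2, h3, h4, h5⟩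
    exact ⟨h.symm, b, a, h2, h1, fun h6 => h3 (G.csymm _ _ h6), h5, h4⟩⟩
  loopless := ⟨fun s h => h.1 rfl⟩

/-- the class of a dart: the connected component of its triangle -/
def cl (x : V × V) : G.adj.ConnectedComponent := G.adj.connectedComponentMk (G.tri x)

/-- the triangles of a class -/
def cT (C : G.adj.ConnectedComponent) : Finset (Finset V) :=
  (G.Dp.filter (fun x => G.cl x = C)).image G.tri

/-- darts of a class -/
def cD (C : G.adj.ConnectedComponent) : Finset (V × V) := G.Dp.filter (fun x => G.cl x = C)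

/-- contact darts of a class -/
def cJ (C : G.adj.ConnectedComponent) : Finset (V × V) :=
  G.Dp.filter (fun x => G.cl x = C ∧ G.con x.1 x.2)

/-- inner non-contact darts of a class -/
def cI (C : G.adj.ConnectedComponent) : Finset (V × V) :=
  G.Dp.filter (fun x => G.cl x = C ∧ ¬ G.con x.1 x.2 ∧ (x.2, x.1) ∈ G.Dp)

/-- hull non-contact darts of a class -/
def cB (C : G.adj.ConnectedComponent) : Finset (V × V) :=
  G.Dp.filter (fun x => G.cl x = C ∧ ¬ G.con x.1 x.2 ∧ (x.2, x.1) ∉ G.Dp)

/-- the numerical hypotheses of the combinatorial theorem -/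
structure Good (k : ℕ) (om : ℝ) : Prop where
  hk : 6 ≤ k
  om_pos : 0 < om
  hom : (k : ℝ) * om < 2 * Real.pi
  /-- every invariant set of neighbours of an interior point has total angle at least `2π` -/
  turn : ∀ v ∈ G.P, ¬ G.bd v → ∀ S : Finset V, S.Nonempty → (∀ a ∈ S, (v, a) ∈ G.D) →
    (∀ a ∈ S, G.ap v a ∈ S) → 2 * Real.pi ≤ ∑ a ∈ S, G.th v a
  tsum : ∀ a b, (a, b) ∈ G.Dp →
    3 * (G.th a b + G.th b (G.ap a b) + G.th (G.ap a b) a) ≤ (2 * k - 3) * om
  tcon : ∀ a b, (a, b) ∈ G.Dp → G.con a b → G.con b (G.ap a b) → G.con (G.ap a b) a →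
    G.th a b ≤ om
  rh1 : ∀ a b, (a, b) ∈ G.Dp → (b, a) ∈ G.Dp → ¬ G.con a b → G.con b (G.ap a b) →
    G.con (G.ap a b) a → G.con a (G.ap b a) → G.con (G.ap b a) b →
    G.th (G.ap a b) a ≤ 2 * om
  rh2 : ∀ a b, (a, b) ∈ G.Dp → (b, a) ∈ G.Dp → ¬ G.con a b → G.con b (G.ap a b) →
    G.con (G.ap a b) a → G.con a (G.ap b a) → G.con (G.ap b a) b →
    G.th a b + G.th a (G.ap b a) ≤ 2 * om
  deg : ∀ v ∈ G.P, 3 ≤ (G.D.filter (fun x => x.1 = v ∧ G.con x.1 x.2)).card
  left : ∀ v a b, (v, a) ∈ G.D → (v, b) ∈ G.D → (v, a) ∉ G.Dp → (v, b) ∉ G.Dp → a = b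
  cnt : G.Dp.card + 3 * (G.P.filter G.bd).card + 6 ≤ 6 * G.P.card

end Tg

end

end Pool.Agent.PEN
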