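import Pool.Agent.PEN.Defs
import Pool.Agent.Penny.Rhomb39

/-! B4, B5, B6 of the hyperbolic cell: the angle `alpha`, the contact triangle, the rhombus. -/

set_option autoImplicit false

namespace Pool.Agent.PEN

open Classical UpperHalfPlane

noncomputable section

/-! ### B4 -/

lemma ratio39 {d : ℝ} (hd : 0 < d) :
    Real.tanh (d / 2) / Real.tanh d = Real.cosh d / (Real.cosh d + 1) := by
  have hs2 : 0 < Real.sinh (d / 2) := Real.sinh_pos_iff.2 (by linarith)
  have hc2 : 0 < Real.cosh (d / 2) := Real.cosh_pos _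
  have hsd : Real.sinh d = 2 * Real.sinh (d / 2) * Real.cosh (d / 2) := by
    rw [← Real.sinh_two_mul]; ring_nf
  have hcd : Real.cosh d = Real.cosh (d / 2) ^ 2 + Real.sinh (d / 2) ^ 2 := by
    rw [← Real.cosh_two_mul]; ring_nf
  have hsq := Real.cosh_sq (d / 2)
  have h1 : Real.cosh d + 1 = 2 * Real.cosh (d / 2) ^ 2 := by rw [hcd]; linarith
  have hcd0 : 0 < Real.cosh d := Real.cosh_pos _
  rw [Real.tanh_eq_sinh_div_cosh, Real.tanh_eq_sinh_div_cosh, h1, hsd]
  field_simp

/-- B4 -/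
theorem cos_alpha {d : ℝ} (hd : 0 < d) :
    Real.cos (alpha d) = Real.cosh d / (Real.cosh d + 1) := by
  have hc : 0 < Real.cosh d := Real.cosh_pos _
  unfold alpha
  rw [Real.cos_arccos, ratio39 hd]
  · rw [ratio39 hd]
    have : 0 ≤ Real.cosh d / (Real.cosh d + 1) := by positivity
    linarith
  · rw [ratio39 hd, div_le_one (by linarith)]
    linarith

theorem alpha_nonneg39 (d : ℝ) : 0 ≤ alpha d := Real.arccos_nonneg _

theorem alpha_le_pi39 (d : ℝ) : alpha d ≤ Real.pi := Real.arccos_le_pi _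

theorem alpha_pos {d : ℝ} (hd : 0 < d) : 0 < alpha d := by
  unfold alpha
  rw [Real.arccos_pos, ratio39 hd]
  have hc : 0 < Real.cosh d := Real.cosh_pos _
  rw [div_lt_one (by linarith)]
  linarith

/-- `alpha d` satisfies the law of cosines of the equilateral triangle -/
lemma cos_alpha_law39 {d : ℝ} (hd : 0 < d) : Penny39.Cos d d d (alpha d) := by
  unfold Penny39.Cos
  have hc := Penny39.cosh_gt_one hd
  rw [Penny39.sinh_sq', cos_alpha hd]
  field_simp
  ring

theorem alpha_lt {d : ℝ} (hd : 0 < d) : alpha d < Real.pi / 3 :=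
  Penny39.equi_lt hd (alpha_le_pi39 d) (cos_alpha_law39 hd)

theorem alpha_anti {d e : ℝ} (hd : 0 < d) (h : d < e) : alpha e < alpha d := by
  have he : 0 < e := hd.trans h
  have hc := Real.cosh_pos d
  have hlt : Real.cosh d < Real.cosh e := by
    rw [Real.cosh_lt_cosh, abs_of_pos hd, abs_of_pos he]; exact h
  have h1 : Real.cos (alpha d) < Real.cos (alpha e) := by
    rw [cos_alpha hd, cos_alpha he, div_lt_div_iff₀ (by linarith) (by linarith)]
    nlinarith
  by_contra hcon
  push Not at hcon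
  have := Real.cos_le_cos_of_nonneg_of_le_pi (alpha_nonneg39 d) (alpha_le_pi39 e) hcon
  linarith

/-! ### B5, B6 from the law of cosines -/

/-- the statement of the law of cosines (B2) -/
def Law39 : Prop := ∀ {v a b : ℍ}, a ≠ v → b ≠ v →
    Real.cosh (dist a b) = Real.cosh (dist v a) * Real.cosh (dist v b)
      - Real.sinh (dist v a) * Real.sinh (dist v b) * Real.cos (ang v a b)

/-- the statement of `ang_pos` (B1) -/
def AngPos39 : Prop := ∀ {v a b : ℍ}, 0 < ori (kl v) (kl a) (kl b) →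
    0 < ang v a b ∧ ang v a b < Real.pi

lemma ne_of_dist39 {d : ℝ} (hd : 0 < d) {a b : ℍ} (h : d ≤ dist a b) : a ≠ b := by
  rintro rfl
  rw [dist_self] at h
  linarith

lemma ori_rot39 (a b c : Pt) : ori a b c = ori b c a := by unfold ori; ring

/-- B5 from B1, B2 -/
theorem ang_contact39 (law : Law39) (hp : AngPos39) {d : ℝ} (hd : 0 < d) {v a b : ℍ}
    (h1 : dist v a = d) (h2 : dist v b = d)
    (h3 : dist a b = d) (h : 0 < ori (kl v) (kl a) (kl b)) : ang v a b = alpha d := by
  have hva : a ≠ v := (ne_of_dist39 hd h1.ge).symm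
  have hvb : b ≠ v := (ne_of_dist39 hd h2.ge).symm
  have hl := law hva hvb
  rw [h1, h2, h3] at hl
  obtain ⟨ha0, ha1⟩ := hp h
  exact Penny39.equi_unique hd ha0.le ha1.le (alpha_nonneg39 d) (alpha_le_pi39 d) hl (cos_alpha_law39 hd)

lemma Dv_ne39 {v p : ℍ} (h : p ≠ v) : Dv v p ≠ 0 := by
  unfold Dv
  refine div_ne_zero (sub_ne_zero.2 fun e => h (UpperHalfPlane.ext e)) (sub_ne_zero.2 fun e => ?_)
  have h1 := congrArg Complex.im e
  rw [Complex.conj_im] at h1
  have h2 := p.im_pos
  have h3 := v.im_pos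
  simp only [UpperHalfPlane.coe_im] at h1
  linarith

lemma cos_ang_add39 {v a b c : ℍ} (ha : a ≠ v) (hb : b ≠ v) (hc : c ≠ v) :
    Real.cos (ang v a c) = Real.cos (ang v a b + ang v b c) := by
  unfold ang
  have h1 : Dv v c / Dv v a = (Dv v b / Dv v a) * (Dv v c / Dv v b) := by
    field_simp [Dv_ne39 ha, Dv_ne39 hb]
  have hz : Dv v b / Dv v a ≠ 0 := div_ne_zero (Dv_ne39 hb) (Dv_ne39 ha)
  have hw : Dv v c / Dv v b ≠ 0 := div_ne_zero (Dv_ne39 hc) (Dv_ne39 hb)
  rw [h1]
  have h2 : ((Complex.arg ((Dv v b / Dv v a) * (Dv v c / Dv v b)) : ℝ) : Real.Angle) =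
      ((Complex.arg (Dv v b / Dv v a) + Complex.arg (Dv v c / Dv v b) : ℝ) : Real.Angle) := by
    rw [Complex.arg_mul_coe_angle hz hw]
    simp
  rw [← Real.Angle.cos_coe, h2, Real.Angle.cos_coe]

/-- B6 from B1, B2 -/
theorem rhombus39 (law : Law39) (hp : AngPos39) {d : ℝ} (hd : 0 < d) {a b p q : ℍ}
    (h1 : 0 < ori (kl a) (kl b) (kl p))
    (h2 : 0 < ori (kl b) (kl a) (kl q)) (hbp : dist b p = d) (hpa : dist p a = d)
    (haq : dist a q = d) (hqb : dist q b = d) (hab : d ≤ dist a b) (hpq : d ≤ dist p q) :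
    ang p a b ≤ 2 * alpha d ∧ ang a b p + ang a q b ≤ 2 * alpha d := by
  have nab : b ≠ a := (ne_of_dist39 hd hab).symm
  have nbp : p ≠ b := (ne_of_dist39 hd hbp.ge).symm
  have npa : a ≠ p := (ne_of_dist39 hd hpa.ge).symm
  have naq : q ≠ a := (ne_of_dist39 hd haq.ge).symm
  -- positive angles
  have o1 : 0 < ori (kl p) (kl a) (kl b) := by rw [ori_rot39]; exact h1
  have o2 : 0 < ori (kl a) (kl q) (kl b) := by rw [← ori_rot39]; exact h2
  obtain ⟨g0, g1⟩ := hp o1
  obtain ⟨b0, b1⟩ := hp h1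
  obtain ⟨c0, c1⟩ := hp o2
  -- law of cosines
  have eγ : Penny39.Cos (dist a b) d d (ang p a b) := by
    have := law npa nbp.symm
    rw [hpa, dist_comm p b, hbp] at this
    exact this
  have eβ : Penny39.Cos d d (dist a b) (ang a b p) := by
    have := law nab npa.symm
    rw [hbp, dist_comm a p, hpa] at this
    unfold Penny39.Cos
    linarith
  have eβ' : Penny39.Cos d d (dist a b) (ang a q b) := by
    have := law naq nab
    rw [hqb, haq] at this
    unfold Penny39.Cos
    linarith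
  have ed : Penny39.Cos (dist p q) d d (ang a q b + ang a b p) := by
    have := law naq npa.symm
    rw [haq, dist_comm a p, hpa, dist_comm q p, cos_ang_add39 naq nab npa.symm] at this
    exact this
  have key := Penny39.rhombus hd hab hpq (alpha_nonneg39 d) (alpha_le_pi39 d) g1.le b0.le b1.le c0.le c1.le
    (cos_alpha_law39 hd) eγ eβ eβ' (by rw [add_comm]; exact ed)
  exact key

end

end Pool.Agent.PEN
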