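import Mathlib

/-! # Cell F, the chain: number of edges of the strip (pure combinatorics on indices)

Types: `0` = centre, `1` = middle outer point, `2` = shared outer point at position `p`. -/

set_option autoImplicit false

namespace Pool.Agent.PEN

/-- adjacency of the indices of the strip -/
def adjS (x y : Fin 3 × ℕ) : Prop :=
  (x.1 = 0 ∧ y.1 = 0 ∧ (x.2 + 1 = y.2 ∨ y.2 + 1 = x.2 ∨ x.2 + 2 = y.2 ∨ y.2 + 2 = x.2)) ∨
  (((x.1 = 0 ∧ y.1 = 1) ∨ (x.1 = 1 ∧ y.1 = 0)) ∧ x.2 = y.2) ∨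
  (((x.1 ≠ 2 ∧ y.1 = 2) ∨ (x.1 = 2 ∧ y.1 ≠ 2)) ∧ (x.2 + 1 = y.2 ∨ y.2 + 1 = x.2))

instance : DecidableRel adjS := fun x y => by unfold adjS; infer_instance

theorem adjS_symm90 {x y : Fin 3 × ℕ} (h : adjS x y) : adjS y x := by
  unfold adjS at h ⊢
  rcases h with ⟨h1, h2, h3⟩ | ⟨h1, h2⟩ | ⟨h1, h2⟩
  · exact Or.inl ⟨h2, h1, by omega⟩
  · exact Or.inr (Or.inl ⟨by tauto, h2.symm⟩)
  · exact Or.inr (Or.inr ⟨by tauto, by omega⟩)

/-- number of ordered adjacent pairs -/
def cnt90 (A : Finset (Fin 3 × ℕ)) : ℕ := ((A ×ˢ A).filter (fun x => adjS x.1 x.2)).card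

/-- the extension lemma -/
theorem ext90 {A N : Finset (Fin 3 × ℕ)} {z : Fin 3 × ℕ} (hz : z ∉ A) (hN : N ⊆ A)
    (h : ∀ y ∈ N, adjS z y) : cnt90 A + 2 * N.card ≤ cnt90 (insert z A) := by
  classical
  unfold cnt90
  have hzN : z ∉ N := fun h1 => hz (hN h1)
  have h1 : Disjoint (((A ×ˢ A).filter (fun x => adjS x.1 x.2)) ∪ N.image (fun y => (z, y)))
      (N.image (fun y => (y, z))) := by
    rw [Finset.disjoint_left]
    intro x hx hx'
    rw [Finset.mem_image] at hx'
    obtain ⟨y, hy, rfl⟩ := hx'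
    rw [Finset.mem_union, Finset.mem_filter, Finset.mem_product, Finset.mem_image] at hx
    rcases hx with hx | ⟨y', hy', he⟩
    · exact hz hx.1.2
    · rw [Prod.ext_iff] at he
      simp only at he
      exact hzN (he.1 ▸ hy)
  have h2 : Disjoint ((A ×ˢ A).filter (fun x => adjS x.1 x.2)) (N.image (fun y => (z, y))) := by
    rw [Finset.disjoint_left]
    intro x hx hx'
    rw [Finset.mem_image] at hx'
    obtain ⟨y, hy, rfl⟩ := hx'
    rw [Finset.mem_filter, Finset.mem_product] at hx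
    exact hz hx.1.1
  have h3 : (((A ×ˢ A).filter (fun x => adjS x.1 x.2)) ∪ N.image (fun y => (z, y))) ∪
      (N.image (fun y => (y, z))) ⊆
      ((insert z A) ×ˢ (insert z A)).filter (fun x => adjS x.1 x.2) := by
    intro x hx
    rw [Finset.mem_union, Finset.mem_union] at hx
    rw [Finset.mem_filter, Finset.mem_product]
    rcases hx with (hx | hx) | hx
    · rw [Finset.mem_filter, Finset.mem_product] at hx
      exact ⟨⟨Finset.mem_insert_of_mem hx.1.1, Finset.mem_insert_of_mem hx.1.2⟩, hx.2⟩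
    · rw [Finset.mem_image] at hx
      obtain ⟨y, hy, rfl⟩ := hx
      exact ⟨⟨Finset.mem_insert_self _ _, Finset.mem_insert_of_mem (hN hy)⟩, h y hy⟩
    · rw [Finset.mem_image] at hx
      obtain ⟨y, hy, rfl⟩ := hx
      exact ⟨⟨Finset.mem_insert_of_mem (hN hy), Finset.mem_insert_self _ _⟩,
        adjS_symm90 (h y hy)⟩
  have h4 := Finset.card_le_card h3
  rw [Finset.card_union_of_disjoint h1, Finset.card_union_of_disjoint h2,
    Finset.card_image_of_injective _ (fun a b hab => (Prod.ext_iff.1 hab).2),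
    Finset.card_image_of_injective _ (fun a b hab => (Prod.ext_iff.1 hab).1)] at h4
  omega

/-- the members of the strip before block `i` -/
def mem90 (i : ℕ) (x : Fin 3 × ℕ) : Prop :=
  (x.1 = 0 ∧ x.2 ≤ i + 1) ∨ (x.1 = 2 ∧ 1 ≤ x.2 ∧ x.2 ≤ i) ∨ (x.1 = 1 ∧ 2 ≤ x.2 ∧ x.2 + 1 ≤ i)

/-- one block of the strip -/
theorem block90 {i : ℕ} (hi : 4 ≤ i) {A : Finset (Fin 3 × ℕ)} (hc : A.card = 3 * i)
    (hE : 2 * (7 * i - 5) ≤ cnt90 A) (hm : ∀ x, x ∈ A ↔ mem90 i x) :
    (∃ B : Finset (Fin 3 × ℕ), B.card = 3 * i + 1 ∧ 2 * (7 * i - 3) ≤ cnt90 B) ∧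
    (∃ B : Finset (Fin 3 × ℕ), B.card = 3 * i + 2 ∧ 2 * (7 * i - 1) ≤ cnt90 B) ∧
    (∃ B : Finset (Fin 3 × ℕ), B.card = 3 * (i + 1) ∧ 2 * (7 * (i + 1) - 5) ≤ cnt90 B ∧
      ∀ x, x ∈ B ↔ mem90 (i + 1) x) := by
  have hz1 : ((0 : Fin 3), i + 2) ∉ A := by
    rw [hm]; unfold mem90; simp
  have e1 := ext90 (A := A) (N := {((0 : Fin 3), i + 1), ((0 : Fin 3), i)})
    (z := ((0 : Fin 3), i + 2)) hz1
    (by
      intro y hy
      rw [Finset.mem_insert, Finset.mem_singleton] at hy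
      rw [hm]; unfold mem90
      rcases hy with rfl | rfl <;> simp)
    (by
      intro y hy
      rw [Finset.mem_insert, Finset.mem_singleton] at hy
      unfold adjS
      rcases hy with rfl | rfl <;> simp)
  have c1 : ({((0 : Fin 3), i + 1), ((0 : Fin 3), i)} : Finset (Fin 3 × ℕ)).card = 2 :=
    Finset.card_pair (by simp)
  rw [c1] at e1
  have d1 : (insert ((0 : Fin 3), i + 2) A).card = 3 * i + 1 := by
    rw [Finset.card_insert_of_notMem hz1, hc]
  have hz2 : ((2 : Fin 3), i + 1) ∉ insert ((0 : Fin 3), i + 2) A := by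
    rw [Finset.mem_insert, hm]; unfold mem90; simp
  have e2 := ext90 (A := insert ((0 : Fin 3), i + 2) A)
    (N := {((0 : Fin 3), i), ((0 : Fin 3), i + 2)})
    (z := ((2 : Fin 3), i + 1)) hz2
    (by
      intro y hy
      rw [Finset.mem_insert, Finset.mem_singleton] at hy
      rw [Finset.mem_insert, hm]; unfold mem90
      rcases hy with rfl | rfl <;> simp)
    (by
      intro y hy
      rw [Finset.mem_insert, Finset.mem_singleton] at hy
      unfold adjS
      rcases hy with rfl | rfl <;> simp)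
  have c2 : ({((0 : Fin 3), i), ((0 : Fin 3), i + 2)} : Finset (Fin 3 × ℕ)).card = 2 :=
    Finset.card_pair (by simp)
  rw [c2] at e2
  have d2 : (insert ((2 : Fin 3), i + 1) (insert ((0 : Fin 3), i + 2) A)).card = 3 * i + 2 := by
    rw [Finset.card_insert_of_notMem hz2, d1]
  have hz3 : ((1 : Fin 3), i) ∉ insert ((2 : Fin 3), i + 1) (insert ((0 : Fin 3), i + 2) A) := by
    rw [Finset.mem_insert, Finset.mem_insert, hm]; unfold mem90; simp
  have e3 := ext90 (A := insert ((2 : Fin 3), i + 1) (insert ((0 : Fin 3), i + 2) A))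
    (N := {((0 : Fin 3), i), ((2 : Fin 3), i + 1), ((2 : Fin 3), i - 1)})
    (z := ((1 : Fin 3), i)) hz3
    (by
      intro y hy
      rw [Finset.mem_insert, Finset.mem_insert, Finset.mem_singleton] at hy
      rw [Finset.mem_insert, Finset.mem_insert, hm]; unfold mem90
      rcases hy with rfl | rfl | rfl
      · simp
      · simp
      · right; right; right; left
        exact ⟨rfl, by simp only; omega, by simp only; omega⟩)
    (by
      intro y hy
      rw [Finset.mem_insert, Finset.mem_insert, Finset.mem_singleton] at hy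
      unfold adjS
      rcases hy with rfl | rfl | rfl
      · simp
      · simp
      · right; right
        exact ⟨by simp, by simp only; omega⟩)
  have c3 : ({((0 : Fin 3), i), ((2 : Fin 3), i + 1), ((2 : Fin 3), i - 1)} :
      Finset (Fin 3 × ℕ)).card = 3 := by
    rw [Finset.card_insert_of_notMem, Finset.card_pair]
    · simp; omega
    · simp
  rw [c3] at e3
  have d3 : (insert ((1 : Fin 3), i) (insert ((2 : Fin 3), i + 1)
      (insert ((0 : Fin 3), i + 2) A))).card = 3 * (i + 1) := by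
    rw [Finset.card_insert_of_notMem hz3, d2]; ring
  refine ⟨⟨_, d1, by omega⟩, ⟨_, d2, by omega⟩, ⟨_, d3, by omega, ?_⟩⟩
  intro x
  rw [Finset.mem_insert, Finset.mem_insert, Finset.mem_insert, hm]
  obtain ⟨a, b⟩ := x
  unfold mem90
  simp only [Prod.mk.injEq]
  fin_cases a <;> simp <;> omega

/-- all blocks -/
theorem chain90 (i : ℕ) (hi : 4 ≤ i) : ∃ A : Finset (Fin 3 × ℕ), A.card = 3 * i ∧
    2 * (7 * i - 5) ≤ cnt90 A ∧ ∀ x, x ∈ A ↔ mem90 i x := by
  induction i, hi using Nat.le_induction with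
  | base =>
    refine ⟨{(0, 0), (0, 1), (0, 2), (0, 3), (0, 4), (0, 5), (2, 1), (2, 2), (2, 3), (2, 4),
      (1, 2), (1, 3)}, by decide, by unfold cnt90; decide +kernel, ?_⟩
    intro x
    obtain ⟨a, b⟩ := x
    unfold mem90
    simp only [Finset.mem_insert, Finset.mem_singleton, Prod.mk.injEq]
    fin_cases a <;> simp <;> omega
  | succ i hi ih =>
    obtain ⟨A, h1, h2, h3⟩ := ih
    exact (block90 hi h1 h2 h3).2.2

/-- the chain: `n` indices with many adjacent pairs -/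
theorem chainS (n : ℕ) (hn : 2 ≤ n) : ∃ A : Finset (Fin 3 × ℕ), A.card = n ∧
    2 * (if n ≤ 7 then 2 * n - 3 else if n = 8 then 14 else (7 * n - 15) / 3) ≤
      ((A ×ˢ A).filter (fun x => adjS x.1 x.2)).card := by
  by_cases h : n < 12
  · interval_cases n
    · exact ⟨{(0, 2), (0, 4)}, by decide, by decide +kernel⟩
    · exact ⟨{(0, 2), (0, 4), (0, 3)}, by decide, by decide +kernel⟩
    · exact ⟨{(0, 2), (0, 4), (0, 3), (0, 1)}, by decide, by decide +kernel⟩
    · exact ⟨{(0, 2), (0, 4), (0, 3), (0, 1), (0, 0)}, by decide, by decide +kernel⟩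
    · exact ⟨{(0, 2), (0, 4), (0, 3), (0, 1), (0, 0), (2, 1)}, by decide, by decide +kernel⟩
    · exact ⟨{(0, 2), (0, 4), (0, 3), (0, 1), (0, 0), (2, 1), (1, 2)}, by decide,
        by decide +kernel⟩
    · exact ⟨{(0, 2), (0, 4), (0, 3), (0, 1), (0, 0), (2, 1), (1, 2), (2, 3)}, by decide,
        by decide +kernel⟩
    · exact ⟨{(0, 2), (0, 4), (0, 3), (0, 1), (0, 0), (2, 1), (1, 2), (2, 3), (0, 5)},
        by decide, by decide +kernel⟩
    · exact ⟨{(0, 2), (0, 4), (0, 3), (0, 1), (0, 0), (2, 1), (1, 2), (2, 3), (0, 5), (2, 4)},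
        by decide, by decide +kernel⟩
    · exact ⟨{(0, 2), (0, 4), (0, 3), (0, 1), (0, 0), (2, 1), (1, 2), (2, 3), (0, 5), (2, 4),
        (1, 3)}, by decide, by decide +kernel⟩
  · have h8 : ¬ n ≤ 7 := by omega
    have h9 : ¬ n = 8 := by omega
    rw [if_neg h8, if_neg h9]
    obtain ⟨A, h1, h2, h3⟩ := chain90 (n / 3) (by omega)
    have hb := block90 (i := n / 3) (by omega) h1 h2 h3
    have hr : n % 3 = 0 ∨ n % 3 = 1 ∨ n % 3 = 2 := by omega
    rcases hr with hr | hr | hr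
    · refine ⟨A, by omega, ?_⟩
      unfold cnt90 at h2
      omega
    · obtain ⟨B, hB1, hB2⟩ := hb.1
      refine ⟨B, by omega, ?_⟩
      unfold cnt90 at hB2
      omega
    · obtain ⟨B, hB1, hB2⟩ := hb.2.1
      refine ⟨B, by omega, ?_⟩
      unfold cnt90 at hB2
      omega

end Pool.Agent.PEN
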