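import Pool.Agent.PEN.F40
import Pool.Agent.PEN.F90

/-! # Cell F: the strip, the star and the small cases -/

set_option autoImplicit false

namespace Pool.Agent.PEN

open Classical UpperHalfPlane

noncomputable section

theorem adjS_dist40 {d : ℝ} (hd : 0 < d) (ha : alpha d = 2 * Real.pi / 7) {x y : Fin 3 × ℕ}
    (h : adjS x y) : dist (V40 x) (V40 y) = d := by
  obtain ⟨t, p⟩ := x
  obtain ⟨u, q⟩ := y
  unfold adjS at h
  simp only at h
  rcases h with ⟨rfl, rfl, h | h | h | h⟩ | ⟨⟨rfl, rfl⟩ | ⟨rfl, rfl⟩, h⟩ |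
    ⟨⟨ht, rfl⟩ | ⟨rfl, ht⟩, h | h⟩
  · subst h; exact con_cc1 hd ha p
  · subst h; rw [dist_comm]; exact con_cc1 hd ha q
  · subst h; exact con_cc2 hd ha p
  · subst h; rw [dist_comm]; exact con_cc2 hd ha q
  · subst h; exact con_cm hd ha p
  · subst h; rw [dist_comm]; exact con_cm hd ha p
  · subst h
    fin_cases t
    · exact con_cs hd ha p
    · exact con_ms hd ha p
    · exact absurd rfl ht
  · subst h
    fin_cases t
    · rw [dist_comm]; exact con_sc hd ha q
    · rw [dist_comm]; exact con_sm hd ha q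
    · exact absurd rfl ht
  · subst h
    fin_cases u
    · exact con_sc hd ha p
    · exact con_sm hd ha p
    · exact absurd rfl ht
  · subst h
    fin_cases u
    · rw [dist_comm]; exact con_cs hd ha q
    · rw [dist_comm]; exact con_ms hd ha q
    · exact absurd rfl ht

/-- the strip: `n` points of the order 7 tiling with many contacts -/
theorem strip_all {d : ℝ} (hd : 0 < d) (ha : alpha d = 2 * Real.pi / 7) (n : ℕ) (hn : 2 ≤ n) :
    ∃ P : Finset ℍ, P.card = n ∧ Sep d P ∧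
      2 * (if n ≤ 7 then 2 * n - 3 else if n = 8 then 14 else (7 * n - 15) / 3) ≤ cd d P := by
  obtain ⟨A, hA, hE⟩ := chainS n hn
  have hinj := V_inj40 hd ha
  refine ⟨A.image V40, ?_, ?_, ?_⟩
  · rw [Finset.card_image_of_injective _ hinj, hA]
  · intro x hx y hy hxy
    obtain ⟨a, -, rfl⟩ := Finset.mem_image.1 hx
    obtain ⟨b, -, rfl⟩ := Finset.mem_image.1 hy
    exact V_sep40 hd ha a b (fun h => hxy (by rw [h]))
  · refine hE.trans ?_
    unfold cd
    have hinj2 : Function.Injective (fun x : (Fin 3 × ℕ) × (Fin 3 × ℕ) => (V40 x.1, V40 x.2)) := by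
      intro x y h
      have h1 := congrArg Prod.fst h
      have h2 := congrArg Prod.snd h
      exact Prod.ext (hinj h1) (hinj h2)
    rw [← Finset.card_image_of_injective _ hinj2]
    apply Finset.card_le_card
    intro x hx
    obtain ⟨y, hy, rfl⟩ := Finset.mem_image.1 hx
    rw [Finset.mem_filter, Finset.mem_product] at hy
    rw [Finset.mem_filter, Finset.mem_product]
    exact ⟨⟨Finset.mem_image_of_mem _ hy.1.1, Finset.mem_image_of_mem _ hy.1.2⟩,
      adjS_dist40 hd ha hy.2⟩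

/-- F: the strip, `2 E >= 2 floor((7 n - 15) / 3)`, every `n >= 6` -/
theorem strip {d : ℝ} (hd : 0 < d) (ha : alpha d = 2 * Real.pi / 7) (n : ℕ) (hn : 6 ≤ n) :
    ∃ P : Finset ℍ, P.card = n ∧ Sep d P ∧ 2 * ((7 * n - 15) / 3) ≤ cd d P := by
  obtain ⟨P, h1, h2, h3⟩ := strip_all hd ha n (by omega)
  refine ⟨P, h1, h2, le_trans ?_ h3⟩
  split_ifs <;> omega

/-- F': the small cases -/
theorem strip_small {d : ℝ} (hd : 0 < d) (ha : alpha d = 2 * Real.pi / 7) (n : ℕ) (hn : 2 ≤ n)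
    (hn7 : n ≤ 7) : ∃ P : Finset ℍ, P.card = n ∧ Sep d P ∧ 2 * (2 * n - 3) ≤ cd d P := by
  obtain ⟨P, h1, h2, h3⟩ := strip_all hd ha n hn
  rw [if_pos hn7] at h3
  exact ⟨P, h1, h2, h3⟩

/-- F'': the star, `n = 8`, `E = 14` -/
theorem star7 {d : ℝ} (hd : 0 < d) (ha : alpha d = 2 * Real.pi / 7) :
    ∃ P : Finset ℍ, P.card = 8 ∧ Sep d P ∧ 28 ≤ cd d P := by
  obtain ⟨P, h1, h2, h3⟩ := strip_all hd ha 8 (by norm_num)
  exact ⟨P, h1, h2, by simpa using h3⟩

end

end Pool.Agent.PEN
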