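import Pool.Agent.PEN.B49
import Pool.Agent.PEN.B39

/-! # Hyperbolic penny graphs: the star of the order `m` tiling -/

set_option autoImplicit false
set_option linter.all false

namespace Pool.Agent.PEN

open Classical UpperHalfPlane

noncomputable section

theorem im_pt49 (w : ℂ) : (Complex.I * (1 + w) / (1 - w)).im =
    (1 - Complex.normSq w) / Complex.normSq (1 - w) := by
  rw [Complex.div_im, Complex.normSq_apply w]
  simp only [Complex.mul_im, Complex.mul_re, Complex.I_re, Complex.I_im, Complex.add_re,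
    Complex.add_im, Complex.sub_re, Complex.sub_im, Complex.one_re, Complex.one_im]
  ring

theorem one_sub_ne49 {w : ℂ} (hw : Complex.normSq w < 1) : (1 : ℂ) - w ≠ 0 := by
  intro h
  have : w = 1 := (sub_eq_zero.1 h).symm
  rw [this] at hw
  simp at hw

/-- the point with disc coordinate `w` (centre `I`) -/
def pt49 (w : ℂ) (hw : Complex.normSq w < 1) : ℍ :=
  ⟨Complex.I * (1 + w) / (1 - w), by
    rw [im_pt49]
    have h1 := Complex.normSq_pos.2 (one_sub_ne49 hw)
    have : 0 < 1 - Complex.normSq w := by linarith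
    positivity⟩

theorem Dv_pt49 (w : ℂ) (hw : Complex.normSq w < 1) :
    Pool.Agent.Penny.disc UpperHalfPlane.I (pt49 w hw) = w := by
  have h1 := one_sub_ne49 hw
  unfold Pool.Agent.Penny.disc
  have h2 : ((pt49 w hw : ℍ) : ℂ) = Complex.I * (1 + w) / (1 - w) := rfl
  rw [h2, UpperHalfPlane.coe_I, Complex.conj_I]
  have h3 : Complex.I * (1 + w) / (1 - w) - Complex.I = 2 * Complex.I * w / (1 - w) := by
    field_simp
    ring
  have h4 : Complex.I * (1 + w) / (1 - w) - -Complex.I = 2 * Complex.I / (1 - w) := by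
    field_simp
    ring
  rw [h3, h4]
  have h5 : (2 : ℂ) * Complex.I ≠ 0 := mul_ne_zero two_ne_zero Complex.I_ne_zero
  field_simp

theorem cosh_pt49 (w : ℂ) (hw : Complex.normSq w < 1) :
    Real.cosh (dist UpperHalfPlane.I (pt49 w hw)) =
      (1 + Complex.normSq w) / (1 - Complex.normSq w) := by
  rw [Pool.Agent.Penny.cosh_disc, Dv_pt49]

theorem cosh_pt_pt49 (w w' : ℂ) (hw : Complex.normSq w < 1) (hw' : Complex.normSq w' < 1) :
    Real.cosh (dist (pt49 w hw) (pt49 w' hw')) =
      1 + 2 * Complex.normSq (w - w') / ((1 - Complex.normSq w) * (1 - Complex.normSq w')) := by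
  rw [Pool.Agent.Penny.cosh_disc_two UpperHalfPlane.I, Dv_pt49, Dv_pt49]

/-- the point of the circle with squared radius `s` in direction `θ` -/
def wv49 (s θ : ℝ) : ℂ := ⟨Real.sqrt s * Real.cos θ, Real.sqrt s * Real.sin θ⟩

theorem normSq_wv49 {s : ℝ} (hs : 0 ≤ s) (θ : ℝ) : Complex.normSq (wv49 s θ) = s := by
  have h1 := Real.mul_self_sqrt hs
  have h2 := Real.sin_sq_add_cos_sq θ
  rw [Complex.normSq_apply]
  show Real.sqrt s * Real.cos θ * (Real.sqrt s * Real.cos θ) +
    Real.sqrt s * Real.sin θ * (Real.sqrt s * Real.sin θ) = s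
  have h3 : Real.sqrt s * Real.cos θ * (Real.sqrt s * Real.cos θ) +
    Real.sqrt s * Real.sin θ * (Real.sqrt s * Real.sin θ) =
      (Real.sqrt s * Real.sqrt s) * (Real.sin θ ^ 2 + Real.cos θ ^ 2) := by ring
  rw [h3, h1, h2, mul_one]

theorem normSq_wv_sub49 {s : ℝ} (hs : 0 ≤ s) (θ φ : ℝ) :
    Complex.normSq (wv49 s θ - wv49 s φ) = 2 * s * (1 - Real.cos (θ - φ)) := by
  have h1 := Real.mul_self_sqrt hs
  have h2 := Real.sin_sq_add_cos_sq θ
  have h4 := Real.sin_sq_add_cos_sq φ
  rw [Complex.normSq_apply, Real.cos_sub]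
  show (Real.sqrt s * Real.cos θ - Real.sqrt s * Real.cos φ) *
      (Real.sqrt s * Real.cos θ - Real.sqrt s * Real.cos φ) +
    (Real.sqrt s * Real.sin θ - Real.sqrt s * Real.sin φ) *
      (Real.sqrt s * Real.sin θ - Real.sqrt s * Real.sin φ) = _
  have h3 : (Real.sqrt s * Real.cos θ - Real.sqrt s * Real.cos φ) *
      (Real.sqrt s * Real.cos θ - Real.sqrt s * Real.cos φ) +
    (Real.sqrt s * Real.sin θ - Real.sqrt s * Real.sin φ) *
      (Real.sqrt s * Real.sin θ - Real.sqrt s * Real.sin φ) =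
      (Real.sqrt s * Real.sqrt s) * ((Real.sin θ ^ 2 + Real.cos θ ^ 2) +
        (Real.sin φ ^ 2 + Real.cos φ ^ 2) -
        2 * (Real.cos θ * Real.cos φ + Real.sin θ * Real.sin φ)) := by ring
  rw [h3, h1, h2, h4]
  ring

theorem rad49 {c : ℝ} (hc : 1 < c) : 0 ≤ (c - 1) / (c + 1) ∧ (c - 1) / (c + 1) < 1 := by
  constructor
  · apply div_nonneg <;> linarith
  · rw [div_lt_one (by linarith)]; linarith

/-- the outer points -/
def sp49 (c : ℝ) (hc : 1 < c) (θ : ℝ) : ℍ :=
  pt49 (wv49 ((c - 1) / (c + 1)) θ) (by rw [normSq_wv49 (rad49 hc).1]; exact (rad49 hc).2)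

theorem cosh_I_sp49 (c : ℝ) (hc : 1 < c) (θ : ℝ) :
    Real.cosh (dist UpperHalfPlane.I (sp49 c hc θ)) = c := by
  unfold sp49
  rw [cosh_pt49, normSq_wv49 (rad49 hc).1]
  have : c + 1 ≠ 0 := by linarith
  field_simp
  ring

theorem cosh_sp_sp49 (c : ℝ) (hc : 1 < c) (θ φ : ℝ) :
    Real.cosh (dist (sp49 c hc θ) (sp49 c hc φ)) = 1 + (c ^ 2 - 1) * (1 - Real.cos (θ - φ)) := by
  unfold sp49
  rw [cosh_pt_pt49, normSq_wv49 (rad49 hc).1, normSq_wv49 (rad49 hc).1,
    normSq_wv_sub49 (rad49 hc).1]
  have h1 : c + 1 ≠ 0 := by linarith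
  have h2 : 1 - (c - 1) / (c + 1) = 2 / (c + 1) := by
    field_simp
    ring
  rw [h2]
  field_simp
  ring

theorem dist_eq_of_cosh49 {d : ℝ} (hd : 0 < d) {x y : ℍ}
    (h : Real.cosh (dist x y) = Real.cosh d) : dist x y = d :=
  Real.cosh_strictMonoOn.injOn (Set.mem_Ici.2 dist_nonneg) (Set.mem_Ici.2 hd.le) h

theorem le_dist_of_cosh49 {d : ℝ} (hd : 0 < d) {x y : ℍ}
    (h : Real.cosh d ≤ Real.cosh (dist x y)) : d ≤ dist x y := by
  rw [Real.cosh_le_cosh, abs_of_pos hd, abs_of_nonneg dist_nonneg] at h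
  exact h

theorem cos_gap49 {m : ℕ} (hm : 7 ≤ m) {j k : ℕ} (hj : j < m) (hk : k < m) (hjk : j ≠ k) :
    Real.cos (2 * Real.pi * j / m - 2 * Real.pi * k / m) ≤ Real.cos (2 * Real.pi / m) := by
  have hpi := Real.pi_pos
  have hm0 : (0 : ℝ) < m := by
    have : (7 : ℝ) ≤ m := by exact_mod_cast hm
    linarith
  -- the case `k < j`
  have key : ∀ j k : ℕ, j < m → k < j →
      Real.cos (2 * Real.pi * j / m - 2 * Real.pi * k / m) ≤ Real.cos (2 * Real.pi / m) := by
    intro j k hj hkj
    obtain ⟨i, rfl⟩ : ∃ i, j = k + 1 + i := ⟨j - k - 1, by omega⟩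
    have e1 : 2 * Real.pi * ((k + 1 + i : ℕ) : ℝ) / m - 2 * Real.pi * k / m =
        2 * Real.pi * (1 + i) / m := by
      push_cast
      field_simp
      ring
    rw [e1]
    have hi : (i : ℝ) + 1 + 1 ≤ m := by
      have : i + 1 + 1 ≤ m := by omega
      exact_mod_cast this
    have hi0 : (0 : ℝ) ≤ i := Nat.cast_nonneg i
    rcases le_total (2 * Real.pi * (1 + i) / m) Real.pi with h | h
    · apply Real.cos_le_cos_of_nonneg_of_le_pi (by positivity) h
      apply div_le_div_of_nonneg_right _ hm0.le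
      nlinarith
    · have e2 : Real.cos (2 * Real.pi * (1 + i) / m) =
          Real.cos (2 * Real.pi - 2 * Real.pi * (1 + i) / m) := by
        rw [Real.cos_two_pi_sub]
      rw [e2]
      apply Real.cos_le_cos_of_nonneg_of_le_pi (by positivity) (by linarith)
      rw [div_le_iff₀ hm0, sub_mul, div_mul_cancel₀ _ hm0.ne']
      nlinarith
  rcases Nat.lt_or_gt_of_ne hjk with h | h
  · rw [← Real.cos_neg, neg_sub]
    exact key k j hk h
  · exact key j k hj h

/-- the star of the order `m` tiling: `m + 1` points, `2 m` contacts -/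
theorem star_gen {m : ℕ} (hm : 7 ≤ m) {d : ℝ} (hd : 0 < d) (ha : alpha d = 2 * Real.pi / m) :
    ∃ P : Finset ℍ, P.card = m + 1 ∧ Sep d P ∧ 4 * m ≤ cd d P := by
  have hc : 1 < Real.cosh d := Real.one_lt_cosh.2 hd.ne'
  have hcos : Real.cos (2 * Real.pi / m) = Real.cosh d / (Real.cosh d + 1) := by
    rw [← ha]; exact cos_alpha hd
  haveI : NeZero m := ⟨by omega⟩
  have hm0 : (0 : ℝ) < m := by
    have : (7 : ℝ) ≤ m := by exact_mod_cast hm
    linarith
  set c := Real.cosh d with hcdef
  set p : ℕ → ℍ := fun j => sp49 c hc (2 * Real.pi * j / m) with hp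
  have hI : ∀ j, dist UpperHalfPlane.I (p j) = d := fun j =>
    dist_eq_of_cosh49 hd (cosh_I_sp49 c hc _)
  have hpp : ∀ j k, Real.cosh (dist (p j) (p k)) =
      1 + (c ^ 2 - 1) * (1 - Real.cos (2 * Real.pi * j / m - 2 * Real.pi * k / m)) :=
    fun j k => cosh_sp_sp49 c hc _ _
  have hedge : 1 + (c ^ 2 - 1) * (1 - Real.cos (2 * Real.pi / m)) = c := by
    rw [hcos]
    have : c + 1 ≠ 0 := by linarith
    field_simp
    ring
  have hsep : ∀ j k, j < m → k < m → j ≠ k → d ≤ dist (p j) (p k) := by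
    intro j k hj hk hjk
    apply le_dist_of_cosh49 hd
    rw [hpp, ← hcdef]
    have h1 := cos_gap49 hm hj hk hjk
    have h2 : 0 < c ^ 2 - 1 := by nlinarith
    nlinarith [hedge]
  have hnext : ∀ j, dist (p (j + 1)) (p j) = d := by
    intro j
    apply dist_eq_of_cosh49 hd
    rw [hpp, ← hcdef]
    have e1 : 2 * Real.pi * ((j + 1 : ℕ) : ℝ) / m - 2 * Real.pi * j / m = 2 * Real.pi / m := by
      push_cast
      field_simp
      ring
    rw [e1, hedge]
  have hlast : dist (p (m - 1)) (p 0) = d := by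
    apply dist_eq_of_cosh49 hd
    rw [hpp, ← hcdef]
    have e1 : 2 * Real.pi * ((m - 1 : ℕ) : ℝ) / m - 2 * Real.pi * ((0 : ℕ) : ℝ) / m =
        2 * Real.pi - 2 * Real.pi / m := by
      rw [Nat.cast_sub (by omega)]
      push_cast
      field_simp
      ring
    rw [e1, Real.cos_two_pi_sub, hedge]
  have hne : ∀ j k, j < m → k < m → j ≠ k → p j ≠ p k := by
    intro j k hj hk hjk h
    have := hsep j k hj hk hjk
    rw [h, dist_self] at this
    linarith
  have hneI : ∀ j, p j ≠ UpperHalfPlane.I := by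
    intro j h
    have := hI j
    rw [h, dist_self] at this
    linarith
  set P : Finset ℍ := insert UpperHalfPlane.I ((Finset.range m).image p) with hP
  have hmemI : UpperHalfPlane.I ∈ P := Finset.mem_insert_self _ _
  have hmem : ∀ j, j < m → p j ∈ P := fun j hj =>
    Finset.mem_insert_of_mem (Finset.mem_image_of_mem _ (Finset.mem_range.2 hj))
  have hinj : Set.InjOn p (Finset.range m : Finset ℕ) := by
    intro j hj k hk h
    by_contra hcon
    exact hne j k (Finset.mem_range.1 hj) (Finset.mem_range.1 hk) hcon h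
  refine ⟨P, ?_, ?_, ?_⟩
  · rw [hP, Finset.card_insert_of_notMem, Finset.card_image_of_injOn hinj, Finset.card_range]
    intro h
    obtain ⟨j, _, hj⟩ := Finset.mem_image.1 h
    exact hneI j hj
  · intro x hx y hy hxy
    rcases Finset.mem_insert.1 hx with rfl | hx'
    · rcases Finset.mem_insert.1 hy with rfl | hy'
      · exact absurd rfl hxy
      · obtain ⟨j, _, rfl⟩ := Finset.mem_image.1 hy'
        exact (hI j).ge
    · obtain ⟨j, hj, rfl⟩ := Finset.mem_image.1 hx'
      rcases Finset.mem_insert.1 hy with rfl | hy'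
      · rw [dist_comm]; exact (hI j).ge
      · obtain ⟨k, hk, rfl⟩ := Finset.mem_image.1 hy'
        exact hsep j k (Finset.mem_range.1 hj) (Finset.mem_range.1 hk) (fun h => hxy (by rw [h]))
  · -- the successor
    set s : ℕ → ℕ := fun j => if j + 1 = m then 0 else j + 1 with hs
    have hs1 : ∀ j, j < m → s j < m := by
      intro j hj
      simp only [hs]
      split_ifs <;> omega
    have hs2 : ∀ j, j < m → dist (p (s j)) (p j) = d := by
      intro j hj
      simp only [hs]
      split_ifs with h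
      · have : j = m - 1 := by omega
        rw [this, dist_comm]
        exact hlast
      · exact hnext j
    have hs3 : ∀ j k, j < m → k < m → s j = s k → j = k := by
      intro j k hj hk h
      simp only [hs] at h
      split_ifs at h <;> omega
    have hs4 : ∀ j, j < m → s (s j) ≠ j := by
      intro j hj h
      simp only [hs] at h
      split_ifs at h <;> omega
    set f : ℕ × ℕ → ℍ × ℍ := fun x =>
      if x.2 = 0 then (UpperHalfPlane.I, p x.1) else if x.2 = 1 then (p x.1, UpperHalfPlane.I)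
      else if x.2 = 2 then (p x.1, p (s x.1)) else (p (s x.1), p x.1) with hf
    have hcard : ((Finset.range m) ×ˢ (Finset.range 4)).card = 4 * m := by
      rw [Finset.card_product, Finset.card_range, Finset.card_range]; ring
    rw [← hcard]
    unfold cd
    refine Finset.card_le_card_of_injOn f ?_ ?_
    · rintro ⟨j, i⟩ hx
      rw [Finset.mem_coe, Finset.mem_product, Finset.mem_range, Finset.mem_range] at hx
      obtain ⟨hj, hi⟩ := hx
      simp only at hj hi
      rw [Finset.mem_coe, Finset.mem_filter, Finset.mem_product]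
      interval_cases i
      · exact ⟨⟨hmemI, hmem j hj⟩, hI j⟩
      · exact ⟨⟨hmem j hj, hmemI⟩, by
          show dist (p j) UpperHalfPlane.I = d
          rw [dist_comm]; exact hI j⟩
      · exact ⟨⟨hmem j hj, hmem _ (hs1 j hj)⟩, by
          show dist (p j) (p (s j)) = d
          rw [dist_comm]; exact hs2 j hj⟩
      · exact ⟨⟨hmem _ (hs1 j hj), hmem j hj⟩, hs2 j hj⟩
    · rintro ⟨j, i⟩ hx ⟨k, l⟩ hy hxy
      rw [Finset.mem_coe, Finset.mem_product, Finset.mem_range, Finset.mem_range] at hx hy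
      obtain ⟨hj, hi⟩ := hx
      obtain ⟨hk, hl⟩ := hy
      simp only at hj hi hk hl
      have inj : ∀ a b, a < m → b < m → p a = p b → a = b := by
        intro a b ha' hb' h
        by_contra hcon
        exact hne a b ha' hb' hcon h
      have hj' := hs1 j hj
      have hk' := hs1 k hk
      interval_cases i <;> interval_cases l <;> simp only [hf] at hxy <;>
        norm_num [Prod.ext_iff] at hxy
      all_goals first
        | exact absurd hxy.1.symm (hneI _)
        | exact absurd hxy.1 (hneI _)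
        | exact absurd hxy.2.symm (hneI _)
        | exact absurd hxy.2 (hneI _)
        | (have := inj _ _ hj hk hxy; rw [this])
        | (have := inj _ _ hj hk hxy.1; rw [this])
        | (have := inj _ _ hj hk hxy.2; rw [this])
        | (exfalso
           have h1 := inj _ _ hj hk' hxy.1
           have h2 := inj _ _ hj' hk hxy.2
           exact hs4 k hk (by rw [← h1]; exact h2))
        | (exfalso
           have h1 := inj _ _ hj' hk hxy.1
           have h2 := inj _ _ hj hk' hxy.2
           exact hs4 k hk (by rw [← h2]; exact h1))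

end

end Pool.Agent.PEN
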