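import Pool.Agent.PEN.Defs

set_option autoImplicit false
set_option linter.all false

/-! # Separated sets of every size, and the edge lengths of the triangular tilings -/

namespace Pool.Agent.PEN

open Classical UpperHalfPlane

noncomputable section

/-- points on a vertical line -/
def vp9 (d : ℝ) (j : ℕ) : ℍ := ⟨⟨0, Real.exp (j * d)⟩, Real.exp_pos _⟩

theorem vp9_dist (d : ℝ) (i j : ℕ) : dist (vp9 d i) (vp9 d j) = |((i : ℝ) - j) * d| := by
  have h : dist (vp9 d i) (vp9 d j) = dist (Real.log (Real.exp (i * d)))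
      (Real.log (Real.exp (j * d))) := UpperHalfPlane.dist_of_re_eq rfl
  rw [h]
  rw [Real.log_exp, Real.log_exp, Real.dist_eq]
  congr 1
  ring

theorem exists_sep {d : ℝ} (hd : 0 < d) (n : ℕ) : ∃ P : Finset ℍ, P.card = n ∧ Sep d P := by
  have hle : ∀ i j : ℕ, i ≠ j → d ≤ dist (vp9 d i) (vp9 d j) := by
    intro i j hij
    rw [vp9_dist, abs_mul, abs_of_pos hd]
    have h1 : (1 : ℝ) ≤ |(i : ℝ) - j| := by
      have h2 : (1 : ℤ) ≤ |(i : ℤ) - j| := by
        have : (i : ℤ) - j ≠ 0 := by
          intro h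
          apply hij
          omega
        exact Int.one_le_abs this
      have h3 : ((1 : ℤ) : ℝ) ≤ ((|(i : ℤ) - j| : ℤ) : ℝ) := by exact_mod_cast h2
      push_cast at h3
      exact h3
    nlinarith
  have hinj : Function.Injective (vp9 d) := by
    intro i j h
    by_contra hij
    have := hle i j hij
    rw [h, dist_self] at this
    linarith
  refine ⟨(Finset.range n).image (vp9 d), ?_, ?_⟩
  · rw [Finset.card_image_of_injective _ hinj, Finset.card_range]
  · intro x hx y hy hxy
    obtain ⟨i, -, rfl⟩ := Finset.mem_image.1 hx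
    obtain ⟨j, -, rfl⟩ := Finset.mem_image.1 hy
    exact hle i j fun h => hxy (by rw [h])

theorem tanh_half9 {d : ℝ} (hd : 0 < d) :
    Real.tanh (d / 2) / Real.tanh d = Real.cosh d / (Real.cosh d + 1) := by
  have h1 : Real.cosh d = 2 * Real.cosh (d / 2) ^ 2 - 1 := by
    have := Real.cosh_two_mul (d / 2)
    rw [show 2 * (d / 2) = d by ring] at this
    have h2 := Real.cosh_sq (d / 2)
    linarith
  have h2 : Real.sinh d = 2 * Real.sinh (d / 2) * Real.cosh (d / 2) := by
    have := Real.sinh_two_mul (d / 2)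
    rwa [show 2 * (d / 2) = d by ring] at this
  have c1 := Real.cosh_pos (d / 2)
  have c2 := Real.cosh_pos d
  have s1 : 0 < Real.sinh (d / 2) := Real.sinh_pos_iff.2 (by linarith)
  have s2 : 0 < Real.sinh d := Real.sinh_pos_iff.2 hd
  rw [Real.tanh_eq_sinh_div_cosh, Real.tanh_eq_sinh_div_cosh, div_div_eq_mul_div, div_mul_eq_mul_div,
    div_div, div_eq_div_iff (mul_pos c1 s2).ne' (by linarith), h2]
  have h3 : Real.cosh d + 1 = 2 * Real.cosh (d / 2) ^ 2 := by linarith
  rw [h3]
  ring

/-- the tiling of order `m` has an edge length -/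
theorem exists_dm {m : ℕ} (hm : 7 ≤ m) : ∃ d : ℝ, 0 < d ∧ alpha d = 2 * Real.pi / m := by
  set a : ℝ := 2 * Real.pi / m with ha
  have hm' : (7 : ℝ) ≤ m := by exact_mod_cast hm
  have hpi := Real.pi_pos
  have ha0 : 0 < a := by positivity
  have ha1 : a < Real.pi / 3 := by
    rw [ha, div_lt_div_iff₀ (by linarith) (by norm_num)]
    nlinarith
  have hc1 : Real.cos a < 1 := by
    rw [← Real.cos_zero]
    exact Real.cos_lt_cos_of_nonneg_of_le_pi_div_two le_rfl (by linarith) ha0
  have hc2 : 1 / 2 < Real.cos a := by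
    rw [← Real.cos_pi_div_three]
    exact Real.cos_lt_cos_of_nonneg_of_le_pi_div_two ha0.le (by linarith) ha1
  set C : ℝ := Real.cos a / (1 - Real.cos a) with hC
  have hC1 : 1 < C := by
    rw [hC, lt_div_iff₀ (by linarith)]
    linarith
  refine ⟨Real.arcosh C, Real.arcosh_pos hC1, ?_⟩
  have hd : 0 < Real.arcosh C := Real.arcosh_pos hC1
  unfold alpha
  rw [tanh_half9 hd, Real.cosh_arcosh hC1.le]
  have e : C / (C + 1) = Real.cos a := by
    rw [hC]
    have : (1 - Real.cos a) ≠ 0 := by linarith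
    field_simp
    ring
  rw [e, Real.arccos_cos ha0.le (by linarith)]

end

end Pool.Agent.PEN
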