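import Pool.Agent.PEN.E71c
import Pool.Agent.PEN.FS40
import Pool.Agent.PEN.X9
import Pool.Agent.PEN.S49

/-! # Hyperbolic penny graphs: the function `e_d(n)` -/

set_option autoImplicit false

namespace Pool.Agent.PEN

open Classical UpperHalfPlane

noncomputable section

theorem ne_of_dist71 {d : ℝ} (hd : 0 < d) {x y : ℍ} (h : dist x y = d) : x ≠ y := by
  rintro rfl
  rw [dist_self] at h
  exact absurd h (ne_of_lt hd)

/-- the minimum-distance graph of `P` for the distance `d`: two points are joined when their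
distance is exactly `d` -/
def mdGraph (d : ℝ) (P : Finset ℍ) : SimpleGraph P where
  Adj x y := x ≠ y ∧ dist (x : ℍ) (y : ℍ) = d
  symm := ⟨fun x y h => ⟨h.1.symm, by rw [dist_comm]; exact h.2⟩⟩
  loopless := ⟨fun x h => h.1 rfl⟩

/-- the number of edges of the minimum-distance graph -/
def numEdges (d : ℝ) (P : Finset ℍ) : ℕ := Nat.card (mdGraph d P).edgeSet

/-- `e_d(n)`: the largest number of edges of a minimum-distance graph with minimum distance `d`
on `n` vertices in the hyperbolic plane -/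
def eD (d : ℝ) (n : ℕ) : ℕ :=
  sSup {m : ℕ | ∃ P : Finset ℍ, P.card = n ∧ (∀ x ∈ P, ∀ y ∈ P, x ≠ y → d ≤ dist x y) ∧
    numEdges d P = m}

theorem two_numEdges {d : ℝ} (hd : 0 < d) (P : Finset ℍ) : 2 * numEdges d P = cd d P := by
  unfold numEdges cd
  rw [Nat.card_eq_fintype_card, ← SimpleGraph.edgeFinset_card,
    SimpleGraph.two_mul_card_edgeFinset]
  apply Finset.card_bij (fun x _ => ((x.1 : ℍ), (x.2 : ℍ)))
  · rintro ⟨x, y⟩ h
    simp only [Finset.mem_filter, Finset.mem_univ, true_and] at h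
    exact Finset.mem_filter.mpr ⟨Finset.mem_product.mpr ⟨x.2, y.2⟩, h.2⟩
  · rintro ⟨x, y⟩ _ ⟨x', y'⟩ _ h
    have h := Prod.mk.inj h
    exact Prod.ext (Subtype.ext h.1) (Subtype.ext h.2)
  · rintro ⟨a, b⟩ h
    obtain ⟨h1, h2⟩ := Finset.mem_filter.mp h
    obtain ⟨ha, hb⟩ := Finset.mem_product.mp h1
    refine ⟨(⟨a, ha⟩, ⟨b, hb⟩), ?_, rfl⟩
    simp only [Finset.mem_filter, Finset.mem_univ, true_and]
    refine ⟨fun h3 => ?_, h2⟩
    have h4 := congrArg Subtype.val h3
    exact ne_of_dist71 hd h2 h4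

theorem eD_le {d : ℝ} {n b : ℕ}
    (h : ∀ P : Finset ℍ, P.card = n → Sep d P → numEdges d P ≤ b) : eD d n ≤ b := by
  unfold eD
  apply csSup_le'
  rintro m ⟨P, hc, hs, rfl⟩
  exact h P hc hs

theorem le_eD {d : ℝ} (hd : 0 < d) {n : ℕ} {P : Finset ℍ} (hc : P.card = n) (hs : Sep d P) :
    numEdges d P ≤ eD d n := by
  unfold eD
  apply le_csSup
  · refine ⟨n * n, ?_⟩
    rintro m ⟨Q, hQ, _, rfl⟩
    have h1 := two_numEdges hd Q
    have h2 : cd d Q ≤ n * n := by
      unfold cd
      refine le_trans (Finset.card_filter_le _ _) ?_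
      rw [Finset.card_product, hQ]
    omega
  · exact ⟨P, hc, hs, rfl⟩

/-- the general upper bound -/
theorem eD_bound {k : ℕ} (hk : 6 ≤ k) {d : ℝ} (hd : 0 < d) (ha : alpha d < 2 * Real.pi / k)
    {n : ℕ} (hn : 6 ≤ n) : (k - 4) * eD d n + 3 * (k - 2) ≤ (2 * k - 7) * n := by
  have hkp : (0 : ℝ) < k := by
    have : (6 : ℝ) ≤ k := by exact_mod_cast hk
    linarith
  rw [lt_div_iff₀ hkp] at ha
  obtain ⟨m, rfl⟩ := Nat.exists_eq_add_of_le hk
  have e1 : 6 + m - 4 = m + 2 := by omega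
  have e2 : 2 * (6 + m) - 7 = 2 * m + 5 := by omega
  have e3 : 6 + m - 2 = m + 4 := by omega
  rw [e1, e2, e3]
  have key : ∀ P : Finset ℍ, P.card = n → Sep d P →
      (m + 2) * numEdges d P + 3 * (m + 4) ≤ (2 * m + 5) * n := by
    intro P hc hP
    have h := main_all' hk hd ha hP (by omega)
    rw [← two_numEdges hd, e1, e2, hc] at h
    nlinarith
  have hle : eD d n ≤ ((2 * m + 5) * n - 3 * (m + 4)) / (m + 2) := by
    apply eD_le
    intro P hc hP
    rw [Nat.le_div_iff_mul_le (by omega)]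
    have := key P hc hP
    have e4 : numEdges d P * (m + 2) = (m + 2) * numEdges d P := Nat.mul_comm _ _
    omega
  rw [Nat.le_div_iff_mul_le (by omega)] at hle
  have e5 : eD d n * (m + 2) = (m + 2) * eD d n := Nat.mul_comm _ _
  have e6 : 3 * (m + 4) ≤ (2 * m + 5) * n := by nlinarith
  omega

theorem eD_small {d : ℝ} (hd : 0 < d) {n : ℕ} (hn : 2 ≤ n) (hn6 : n ≤ 6) :
    eD d n ≤ 2 * n - 3 := by
  apply eD_le
  intro P hc hP
  have h := main_small' hd hP (by omega) (by omega)
  rw [← two_numEdges hd, hc] at h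
  omega

theorem eD_tiny {d : ℝ} (hd : 0 < d) {n : ℕ} (hn : n ≤ 1) : eD d n = 0 := by
  apply Nat.le_zero.mp
  apply eD_le
  intro P hc hP
  have h0 : cd d P = 0 := by
    unfold cd
    rw [Finset.card_eq_zero, Finset.filter_eq_empty_iff]
    rintro ⟨a, b⟩ hab h
    obtain ⟨h1, h2⟩ := Finset.mem_product.mp hab
    have h3 := Finset.card_le_one.mp (by omega : P.card ≤ 1) a h1 b h2
    exact ne_of_dist71 hd h h3
  have := two_numEdges hd P
  omega

theorem eD_seven {d : ℝ} (hd : 0 < d) (ha : alpha d = 2 * Real.pi / 7) {n : ℕ} (hn : 2 ≤ n) :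
    (if n ≤ 7 then 2 * n - 3 else if n = 8 then 14 else (7 * n - 15) / 3) ≤ eD d n := by
  obtain ⟨P, hc, hs, h⟩ := strip_all hd ha n hn
  have h1 := le_eD hd hc hs
  have h2 := two_numEdges hd P
  omega

/-- Q1 for every `d ≥ d(7)`, and for every `d` if `n ≤ 9` -/
theorem q1_above {e d : ℝ} (he : 0 < e) (ha : alpha e = 2 * Real.pi / 7) (hd : 0 < d) {n : ℕ}
    (h : e ≤ d ∨ n ≤ 9) : eD d n ≤ eD e n := by
  rcases Nat.lt_or_ge n 2 with hn | hn
  · rw [eD_tiny hd (by omega), eD_tiny he (by omega)]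
  have hlow := eD_seven he ha hn
  rcases Nat.lt_or_ge n 6 with hn6 | hn6
  · have h1 := eD_small hd hn (by omega)
    rw [if_pos (by omega : n ≤ 7)] at hlow
    omega
  -- `k = 6`
  have h6 : 2 * eD d n + 12 ≤ 5 * n := by
    have h2 := eD_bound (le_refl 6) hd (by
      have := alpha_lt hd
      push_cast
      linarith) hn6
    omega
  rcases Nat.lt_or_ge n 10 with hn9 | hn9
  · interval_cases n
    · simp at hlow; omega
    · simp at hlow; omega
    · simp at hlow; omega
    · simp at hlow; omega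
  · have hde : e ≤ d := by
      rcases h with h | h
      · exact h
      · omega
    rcases hde.eq_or_lt with rfl | hlt
    · exact le_refl _
    · have h7 : alpha d < 2 * Real.pi / ((7 : ℕ) : ℝ) := by
        have := alpha_anti he hlt
        push_cast
        linarith
      have h3 := eD_bound (by norm_num : 6 ≤ 7) hd h7 hn6
      rw [if_neg (by omega), if_neg (by omega)] at hlow
      omega

end

end Pool.Agent.PEN
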