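import Pool.Agent.PEN.Defs
import Pool.Agent.PG.Tri27

/-! # Cell A: A1 exists_trg, A2 half, A3 exists_isT (helper27), from Pool.Agent.PG.Tri27 -/

set_option autoImplicit false
set_option linter.all false

namespace Pool.Agent.PEN

open Classical

theorem free_iff27 {P : Finset Pt} {a b : Pt} : Free P a b ↔ PG27.PFree P a b := Iff.rfl

theorem cross_iff27 {a b c e : Pt} : Cross a b c e ↔ PG27.Cross a b c e := Iff.rfl

/-- the simple graph of a symmetric irreflexive relation -/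
def sg27 (T : Pt → Pt → Prop) (hs : ∀ a b, T a b → T b a) (hn : ∀ a b, T a b → a ≠ b) :
    SimpleGraph Pt where
  Adj := T
  symm := ⟨fun a b h => hs a b h⟩
  loopless := ⟨fun a h => hn a a h rfl⟩

theorem tri27 {P : Finset Pt} {T : Pt → Pt → Prop} (hT : IsTrg P T) :
    PG27.Tri P (sg27 T hT.symm hT.ne) where
  mem := fun a b h => (hT.mem a b h).1
  free := fun a b h => hT.free a b h
  nocross := fun a b c d h1 h2 => hT.noncross a b c d h1 h2
  maxi := fun a ha b hb hab hf hc => hT.maximal a b ha hb hab hf hc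

/-- A1 -/
theorem exists_trg27 (P : Finset Pt) (G : Pt → Pt → Prop)
    (hm : ∀ a b, G a b → a ∈ P ∧ b ∈ P) (hne : ∀ a b, G a b → a ≠ b)
    (hs : ∀ a b, G a b → G b a) (hf : ∀ a b, G a b → Free P a b)
    (hn : ∀ a b c e, G a b → G c e → ¬ Cross a b c e) :
    ∃ T, IsTrg P T ∧ ∀ a b, G a b → T a b := by
  obtain ⟨T, h1, h2⟩ := PG27.exists_tri (P := P) (G := sg27 G hs hne)
    ⟨fun a b h => (hm a b h).1, fun a b h => hf a b h, fun a b c d h1 h2 => hn a b c d h1 h2⟩
  refine ⟨T.Adj, ⟨fun a b h => ⟨h2.mem a b h, h2.toPlane.mem' h⟩, fun a b h => h.ne,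
    fun a b h => h.symm, fun a b h => h2.free a b h, fun a b c e h3 h4 => h2.nocross a b c e h3 h4,
    fun a b ha hb hab hf hc => h2.maxi a ha b hb hab hf hc⟩, fun a b h => h1 h⟩

/-- A2: a half plane at `v` containing a point of `P` contains a `T`-neighbour of `v` -/
theorem half {P : Finset Pt} {T : Pt → Pt → Prop} (hT : IsTrg P T) {v u : Pt} (hv : v ∈ P)
    (h : ∃ p ∈ P, 0 < cr u v p) : ∃ t, T v t ∧ 0 < cr u v t :=
  PG27.half_plane (tri27 hT) hv u h

/-- A3 -/
theorem exists_isT {P : Finset Pt} {T : Pt → Pt → Prop} (hT : IsTrg P T) {a b : Pt}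
    (hab : T a b) (h : Lft P a b) : ∃ c, IsT P T a b c := by
  obtain ⟨c, hc⟩ := PG27.left_triangle (tri27 hT) (a := a) (b := b) hab h
  exact ⟨c, hc.ab, hc.bc, hc.ca, hc.pos, hc.empty⟩

end Pool.Agent.PEN
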