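import Pool.Agent.PEN.Geo9

set_option autoImplicit false
set_option linter.all false

/-!
# Maximal non-crossing families exist; darts at boundary and interior points
-/

namespace Pool.Agent.PEN

open Classical

noncomputable section

theorem Cross.swap9 {a b c e : Pt} (h : Cross a b c e) : Cross c e a b := ⟨h.2, h.1⟩

theorem Cross.left9 {a b c e : Pt} (h : Cross a b c e) : Cross b a c e := by
  refine ⟨?_, ?_⟩
  · rw [ori_swap a b c, ori_swap a b e, neg_mul_neg]; exact h.1
  · rw [mul_comm]; exact h.2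

theorem Cross.right9 {a b c e : Pt} (h : Cross a b c e) : Cross a b e c := h.swap9.left9.swap9

theorem not_cross_self9 (a b : Pt) : ¬ Cross a b a b := by
  intro h
  have := h.1
  simp at this

theorem not_cross_self9' (a b : Pt) : ¬ Cross a b b a := fun h => not_cross_self9 a b h.right9

theorem Free.symm9 {P : Finset Pt} {a b : Pt} (h : Free P a b) : Free P b a := by
  intro p hp hp'
  rw [openSegment_symm] at hp'
  exact h p hp hp'

/-- A1 -/
theorem exists_trg (P : Finset Pt) (G : Pt → Pt → Prop)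
    (hm : ∀ a b, G a b → a ∈ P ∧ b ∈ P) (hne : ∀ a b, G a b → a ≠ b)
    (hs : ∀ a b, G a b → G b a) (hf : ∀ a b, G a b → Free P a b)
    (hn : ∀ a b c e, G a b → G c e → ¬ Cross a b c e) :
    ∃ T, IsTrg P T ∧ ∀ a b, G a b → T a b := by
  set adm : Finset (Pt × Pt) → Prop := fun S =>
    (∀ a b, (a, b) ∈ S → a ≠ b) ∧ (∀ a b, (a, b) ∈ S → (b, a) ∈ S) ∧
    (∀ a b, (a, b) ∈ S → Free P a b) ∧
    (∀ a b c e, (a, b) ∈ S → (c, e) ∈ S → ¬ Cross a b c e) ∧
    (∀ a b, G a b → (a, b) ∈ S) with hadm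
  set F := (P ×ˢ P).powerset.filter adm with hF
  have hne' : F.Nonempty := by
    refine ⟨(P ×ˢ P).filter (fun x => G x.1 x.2), ?_⟩
    rw [hF, Finset.mem_filter, Finset.mem_powerset]
    have key : ∀ a b, (a, b) ∈ (P ×ˢ P).filter (fun x => G x.1 x.2) ↔ G a b := by
      intro a b
      rw [Finset.mem_filter, Finset.mem_product]
      exact ⟨fun h => h.2, fun h => ⟨hm a b h, h⟩⟩
    refine ⟨Finset.filter_subset _ _, ?_, ?_, ?_, ?_, ?_⟩
    · intro a b h; exact hne a b ((key a b).1 h)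
    · intro a b h; exact (key b a).2 (hs a b ((key a b).1 h))
    · intro a b h; exact hf a b ((key a b).1 h)
    · intro a b c e h h'; exact hn a b c e ((key a b).1 h) ((key c e).1 h')
    · intro a b h; exact (key a b).2 h
  obtain ⟨S, hS, hmax⟩ := Finset.exists_max_image F Finset.card hne'
  rw [hF, Finset.mem_filter, Finset.mem_powerset] at hS
  obtain ⟨hSP, h1, h2, h3, h4, h5⟩ := hS
  have hmem : ∀ a b, (a, b) ∈ S → a ∈ P ∧ b ∈ P := by
    intro a b h
    exact Finset.mem_product.1 (hSP h)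
  refine ⟨fun a b => (a, b) ∈ S, ⟨hmem, h1, h2, h3, h4, ?_⟩, h5⟩
  intro a b ha hb hab hfree hnc
  set S' := insert (a, b) (insert (b, a) S) with hS'
  have hsub : S ⊆ S' := fun x hx => Finset.mem_insert_of_mem (Finset.mem_insert_of_mem hx)
  have key : ∀ c e, (c, e) ∈ S' → (c = a ∧ e = b) ∨ (c = b ∧ e = a) ∨ (c, e) ∈ S := by
    intro c e h
    rcases Finset.mem_insert.1 h with h0 | h0
    · exact Or.inl ⟨congrArg Prod.fst h0, congrArg Prod.snd h0⟩
    · rcases Finset.mem_insert.1 h0 with h1 | h1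
      · exact Or.inr (Or.inl ⟨congrArg Prod.fst h1, congrArg Prod.snd h1⟩)
      · exact Or.inr (Or.inr h1)
  have hS'F : S' ∈ F := by
    rw [hF, Finset.mem_filter, Finset.mem_powerset]
    refine ⟨?_, ?_, ?_, ?_, ?_, ?_⟩
    · intro x hx
      rcases Finset.mem_insert.1 hx with h | h
      · rw [h]; exact Finset.mem_product.2 ⟨ha, hb⟩
      · rcases Finset.mem_insert.1 h with h | h
        · rw [h]; exact Finset.mem_product.2 ⟨hb, ha⟩
        · exact hSP h
    · intro c e h
      rcases key c e h with ⟨rfl, rfl⟩ | ⟨rfl, rfl⟩ | h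
      · exact hab
      · exact hab.symm
      · exact h1 c e h
    · intro c e h
      rcases key c e h with ⟨rfl, rfl⟩ | ⟨rfl, rfl⟩ | h
      · exact Finset.mem_insert_of_mem (Finset.mem_insert_self _ _)
      · exact Finset.mem_insert_self _ _
      · exact hsub (h2 c e h)
    · intro c e h
      rcases key c e h with ⟨rfl, rfl⟩ | ⟨rfl, rfl⟩ | h
      · exact hfree
      · exact hfree.symm9
      · exact h3 c e h
    · intro c e c' e' h h' hX
      rcases key c e h with ⟨e1, e2⟩ | ⟨e1, e2⟩ | h0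
      · rcases key c' e' h' with ⟨e3, e4⟩ | ⟨e3, e4⟩ | h0'
        · rw [e1, e2, e3, e4] at hX; exact not_cross_self9 _ _ hX
        · rw [e1, e2, e3, e4] at hX; exact not_cross_self9' _ _ hX
        · rw [e1, e2] at hX; exact hnc _ _ h0' hX
      · rcases key c' e' h' with ⟨e3, e4⟩ | ⟨e3, e4⟩ | h0'
        · rw [e1, e2, e3, e4] at hX; exact not_cross_self9' _ _ hX
        · rw [e1, e2, e3, e4] at hX; exact not_cross_self9 _ _ hX
        · rw [e1, e2] at hX; exact hnc _ _ h0' hX.left9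
      · rcases key c' e' h' with ⟨e3, e4⟩ | ⟨e3, e4⟩ | h0'
        · rw [e3, e4] at hX; exact hnc _ _ h0 hX.swap9
        · rw [e3, e4] at hX; exact hnc _ _ h0 hX.right9.swap9
        · exact h4 _ _ _ _ h0 h0' hX
    · intro c e h
      exact hsub (h5 c e h)
  have h6 := hmax S' hS'F
  have h7 : S = S' := Finset.eq_of_subset_of_card_le hsub h6
  show (a, b) ∈ S
  rw [h7]
  exact Finset.mem_insert_self _ _

/-- collinear with `v a`: a multiple -/
theorem collinear9 {v a b : Pt} (hva : v ≠ a) (h : ori v a b = 0) :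
    ∃ t : ℝ, b = (1 - t) • v + t • a := by
  simp only [ori] at h
  by_cases h1 : a.1 = v.1
  · have h2 : a.2 - v.2 ≠ 0 := by
      intro h2
      exact hva (Prod.ext h1.symm (by linarith))
    rw [h1, sub_self, zero_mul, zero_sub, neg_eq_zero] at h
    have h3 : b.1 - v.1 = 0 := (mul_eq_zero.1 h).resolve_left h2
    refine ⟨(b.2 - v.2) / (a.2 - v.2), ?_⟩
    ext
    · simp only [Prod.fst_add, Prod.smul_fst, smul_eq_mul]
      rw [h1]; linarith
    · simp only [Prod.snd_add, Prod.smul_snd, smul_eq_mul]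
      field_simp
      ring
  · have h2 : a.1 - v.1 ≠ 0 := sub_ne_zero.2 h1
    refine ⟨(b.1 - v.1) / (a.1 - v.1), ?_⟩
    ext
    · simp only [Prod.fst_add, Prod.smul_fst, smul_eq_mul]
      field_simp
      ring
    · simp only [Prod.snd_add, Prod.smul_snd, smul_eq_mul]
      field_simp
      linear_combination h

/-- A7 -/
theorem left_unique {P : Finset Pt} {T : Pt → Pt → Prop} (hT : IsTrg P T)
    (hnc : ∀ a ∈ P, ∀ b ∈ P, a ≠ b → ∃ p ∈ P, ori a b p ≠ 0) {v a b : Pt}
    (ha : T v a) (hb : T v b) (ha' : ¬ Lft P v a) (hb' : ¬ Lft P v b) : a = b := by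
  have hva := hT.ne v a ha
  have hvb := hT.ne v b hb
  have mva := hT.mem v a ha
  have mvb := hT.mem v b hb
  have h1 : ori v a b ≤ 0 := by
    by_contra h
    exact ha' ⟨b, mvb.2, not_le.1 h⟩
  have h2 : ori v b a ≤ 0 := by
    by_contra h
    exact hb' ⟨a, mva.2, not_le.1 h⟩
  have h3 : ori v a b = 0 := by rw [ori_swap' v a b] at h2; linarith
  obtain ⟨t, ht⟩ := collinear9 hva h3
  rcases lt_trichotomy t 0 with h4 | h4 | h4
  · obtain ⟨p, hp, hp'⟩ := hnc v mva.1 a mva.2 hva
    exfalso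
    have h5 : ori v a p ≤ 0 := by
      by_contra h
      exact ha' ⟨p, hp, not_le.1 h⟩
    have h6 : ori v b p ≤ 0 := by
      by_contra h
      exact hb' ⟨p, hp, not_le.1 h⟩
    rw [ht, ori_comb2 _ _ _ _ (by ring), ori_aab, mul_zero, zero_add] at h6
    have h7 : 0 ≤ ori v a p := by
      by_contra h
      push Not at h
      nlinarith [mul_pos_of_neg_of_neg h4 h]
    exact hp' (le_antisymm h5 h7)
  · exfalso
    rw [h4, sub_zero, one_smul, zero_smul, add_zero] at ht
    exact hvb ht.symm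
  · rcases lt_trichotomy t 1 with h5 | h5 | h5
    · exfalso
      exact hT.free v a ha b mvb.2 ⟨1 - t, t, by linarith, h4, by ring, ht.symm⟩
    · rw [h5, sub_self, zero_smul, zero_add, one_smul] at ht
      exact ht.symm
    · exfalso
      refine hT.free v b hb a mva.2 ⟨1 - t⁻¹, t⁻¹, ?_, inv_pos.2 h4, by ring, ?_⟩
      · have := inv_lt_one_of_one_lt₀ h5; linarith
      · rw [ht, smul_add, smul_smul, smul_smul, inv_mul_cancel₀ (by linarith : t ≠ 0), one_smul,
          ← add_assoc, ← add_smul]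
        have e : 1 - t⁻¹ + t⁻¹ * (1 - t) = 0 := by field_simp; ring
        rw [e, zero_smul, zero_add]

/-- A8 -/
theorem int_left {P : Finset Pt} {T : Pt → Pt → Prop} (hT : IsTrg P T) {v a : Pt}
    (hb : ¬ Bd P v) (h : T v a) : Lft P v a ∧ Lft P a v := by
  have hva := hT.ne v a h
  unfold Bd at hb
  push Not at hb
  constructor
  · obtain ⟨p, hp, hp'⟩ := hb (a - v) (sub_ne_zero.2 hva.symm)
    refine ⟨p, hp, ?_⟩
    simpa [cr, ori] using hp'
  · obtain ⟨p, hp, hp'⟩ := hb (v - a) (sub_ne_zero.2 hva)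
    refine ⟨p, hp, ?_⟩
    have e : ori a v p = cr (v - a) v p := by
      simp only [cr, ori, Prod.fst_sub, Prod.snd_sub]
      ring
    rw [e]
    exact hp'

end

end Pool.Agent.PEN
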