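import Pool.Agent.PEN.Defs

/-! # Cell C: a set of directions that is invariant under the next direction has total angle at
least `2π`. -/

set_option autoImplicit false

namespace Pool.Agent.PEN

open Classical

noncomputable section

/-- one turn: the argument of the quotient is the difference of the arguments plus a non-negative
multiple of `2π`, positive if the argument does not increase -/
theorem turn_step21 {a b : ℂ} (ha : a ≠ 0) (hb : b ≠ 0) (him : 0 < (b / a).im) :
    ∃ n : ℤ, Complex.arg (b / a) = Complex.arg b - Complex.arg a + 2 * Real.pi * n ∧ 0 ≤ n ∧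
      (Complex.arg b ≤ Complex.arg a → 1 ≤ n) := by
  have h1 : ((Complex.arg (b / a) : ℝ) : Real.Angle)
      = ((Complex.arg b - Complex.arg a : ℝ) : Real.Angle) := by
    rw [Complex.arg_div_coe_angle hb ha, Real.Angle.coe_sub]
  rw [Real.Angle.angle_eq_iff_two_pi_dvd_sub] at h1
  obtain ⟨n, hn⟩ := h1
  have hpi := Real.pi_pos
  have h0 : 0 < Complex.arg (b / a) := by
    rcases lt_or_eq_of_le (Complex.arg_nonneg_iff.2 him.le) with h | h
    · exact h
    · have h2 := Complex.arg_eq_zero_iff.1 h.symm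
      exact absurd h2.2 him.ne'
  have h3 := Complex.arg_le_pi b
  have h4 := Complex.neg_pi_lt_arg a
  refine ⟨n, by linarith, ?_, ?_⟩
  · by_contra hneg
    have h5 : n ≤ -1 := by omega
    have h6 : (n : ℝ) ≤ -1 := by exact_mod_cast h5
    nlinarith
  · intro hle
    by_contra hneg
    have h5 : n ≤ 0 := by omega
    have h6 : (n : ℝ) ≤ 0 := by exact_mod_cast h5
    nlinarith

theorem turn {ι : Type} (S : Finset ι) (z : ι → ℂ) (σ : ι → ι) (h0 : ∀ s ∈ S, z s ≠ 0)
    (hσ : ∀ s ∈ S, σ s ∈ S) (hinj : Set.InjOn σ (S : Set ι))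
    (him : ∀ s ∈ S, 0 < (z (σ s) / z s).im) (hne : S.Nonempty) :
    2 * Real.pi ≤ ∑ s ∈ S, Complex.arg (z (σ s) / z s) := by
  have hpi := Real.pi_pos
  have hch : ∀ s, ∃ n : ℤ, s ∈ S →
      Complex.arg (z (σ s) / z s) = Complex.arg (z (σ s)) - Complex.arg (z s) + 2 * Real.pi * n ∧
      0 ≤ n ∧ (Complex.arg (z (σ s)) ≤ Complex.arg (z s) → 1 ≤ n) := by
    intro s
    by_cases hs : s ∈ S
    · obtain ⟨n, hn⟩ := turn_step21 (h0 s hs) (h0 _ (hσ s hs)) (him s hs)
      exact ⟨n, fun _ => hn⟩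
    · exact ⟨0, fun h => absurd h hs⟩
  choose n hn using hch
  have himg : S.image σ = S := by
    apply Finset.eq_of_subset_of_card_le
    · intro t ht
      obtain ⟨s, hs, rfl⟩ := Finset.mem_image.1 ht
      exact hσ s hs
    · rw [Finset.card_image_of_injOn hinj]
  have hsum : ∑ s ∈ S, Complex.arg (z (σ s)) = ∑ s ∈ S, Complex.arg (z s) := by
    conv_rhs => rw [← himg]
    rw [Finset.sum_image hinj]
  have hall : ∑ s ∈ S, Complex.arg (z (σ s) / z s) = 2 * Real.pi * ((∑ s ∈ S, n s : ℤ) : ℝ) := by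
    rw [Finset.sum_congr rfl (fun s hs => (hn s hs).1), Finset.sum_add_distrib,
      Finset.sum_sub_distrib, hsum, sub_self, zero_add, Int.cast_sum, Finset.mul_sum]
  obtain ⟨m, hm, hmax⟩ := Finset.exists_max_image S (fun s => Complex.arg (z s)) hne
  have hm1 : 1 ≤ n m := (hn m hm).2.2 (hmax _ (hσ m hm))
  have hge : 1 ≤ ∑ s ∈ S, n s :=
    le_trans hm1 (Finset.single_le_sum (f := n) (fun s hs => (hn s hs).2.1) hm)
  rw [hall]
  have hge' : (1 : ℝ) ≤ ((∑ s ∈ S, n s : ℤ) : ℝ) := by exact_mod_cast hge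
  nlinarith

end

end Pool.Agent.PEN
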