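import Pool.Agent.PNY.Br9
import Pool.Agent.PEN.B49
import Pool.Agent.PEN.B39b
import Pool.Agent.PEN.C21
import Pool.Agent.PEN.D66

/-! # Hyperbolic penny graphs: the triangulation of a finite set of the upper half plane -/

set_option autoImplicit false

namespace Pool.Agent.PEN

open Classical UpperHalfPlane

noncomputable section

section build
variable (d : ℝ) (P : Finset ℍ) (T : Pt → Pt → Prop) (Tr : Pt → Pt → Pt → Prop)

/-- darts -/
def D71 : Finset (ℍ × ℍ) := (P ×ˢ P).filter (fun x => T (kl x.1) (kl x.2))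

/-- darts with a triangle on the left -/
def Dp71 : Finset (ℍ × ℍ) :=
  (P ×ˢ P).filter (fun x => T (kl x.1) (kl x.2) ∧ Lft (P.image kl) (kl x.1) (kl x.2))

/-- third vertex -/
def ap71 (a b : ℍ) : ℍ :=
  if h : ∃ c ∈ P, Tr (kl a) (kl b) (kl c) then Classical.choose h else a

variable {d P T Tr}

theorem ap71_spec {a b : ℍ} (h : ∃ c ∈ P, Tr (kl a) (kl b) (kl c)) :
    ap71 P Tr a b ∈ P ∧ Tr (kl a) (kl b) (kl (ap71 P Tr a b)) := by
  unfold ap71
  rw [dif_pos h]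
  exact Classical.choose_spec h

theorem ap71_eq (hT : PTri (P.image kl) T Tr) {a b c : ℍ} (hc : c ∈ P)
    (h : Tr (kl a) (kl b) (kl c)) : ap71 P Tr a b = c :=
  kl_inj (hT.uniq _ _ _ _ (ap71_spec ⟨c, hc, h⟩).2 h)

theorem isT_mem71 (hT : PTri (P.image kl) T Tr) {a b : Pt} (h : T a b) :
    ∃ x ∈ P, kl x = a := by
  obtain ⟨x, hx, hx2⟩ := Finset.mem_image.mp (hT.mem a b h)
  exact ⟨x, hx, hx2⟩

theorem mem_of_T71 (hT : PTri (P.image kl) T Tr) {x y : ℍ} (h : T (kl x) (kl y)) : x ∈ P := by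
  obtain ⟨z, hz, hz2⟩ := isT_mem71 hT h
  rwa [← kl_inj hz2]

theorem Dp71_of_isT (hT : PTri (P.image kl) T Tr) {a b c : ℍ}
    (h : Tr (kl a) (kl b) (kl c)) : (a, b) ∈ Dp71 P T := by
  have h1 := hT.tr _ _ _ h
  refine Finset.mem_filter.mpr ⟨Finset.mem_product.mpr
    ⟨mem_of_T71 hT h1.1, mem_of_T71 hT (hT.symm _ _ h1.1)⟩, h1.1, kl c, ?_, h1.2⟩
  exact hT.mem _ _ (hT.tr _ _ _ (hT.rot _ _ _ (hT.rot _ _ _ h))).1

theorem Dp71_spec (hT : PTri (P.image kl) T Tr) {a b : ℍ} (h : (a, b) ∈ Dp71 P T) :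
    ap71 P Tr a b ∈ P ∧ Tr (kl a) (kl b) (kl (ap71 P Tr a b)) := by
  apply ap71_spec
  obtain ⟨_, h1, h2⟩ := Finset.mem_filter.mp h
  obtain ⟨c, hc⟩ := hT.ex _ _ h1 h2
  obtain ⟨x, hx, rfl⟩ := isT_mem71 hT (hT.tr _ _ _ (hT.rot _ _ _ (hT.rot _ _ _ hc))).1
  exact ⟨x, hx, hc⟩

theorem Dp71_left {a b : ℍ} (h : (a, b) ∈ Dp71 P T) :
    a ∈ P ∧ b ∈ P := by
  have := (Finset.mem_filter.mp h).1
  exact Finset.mem_product.mp this

/-- the triangulation -/
def tg71 (d : ℝ) {P : Finset ℍ} {T : Pt → Pt → Prop} {Tr : Pt → Pt → Pt → Prop}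
    (hT : PTri (P.image kl) T Tr) : Tg ℍ where
  P := P
  D := D71 P T
  Dp := Dp71 P T
  ap := ap71 P Tr
  con := fun a b => dist a b = d
  bd := fun v => Bd (P.image kl) (kl v)
  th := fun a b => ang a b (ap71 P Tr a b)
  sub := by
    intro x hx
    obtain ⟨h0, h1, _⟩ := Finset.mem_filter.mp hx
    exact Finset.mem_filter.mpr ⟨h0, h1⟩
  symm := by
    intro a b h
    obtain ⟨h0, h1⟩ := Finset.mem_filter.mp h
    obtain ⟨h2, h3⟩ := Finset.mem_product.mp h0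
    exact Finset.mem_filter.mpr ⟨Finset.mem_product.mpr ⟨h3, h2⟩, hT.symm _ _ h1⟩
  mem := by
    intro a b h
    exact (Finset.mem_product.mp (Finset.mem_filter.mp h).1).1
  ne := by
    intro a b h h2
    exact hT.ne _ _ (Finset.mem_filter.mp h).2 (by rw [h2])
  csymm := by
    intro a b h
    rw [dist_comm]; exact h
  ap1 := by
    intro a b h
    exact Dp71_of_isT hT (hT.rot _ _ _ (Dp71_spec hT h).2)
  ap2 := by
    intro a b h
    exact Dp71_of_isT hT (hT.rot _ _ _ (hT.rot _ _ _ (Dp71_spec hT h).2))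
  ap3 := by
    intro a b h
    exact ap71_eq hT (Dp71_left h).1 (hT.rot _ _ _ (Dp71_spec hT h).2)
  ap4 := by
    intro a b h
    exact ap71_eq hT (Dp71_left h).2 (hT.rot _ _ _ (hT.rot _ _ _ (Dp71_spec hT h).2))
  ap5 := by
    intro a b h h2 h3
    have h4 := (hT.tr _ _ _ (Dp71_spec hT h).2).2
    have h5 := (hT.tr _ _ _ (Dp71_spec hT h2).2).2
    rw [← h3] at h5
    unfold ori at h4 h5
    linarith
  int1 := by
    intro v a _ hb h
    obtain ⟨h0, h1⟩ := Finset.mem_filter.mp h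
    exact Finset.mem_filter.mpr ⟨h0, h1, (hT.int_left hb h1).1⟩
  int2 := by
    intro v a _ hb h
    obtain ⟨h0, h1⟩ := Finset.mem_filter.mp h
    obtain ⟨h2, h3⟩ := Finset.mem_product.mp h0
    exact Finset.mem_filter.mpr ⟨Finset.mem_product.mpr ⟨h3, h2⟩, hT.symm _ _ h1,
      (hT.int_left hb h1).2⟩
  thpos := by
    intro a b h
    exact (ang_pos (hT.tr _ _ _ (Dp71_spec hT h).2).2).1

end build

end

end Pool.Agent.PEN
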