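import Pool.Agent.PEN.D66

/-! # Hyperbolic penny graphs: the combinatorial theorem (row D13) -/

set_option autoImplicit false

namespace Pool.Agent.PEN

open Classical UpperHalfPlane

noncomputable section

section D
variable {V : Type} (G : Tg V)

variable {k : ℕ} {om : ℝ}

/-- the weights, summed over the vertices -/
theorem vsum11 (hG : G.Good k om) :
    (k + 1) * (G.P.filter (fun v => ¬ G.bd v)).card + 2 * (G.P.filter G.bd).card ≤
      ∑ x ∈ G.Dp.filter (fun x => G.con x.1 x.2), G.w om x.1 x.2 := by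
  rw [← Finset.sum_fiberwise_of_maps_to (s := G.Dp.filter (fun x => G.con x.1 x.2)) (t := G.P)
    (g := Prod.fst)]
  · rw [← Finset.sum_filter_add_sum_filter_not G.P G.bd, add_comm]
    apply add_le_add
    · rw [mul_comm, ← smul_eq_mul]
      apply Finset.card_nsmul_le_sum
      intro v hv
      rw [Finset.mem_filter] at hv
      refine (w_bd G hG hv.1 hv.2).trans (le_of_eq ?_)
      rw [Finset.filter_filter]
      apply Finset.sum_congr _ (fun _ _ => rfl)
      apply Finset.filter_congr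
      intro x _
      exact and_comm
    · rw [mul_comm, ← smul_eq_mul]
      apply Finset.card_nsmul_le_sum
      intro v hv
      rw [Finset.mem_filter] at hv
      refine (w_int G hG hv.1 hv.2).trans (le_of_eq ?_)
      rw [Finset.filter_filter]
      apply Finset.sum_congr _ (fun _ _ => rfl)
      apply Finset.filter_congr
      intro x _
      exact and_comm
  · rintro ⟨x1, x2⟩ hx
    rw [Finset.mem_filter] at hx
    exact G.mem _ _ (G.sub hx.1)

/-- the weights, summed over the classes -/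
theorem csum11 (hG : G.Good k om) :
    2 * (∑ x ∈ G.Dp.filter (fun x => G.con x.1 x.2), G.w om x.1 x.2) ≤ 2 * G.Dp.card
      + (k - 4) * ((G.Dp.filter (fun x => ¬ G.con x.1 x.2 ∧ (x.2, x.1) ∈ G.Dp)).card
        + 2 * (G.Dp.filter (fun x => ¬ G.con x.1 x.2 ∧ (x.2, x.1) ∉ G.Dp)).card) := by
  have maps : ∀ x ∈ G.Dp, G.cl x ∈ G.Dp.image G.cl := fun x hx => Finset.mem_image_of_mem _ hx
  have e1 : ∑ x ∈ G.Dp.filter (fun x => G.con x.1 x.2), G.w om x.1 x.2 =
      ∑ C ∈ G.Dp.image G.cl, ∑ x ∈ G.cJ C, G.w om x.1 x.2 := by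
    rw [← Finset.sum_fiberwise_of_maps_to (s := G.Dp.filter (fun x => G.con x.1 x.2))
      (t := G.Dp.image G.cl) (g := G.cl) (fun x hx => maps x (Finset.mem_filter.mp hx).1)]
    apply Finset.sum_congr rfl
    intro C _
    rw [Finset.filter_filter]
    apply Finset.sum_congr _ (fun _ _ => rfl)
    apply Finset.filter_congr
    intro x _
    exact and_comm
  have e2 : G.Dp.card = ∑ C ∈ G.Dp.image G.cl, 3 * (G.cT C).card := by
    rw [Finset.card_eq_sum_card_fiberwise (s := G.Dp) (t := G.Dp.image G.cl) (f := G.cl) maps]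
    apply Finset.sum_congr rfl
    intro C _
    exact card_cD G C
  have e3 : (G.Dp.filter (fun x => ¬ G.con x.1 x.2 ∧ (x.2, x.1) ∈ G.Dp)).card =
      ∑ C ∈ G.Dp.image G.cl, (G.cI C).card := by
    rw [Finset.card_eq_sum_card_fiberwise (t := G.Dp.image G.cl) (f := G.cl)
      (fun x hx => maps x (Finset.mem_filter.mp hx).1)]
    apply Finset.sum_congr rfl
    intro C _
    rw [Finset.filter_filter]
    apply congrArg
    apply Finset.filter_congr
    intro x _
    tauto
  have e4 : (G.Dp.filter (fun x => ¬ G.con x.1 x.2 ∧ (x.2, x.1) ∉ G.Dp)).card =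
      ∑ C ∈ G.Dp.image G.cl, (G.cB C).card := by
    rw [Finset.card_eq_sum_card_fiberwise (t := G.Dp.image G.cl) (f := G.cl)
      (fun x hx => maps x (Finset.mem_filter.mp hx).1)]
    apply Finset.sum_congr rfl
    intro C _
    rw [Finset.filter_filter]
    apply congrArg
    apply Finset.filter_congr
    intro x _
    tauto
  rw [e1, e2, e3, e4, Finset.mul_sum, Finset.mul_sum, Finset.mul_sum, ← Finset.sum_add_distrib,
    Finset.mul_sum, ← Finset.sum_add_distrib]
  apply Finset.sum_le_sum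
  intro C hC
  have hpos : 0 < (G.cT C).card := by
    obtain ⟨x, hx, rfl⟩ := Finset.mem_image.mp hC
    have h1 : 0 < (G.cD (G.cl x)).card :=
      Finset.card_pos.mpr ⟨x, Finset.mem_filter.mpr ⟨hx, rfl⟩⟩
    rw [card_cD] at h1
    omega
  have h := class_ineq G hG C hpos
  calc 2 * ∑ x ∈ G.cJ C, G.w om x.1 x.2 ≤ _ := h
    _ = _ := by ring

/-- darts without a triangle on the left: at most one at each boundary point -/
theorem out11 (hG : G.Good k om) : (G.D \ G.Dp).card ≤ (G.P.filter G.bd).card := by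
  apply Finset.card_le_card_of_injOn Prod.fst
  · rintro ⟨x1, x2⟩ hx
    rw [Finset.mem_coe, Finset.mem_sdiff] at hx
    have hv := G.mem _ _ hx.1
    rw [Finset.mem_coe, Finset.mem_filter]
    refine ⟨hv, ?_⟩
    by_contra hb
    exact hx.2 (G.int1 _ _ hv hb hx.1)
  · rintro ⟨x1, x2⟩ hx ⟨y1, y2⟩ hy hxy
    rw [Finset.mem_coe, Finset.mem_sdiff] at hx hy
    simp only at hxy
    subst hxy
    rw [hG.left _ _ _ hx.1 hy.1 hx.2 hy.2]

/-- the contact darts, counted from below by the non-contact ones -/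
theorem con11 (hG : G.Good k om) : (G.D.filter (fun x => G.con x.1 x.2)).card
      + ((G.Dp.filter (fun x => ¬ G.con x.1 x.2 ∧ (x.2, x.1) ∈ G.Dp)).card
        + 2 * (G.Dp.filter (fun x => ¬ G.con x.1 x.2 ∧ (x.2, x.1) ∉ G.Dp)).card)
      ≤ G.Dp.card + (G.P.filter G.bd).card := by
  have h1 := Finset.card_filter_add_card_filter_not (s := G.D) (fun x => G.con x.1 x.2)
  have h2 : (G.D \ G.Dp).card + G.Dp.card = G.D.card := Finset.card_sdiff_add_card_eq_card G.sub
  have h3 := out11 G hG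
  have h4 : (G.Dp.filter (fun x => ¬ G.con x.1 x.2 ∧ (x.2, x.1) ∈ G.Dp)).card
      + (G.Dp.filter (fun x => ¬ G.con x.1 x.2 ∧ (x.2, x.1) ∉ G.Dp)).card
      = (G.Dp.filter (fun x => ¬ G.con x.1 x.2)).card := by
    rw [← Finset.card_filter_add_card_filter_not
      (s := G.Dp.filter (fun x => ¬ G.con x.1 x.2)) (fun x => (x.2, x.1) ∈ G.Dp),
      Finset.filter_filter, Finset.filter_filter]
  have h5 : (G.Dp.filter (fun x => ¬ G.con x.1 x.2 ∧ (x.2, x.1) ∉ G.Dp)).card ≤
      ((G.D \ G.Dp).filter (fun x => ¬ G.con x.1 x.2)).card := by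
    apply Finset.card_le_card_of_injOn Prod.swap
    · rintro ⟨x1, x2⟩ hx
      rw [Finset.mem_coe, Finset.mem_filter] at hx
      rw [Finset.mem_coe, Finset.mem_filter, Finset.mem_sdiff]
      exact ⟨⟨G.symm _ _ (G.sub hx.1), hx.2.2⟩, fun h => hx.2.1 (G.csymm _ _ h)⟩
    · exact Prod.swap_injective.injOn
  have h6 : (G.Dp.filter (fun x => ¬ G.con x.1 x.2)).card
      + ((G.D \ G.Dp).filter (fun x => ¬ G.con x.1 x.2)).card
      = (G.D.filter (fun x => ¬ G.con x.1 x.2)).card := by
    rw [← Finset.card_union_of_disjoint (Finset.disjoint_filter_filter Finset.disjoint_sdiff),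
      ← Finset.filter_union, Finset.union_sdiff_of_subset G.sub]
  omega

/-- D13: the combinatorial theorem, `2 E` = number of contact darts -/
theorem tg_main (hG : G.Good k om) :
    (k - 4) * (G.D.filter (fun x => G.con x.1 x.2)).card + 6 * k ≤ 2 * (2 * k - 7) * G.P.card + 12 := by
  have h1 := vsum11 G hG
  have h2 := csum11 G hG
  have h3 := con11 G hG
  have h4 := hG.cnt
  have h5 := Finset.card_filter_add_card_filter_not (s := G.P) G.bd
  have hk := hG.hk
  obtain ⟨j, rfl⟩ : ∃ j, k = j + 6 := ⟨k - 6, by omega⟩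
  have e1 : j + 6 - 4 = j + 2 := by omega
  have e2 : 2 * (j + 6) - 7 = 2 * j + 5 := by omega
  rw [e1] at h2 ⊢
  rw [e2]
  generalize (∑ x ∈ G.Dp.filter (fun x => G.con x.1 x.2), G.w om x.1 x.2) = W at h1 h2
  generalize (G.D.filter (fun x => G.con x.1 x.2)).card = c at h3 ⊢
  generalize (G.Dp.filter (fun x => ¬ G.con x.1 x.2 ∧ (x.2, x.1) ∈ G.Dp)).card
    + 2 * (G.Dp.filter (fun x => ¬ G.con x.1 x.2 ∧ (x.2, x.1) ∉ G.Dp)).card = N at h2 h3
  generalize G.Dp.card = D at h2 h3 h4
  generalize (G.P.filter G.bd).card = h at h1 h3 h4 h5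
  generalize (G.P.filter (fun v => ¬ G.bd v)).card = m at h1 h5
  rw [← h5] at h4 ⊢
  zify at h1 h2 h3 h4 ⊢
  nlinarith [mul_le_mul_of_nonneg_left h3 (by positivity : (0 : ℤ) ≤ (j : ℤ) + 2),
    mul_le_mul_of_nonneg_left h4 (by positivity : (0 : ℤ) ≤ (j : ℤ) + 4)]

end D

end

end Pool.Agent.PEN
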