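import Pool.Agent.PEN.E71a
import Pool.Agent.PEN.T11

/-! # Hyperbolic penny graphs: the numerical hypotheses hold -/

set_option autoImplicit false

namespace Pool.Agent.PEN

open Classical UpperHalfPlane

noncomputable section

theorem exists_om71 (s : Finset ℝ) {c a : ℝ} (ha : a < c) (hs : ∀ x ∈ s, x < c) :
    ∃ om, a ≤ om ∧ om < c ∧ ∀ x ∈ s, x ≤ om := by
  have hne : (insert a s).Nonempty := ⟨a, Finset.mem_insert_self _ _⟩
  refine ⟨(insert a s).max' hne, Finset.le_max' _ _ (Finset.mem_insert_self _ _), ?_,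
    fun x hx => Finset.le_max' _ _ (Finset.mem_insert_of_mem hx)⟩
  rw [Finset.max'_lt_iff]
  intro y hy
  rcases Finset.mem_insert.mp hy with rfl | h
  · exact ha
  · exact hs y h

theorem ncol71 {Q : Finset Pt} {T : Pt → Pt → Prop} {Tr : Pt → Pt → Pt → Prop}
    (hT : PTri Q T Tr) (h2 : ∀ v ∈ Q, ∃ x y, x ≠ y ∧ T v x ∧ T v y) {a b : Pt} (ha : a ∈ Q)
    (hab : a ≠ b) : ∃ p ∈ Q, ori a b p ≠ 0 := by
  by_contra hcon
  push Not at hcon
  have hpar : ∃ t : Pt → ℝ, ∀ p ∈ Q, p.1 = a.1 + t p * (b.1 - a.1) ∧ p.2 = a.2 + t p * (b.2 - a.2) := by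
    by_cases hx : b.1 - a.1 = 0
    · have hy : b.2 - a.2 ≠ 0 := by
        intro hy
        apply hab
        ext
        · linarith
        · linarith
      refine ⟨fun p => (p.2 - a.2) / (b.2 - a.2), fun p hp => ?_⟩
      have h0 := hcon p hp
      unfold ori at h0
      rw [hx] at h0 ⊢
      have h1 : (b.2 - a.2) * (p.1 - a.1) = 0 := by linarith
      rcases mul_eq_zero.mp h1 with h | h
      · exact absurd h hy
      · refine ⟨by linarith, ?_⟩
        field_simp
        ring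
    · refine ⟨fun p => (p.1 - a.1) / (b.1 - a.1), fun p hp => ?_⟩
      have h0 := hcon p hp
      unfold ori at h0
      constructor
      · field_simp
        ring
      · field_simp
        linarith
  obtain ⟨t, ht⟩ := hpar
  obtain ⟨v, hv, hmin⟩ := Finset.exists_min_image Q t ⟨a, ha⟩
  have hinj : ∀ p ∈ Q, ∀ q ∈ Q, t p = t q → p = q := by
    intro p hp q hq h
    obtain ⟨h1, h2⟩ := ht p hp
    obtain ⟨h3, h4⟩ := ht q hq
    rw [h] at h1 h2
    ext
    · rw [h1, h3]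
    · rw [h2, h4]
  obtain ⟨x, y, hxy, hTx, hTy⟩ := h2 v hv
  have hxQ : x ∈ Q := hT.mem _ _ (hT.symm _ _ hTx)
  have hyQ : y ∈ Q := hT.mem _ _ (hT.symm _ _ hTy)
  have hvx : t v < t x := lt_of_le_of_ne (hmin x hxQ) (fun h => hT.ne _ _ hTx (hinj _ hv _ hxQ h))
  have hvy : t v < t y := lt_of_le_of_ne (hmin y hyQ) (fun h => hT.ne _ _ hTy (hinj _ hv _ hyQ h))
  have key : ∀ x y : Pt, x ∈ Q → y ∈ Q → t v < t x → t x < t y → x ∈ openSegment ℝ v y := by
    intro x y hx hy h1 h2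
    obtain ⟨a1, a2⟩ := ht v hv
    obtain ⟨b1, b2⟩ := ht x hx
    obtain ⟨c1, c2⟩ := ht y hy
    have h3 : 0 < t y - t v := by linarith
    refine ⟨(t y - t x) / (t y - t v), (t x - t v) / (t y - t v), div_pos (by linarith) h3,
      div_pos (by linarith) h3, ?_, ?_⟩
    · field_simp
      ring
    · ext
      · simp only [Prod.fst_add, Prod.smul_fst, smul_eq_mul]
        rw [a1, b1, c1]
        field_simp
        ring
      · simp only [Prod.snd_add, Prod.smul_snd, smul_eq_mul]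
        rw [a2, b2, c2]
        field_simp
        ring
  rcases lt_trichotomy (t x) (t y) with h | h | h
  · exact hT.ray v x y hTx hTy (key x y hxQ hyQ hvx h)
  · exact hxy (hinj _ hxQ _ hyQ h)
  · exact hT.ray v y x hTy hTx (key y x hyQ hxQ hvy h)

section
variable {k : ℕ} {d : ℝ} {P : Finset ℍ} {T : Pt → Pt → Prop} {Tr : Pt → Pt → Pt → Prop}

theorem mem_D71 {a b : ℍ} : (a, b) ∈ D71 P T ↔ (a ∈ P ∧ b ∈ P) ∧ T (kl a) (kl b) := by
  unfold D71
  rw [Finset.mem_filter, Finset.mem_product]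

theorem mem_Dp71 {a b : ℍ} : (a, b) ∈ Dp71 P T ↔
    (a ∈ P ∧ b ∈ P) ∧ T (kl a) (kl b) ∧ Lft (P.image kl) (kl a) (kl b) := by
  unfold Dp71
  rw [Finset.mem_filter, Finset.mem_product]

theorem good71 (hk : 6 ≤ k) (hd : 0 < d) (ha : alpha d * k < 2 * Real.pi) (hP : Sep d P)
    (hT : PTri (P.image kl) T Tr) (hG : ∀ x ∈ P, ∀ y ∈ P, dist x y = d → T (kl x) (kl y))
    (hne : P.Nonempty) (hdeg : ∀ v ∈ P, 3 ≤ (P.filter (fun x => dist v x = d)).card) :
    ∃ om, (tg71 d hT).Good k om := by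
  have hpi := Real.pi_pos
  have hk0 : (6 : ℝ) ≤ k := by exact_mod_cast hk
  have hk3 : (0 : ℝ) < 2 * k - 3 := by linarith
  have hkp : (0 : ℝ) < k := by linarith
  have hα := alpha_pos hd
  have horient : ∀ a b : ℍ, (a, b) ∈ Dp71 P T → 0 < ori (kl a) (kl b) (kl (ap71 P Tr a b)) :=
    fun a b h => (hT.tr _ _ _ (Dp71_spec hT h).2).2
  obtain ⟨om, h1, h2, h3⟩ := exists_om71 (a := alpha d) (c := 2 * Real.pi / k)
    ((Dp71 P T).image (fun x => 3 * (ang x.1 x.2 (ap71 P Tr x.1 x.2)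
      + ang x.2 (ap71 P Tr x.1 x.2) x.1 + ang (ap71 P Tr x.1 x.2) x.1 x.2) / (2 * k - 3)))
    (by rw [lt_div_iff₀ hkp]; exact ha)
    (by
      intro y hy
      obtain ⟨x, hx, rfl⟩ := Finset.mem_image.mp hy
      have h5 := ang_sum (horient x.1 x.2 hx)
      rw [div_lt_div_iff₀ hk3 hkp]
      nlinarith)
  have hdist : ∀ a b : ℍ, a ∈ P → b ∈ P → a ≠ b → d ≤ dist a b := fun a b ha hb hab =>
    hP a ha b hb hab
  have hq2 : ∀ v ∈ P.image kl, ∃ x y, x ≠ y ∧ T v x ∧ T v y := by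
    intro v hv
    obtain ⟨z, hz, rfl⟩ := Finset.mem_image.mp hv
    have h6 := hdeg z hz
    obtain ⟨x, hx, y, hy, hxy⟩ := Finset.one_lt_card.mp (by omega : 1 <
      (P.filter (fun x => dist z x = d)).card)
    rw [Finset.mem_filter] at hx hy
    exact ⟨kl x, kl y, fun h => hxy (kl_inj h), hG _ hz _ hx.1 hx.2, hG _ hz _ hy.1 hy.2⟩
  refine ⟨om, ⟨hk, lt_of_lt_of_le hα h1, ?_, ?_, ?_, ?_, ?_, ?_, ?_, ?_, ?_⟩⟩
  · rw [lt_div_iff₀ hkp] at h2
    linarith
  · -- turn
    intro v hv hb S hS hD hap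
    have hDp : ∀ a ∈ S, (v, a) ∈ Dp71 P T := fun a ha => (tg71 d hT).int1 v a hv hb (hD a ha)
    have him : ∀ s ∈ S, 0 < (Dv v (ap71 P Tr v s) / Dv v s).im := fun s hs =>
      (ori_pos_iff v s _).mp (horient v s (hDp s hs))
    refine turn S (Dv v) (ap71 P Tr v) ?_ hap ?_ him hS
    · intro s hs h0
      have := him s hs
      rw [h0, div_zero] at this
      exact absurd this (lt_irrefl _)
    · intro s hs s' hs' h
      have e1 := (tg71 d hT).ap4 v s (hDp s hs)
      have e2 := (tg71 d hT).ap4 v s' (hDp s' hs')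
      change ap71 P Tr (ap71 P Tr v s) v = s at e1
      change ap71 P Tr (ap71 P Tr v s') v = s' at e2
      rw [← e1, ← e2, h]
  · -- tsum
    intro a b hab
    have e1 := (tg71 d hT).ap3 a b hab
    have e2 := (tg71 d hT).ap4 a b hab
    change ap71 P Tr b (ap71 P Tr a b) = a at e1
    change ap71 P Tr (ap71 P Tr a b) a = b at e2
    change 3 * (ang a b (ap71 P Tr a b) + ang b (ap71 P Tr a b) (ap71 P Tr b (ap71 P Tr a b))
      + ang (ap71 P Tr a b) a (ap71 P Tr (ap71 P Tr a b) a)) ≤ (2 * k - 3) * om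
    rw [e1, e2]
    have h7 := h3 _ (Finset.mem_image_of_mem _ hab)
    rw [div_le_iff₀ hk3] at h7
    linarith
  · -- tcon
    intro a b hab hc1 hc2 hc3
    refine le_trans (le_of_eq ?_) h1
    exact ang_contact hd hc1 (by rw [dist_comm]; exact hc3) hc2 (horient a b hab)
  · -- rh1
    intro a b hab hba hc c1 c2 c3 c4
    have e2 := (tg71 d hT).ap4 a b hab
    change ap71 P Tr (ap71 P Tr a b) a = b at e2
    change ang (ap71 P Tr a b) a (ap71 P Tr (ap71 P Tr a b) a) ≤ 2 * om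
    rw [e2]
    have hne' := (tg71 d hT).ap5 a b hab hba
    have hm := mem_Dp71.mp hab
    have := (rhombus hd (horient a b hab) (horient b a hba) c1 c2 c3 c4
      (hdist _ _ hm.1.1 hm.1.2 ((tg71 d hT).ne a b ((tg71 d hT).sub hab)))
      (hdist _ _ (Dp71_spec hT hab).1 (Dp71_spec hT hba).1 hne')).1
    linarith
  · -- rh2
    intro a b hab hba hc c1 c2 c3 c4
    have e1 := (tg71 d hT).ap3 b a hba
    change ap71 P Tr a (ap71 P Tr b a) = b at e1
    change ang a b (ap71 P Tr a b) + ang a (ap71 P Tr b a) (ap71 P Tr a (ap71 P Tr b a)) ≤ 2 * om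
    rw [e1]
    have hne' := (tg71 d hT).ap5 a b hab hba
    have hm := mem_Dp71.mp hab
    have := (rhombus hd (horient a b hab) (horient b a hba) c1 c2 c3 c4
      (hdist _ _ hm.1.1 hm.1.2 ((tg71 d hT).ne a b ((tg71 d hT).sub hab)))
      (hdist _ _ (Dp71_spec hT hab).1 (Dp71_spec hT hba).1 hne')).2
    linarith
  · -- deg
    intro v hv
    refine le_trans (hdeg v hv) ?_
    apply Finset.card_le_card_of_injOn (fun x => (v, x))
    · intro x hx
      have hx := Finset.mem_filter.mp (Finset.mem_coe.mp hx)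
      refine Finset.mem_coe.mpr (Finset.mem_filter.mpr ⟨mem_D71.mpr ⟨⟨hv, hx.1⟩, hG _ hv _ hx.1 hx.2⟩,
        rfl, hx.2⟩)
    · intro x _ y _ h
      exact (Prod.mk.inj h).2
  · -- left
    intro v a b h1' h2' h3' h4'
    obtain ⟨m1, t1⟩ := mem_D71.mp h1'
    obtain ⟨m2, t2⟩ := mem_D71.mp h2'
    refine kl_inj (hT.left_unique ?_ t1 t2 (fun h => h3' (mem_Dp71.mpr ⟨m1, t1, h⟩))
      (fun h => h4' (mem_Dp71.mpr ⟨m2, t2, h⟩)))
    intro a' ha' b' hb' hab'
    exact ncol71 hT hq2 ha' hab'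
  · -- cnt
    have hc2 : 2 ≤ (P.image kl).card := by
      rw [Finset.card_image_of_injective _ kl_inj]
      obtain ⟨v, hv⟩ := hne
      have := hdeg v hv
      have h8 := Finset.card_filter_le P (fun x => dist v x = d)
      omega
    have h9 := hT.card hc2
    have h10 : (Dp71 P T).card ≤ ((P.image kl ×ˢ P.image kl).filter
        (fun x => T x.1 x.2 ∧ Lft (P.image kl) x.1 x.2)).card := by
      apply Finset.card_le_card_of_injOn (fun x => (kl x.1, kl x.2))
      · intro x hx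
        have hx := mem_Dp71.mp (Finset.mem_coe.mp hx : (x.1, x.2) ∈ Dp71 P T)
        exact Finset.mem_coe.mpr (Finset.mem_filter.mpr ⟨Finset.mem_product.mpr
          ⟨Finset.mem_image_of_mem _ hx.1.1, Finset.mem_image_of_mem _ hx.1.2⟩, hx.2⟩)
      · intro x _ y _ h
        have h := Prod.mk.inj h
        exact Prod.ext (kl_inj h.1) (kl_inj h.2)
    have h11 : (P.filter (fun v => Bd (P.image kl) (kl v))).card
        ≤ ((P.image kl).filter (Bd (P.image kl))).card := by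
      apply Finset.card_le_card_of_injOn kl
      · intro x hx
        have hx := Finset.mem_filter.mp (Finset.mem_coe.mp hx)
        exact Finset.mem_coe.mpr (Finset.mem_filter.mpr ⟨Finset.mem_image_of_mem _ hx.1, hx.2⟩)
      · intro x _ y _ h
        exact kl_inj h
    rw [Finset.card_image_of_injective _ kl_inj] at h9
    change (Dp71 P T).card + 3 * (P.filter (fun v => Bd (P.image kl) (kl v))).card + 6 ≤ 6 * P.card
    omega

end

/-- E1: minimum degree three -/
theorem main_deg3' {k : ℕ} (hk : 6 ≤ k) {d : ℝ} (hd : 0 < d) (ha : alpha d * k < 2 * Real.pi)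
    {P : Finset ℍ} (hP : Sep d P) (hne : P.Nonempty)
    (hdeg : ∀ v ∈ P, 3 ≤ (P.filter (fun x => dist v x = d)).card) :
    (k - 4) * cd d P + 6 * k ≤ 2 * (2 * k - 7) * P.card + 12 := by
  obtain ⟨T, Tr, hT, hG⟩ := exists_PTri hd hP
  obtain ⟨om, hgood⟩ := good71 hk hd ha hP hT hG hne hdeg
  have h := tg_main _ hgood
  have e : ((tg71 d hT).D.filter (fun x => (tg71 d hT).con x.1 x.2)) =
      (P ×ˢ P).filter (fun x => dist x.1 x.2 = d) := by
    ext ⟨a, b⟩
    rw [Finset.mem_filter, Finset.mem_filter, Finset.mem_product]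
    constructor
    · rintro ⟨h1, h2⟩
      exact ⟨(mem_D71.mp h1).1, h2⟩
    · rintro ⟨h1, h2⟩
      exact ⟨mem_D71.mpr ⟨h1, hG _ h1.1 _ h1.2 h2⟩, h2⟩
  rw [e] at h
  exact h

end

end Pool.Agent.PEN
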