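import Pool.Agent.PEN.E71b

/-! # Hyperbolic penny graphs: removing points of small degree -/

set_option autoImplicit false

namespace Pool.Agent.PEN

open Classical UpperHalfPlane

noncomputable section

theorem Sep.mono {d : ℝ} {P Q : Finset ℍ} (h : Sep d P) (hQ : Q ⊆ P) : Sep d Q :=
  fun x hx y hy hxy => h x (hQ hx) y (hQ hy) hxy

theorem cd_erase {d : ℝ} (hd : 0 < d) {P : Finset ℍ} {v : ℍ} (hv : v ∈ P) :
    cd d P = cd d (P.erase v) + 2 * (P.filter (fun x => dist v x = d)).card := by
  unfold cd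
  have h1 : (P ×ˢ P).filter (fun x => dist x.1 x.2 = d) =
      (((P.erase v) ×ˢ (P.erase v)).filter (fun x => dist x.1 x.2 = d) ∪
        (P.filter (fun x => dist v x = d)).image (fun x => (v, x))) ∪
        (P.filter (fun x => dist v x = d)).image (fun x => (x, v)) := by
    ext ⟨a, b⟩
    simp only [Finset.mem_filter, Finset.mem_product, Finset.mem_union, Finset.mem_image,
      Finset.mem_erase, Prod.mk.injEq]
    constructor
    · rintro ⟨⟨ha, hb⟩, h⟩
      by_cases hav : a = v
      · left; right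
        exact ⟨b, ⟨hb, by rw [← hav]; exact h⟩, hav.symm, rfl⟩
      · by_cases hbv : b = v
        · right
          exact ⟨a, ⟨ha, by rw [← hbv, dist_comm]; exact h⟩, rfl, hbv.symm⟩
        · left; left
          exact ⟨⟨⟨hav, ha⟩, ⟨hbv, hb⟩⟩, h⟩
    · rintro ((⟨⟨⟨_, ha⟩, ⟨_, hb⟩⟩, h⟩ | ⟨x, ⟨hx, h⟩, rfl, rfl⟩) | ⟨x, ⟨hx, h⟩, rfl, rfl⟩)
      · exact ⟨⟨ha, hb⟩, h⟩
      · exact ⟨⟨hv, hx⟩, h⟩
      · exact ⟨⟨hx, hv⟩, by rw [dist_comm]; exact h⟩
  rw [h1, Finset.card_union_of_disjoint, Finset.card_union_of_disjoint,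
    Finset.card_image_of_injective, Finset.card_image_of_injective]
  · ring
  · intro x y h
    exact (Prod.mk.inj h).1
  · intro x y h
    exact (Prod.mk.inj h).2
  · rw [Finset.disjoint_left]
    rintro ⟨a, b⟩ h2 h3
    simp only [Finset.mem_filter, Finset.mem_product, Finset.mem_image, Finset.mem_erase,
      Prod.mk.injEq] at h2 h3
    obtain ⟨x, _, h4, _⟩ := h3
    exact h2.1.1.1 h4.symm
  · rw [Finset.disjoint_left]
    rintro ⟨a, b⟩ h2 h3
    simp only [Finset.mem_filter, Finset.mem_product, Finset.mem_image, Finset.mem_erase,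
      Prod.mk.injEq, Finset.mem_union] at h2 h3
    obtain ⟨x, ⟨_, h6⟩, h4, h5⟩ := h3
    rcases h2 with h2 | ⟨y, ⟨_, h7⟩, h8, h9⟩
    · exact h2.1.2.1 h5.symm
    · rw [← h5] at h9
      rw [h9, dist_self] at h7
      exact absurd h7 (ne_of_lt hd)

theorem main_ind71 {k : ℕ} (hk : 6 ≤ k) {d : ℝ} (hd : 0 < d) (ha : alpha d * k < 2 * Real.pi)
    (n : ℕ) : ∀ P : Finset ℍ, P.card = n + 2 → Sep d P →
    cd d P + 6 ≤ 4 * P.card ∨ (k - 4) * cd d P + 6 * k ≤ 2 * (2 * k - 7) * P.card + 12 := by
  induction n with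
  | zero =>
    intro P hc hP
    left
    obtain ⟨v, hv⟩ : P.Nonempty := by
      rw [← Finset.card_pos]; omega
    rw [cd_erase hd hv]
    have h1 : (P.filter (fun x => dist v x = d)).card ≤ 1 := by
      have h2 : P.filter (fun x => dist v x = d) ⊆ P.erase v := by
        intro x hx
        rw [Finset.mem_filter] at hx
        rw [Finset.mem_erase]
        refine ⟨?_, hx.1⟩
        rintro rfl
        rw [dist_self] at hx
        exact absurd hx.2 (ne_of_lt hd)
      have h3 := Finset.card_le_card h2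
      rw [Finset.card_erase_of_mem hv, hc] at h3
      omega
    have h4 : cd d (P.erase v) = 0 := by
      have h5 : (P.erase v).card = 1 := by
        rw [Finset.card_erase_of_mem hv, hc]
      obtain ⟨w, hw⟩ := Finset.card_eq_one.mp h5
      unfold cd
      rw [hw, Finset.card_eq_zero, Finset.filter_eq_empty_iff]
      rintro ⟨a, b⟩ hab
      rw [Finset.mem_product, Finset.mem_singleton, Finset.mem_singleton] at hab
      simp only at hab ⊢
      rw [hab.1, hab.2, dist_self]
      exact ne_of_lt hd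
    omega
  | succ n ih =>
    intro P hc hP
    by_cases hdeg : ∀ v ∈ P, 3 ≤ (P.filter (fun x => dist v x = d)).card
    · right
      refine main_deg3' hk hd ha hP ?_ hdeg
      rw [← Finset.card_pos]; omega
    · push Not at hdeg
      obtain ⟨v, hv, hv2⟩ := hdeg
      have hcard : (P.erase v).card = n + 2 := by
        rw [Finset.card_erase_of_mem hv, hc]
        omega
      have h := ih (P.erase v) hcard (hP.mono (Finset.erase_subset _ _))
      have h2 := cd_erase hd hv
      rw [hcard] at h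
      rw [hc]
      rcases h with h | h
      · left
        omega
      · right
        obtain ⟨m, rfl⟩ := Nat.exists_eq_add_of_le hk
        have e1 : 6 + m - 4 = m + 2 := by omega
        have e2 : 2 * (6 + m) - 7 = 2 * m + 5 := by omega
        rw [e1, e2] at h ⊢
        have h3 : cd d P ≤ cd d (P.erase v) + 4 := by omega
        nlinarith

/-- E2: all configurations -/
theorem main_all' {k : ℕ} (hk : 6 ≤ k) {d : ℝ} (hd : 0 < d) (ha : alpha d * k < 2 * Real.pi)
    {P : Finset ℍ} (hP : Sep d P) (hn : 6 ≤ P.card) :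
    (k - 4) * cd d P + 6 * k ≤ 2 * (2 * k - 7) * P.card + 12 := by
  rcases main_ind71 hk hd ha (P.card - 2) P (by omega) hP with h | h
  · obtain ⟨m, rfl⟩ := Nat.exists_eq_add_of_le hk
    have e1 : 6 + m - 4 = m + 2 := by omega
    have e2 : 2 * (6 + m) - 7 = 2 * m + 5 := by omega
    rw [e1, e2]
    have h2 : (m + 2) * (cd d P + 6) ≤ (m + 2) * (4 * P.card) := Nat.mul_le_mul_left _ h
    nlinarith
  · exact h

/-- E3: small configurations -/
theorem main_small' {d : ℝ} (hd : 0 < d) {P : Finset ℍ} (hP : Sep d P) (hn : 2 ≤ P.card)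
    (hn6 : P.card ≤ 6) : cd d P + 6 ≤ 4 * P.card := by
  have ha : alpha d * ((6 : ℕ) : ℝ) < 2 * Real.pi := by
    have := alpha_lt hd
    push_cast
    linarith
  rcases main_ind71 (le_refl 6) hd ha (P.card - 2) P (by omega) hP with h | h
  · exact h
  · omega

end

end Pool.Agent.PEN
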