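import Pool.Agent.PEN.Defs

/-! # Cell F: the strip of the order 7 triangular tiling (geometry)

The points are `V (t, p)`, `t = 0` the centres, `t = 1` the middle outer points, `t = 2` the outer
points shared by two centres, all at position `p` along the imaginary axis. With
`k = 2 cos (2 pi / 7)` all the hyperbolic cosines of the distances lie in the ring of `k`. -/

set_option autoImplicit false

namespace Pool.Agent.PEN

open Classical UpperHalfPlane

noncomputable section

/-! ### points in axial coordinates -/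

/-- the point at position `a` on the imaginary axis and at signed distance `b` from it, with
`S = sinh b`, `C = cosh b` -/
def pt40 (a S C : ℝ) (hC : 0 < C) : ℍ :=
  ⟨⟨Real.exp a * S / C, Real.exp a / C⟩, div_pos (Real.exp_pos a) hC⟩

theorem cosh_pt40 {a b S C T D : ℝ} (hC : 0 < C) (hD : 0 < D) (h1 : C ^ 2 = S ^ 2 + 1)
    (h2 : D ^ 2 = T ^ 2 + 1) :
    Real.cosh (dist (pt40 a S C hC) (pt40 b T D hD)) = C * D * Real.cosh (a - b) - S * T := by
  have hE := Real.exp_pos a
  have hF := Real.exp_pos b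
  rw [UpperHalfPlane.cosh_dist, Complex.dist_eq, Complex.sq_norm, Complex.normSq_apply]
  have e1 : (((pt40 a S C hC : ℍ) : ℂ) - ((pt40 b T D hD : ℍ) : ℂ)).re
      = Real.exp a * S / C - Real.exp b * T / D := by simp [pt40]
  have e2 : (((pt40 a S C hC : ℍ) : ℂ) - ((pt40 b T D hD : ℍ) : ℂ)).im
      = Real.exp a / C - Real.exp b / D := by simp [pt40]
  have e3 : (pt40 a S C hC).im = Real.exp a / C := rfl
  have e4 : (pt40 b T D hD).im = Real.exp b / D := rfl
  rw [e1, e2, e3, e4]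
  have e5 : Real.cosh (a - b)
      = (Real.exp a / Real.exp b + Real.exp b / Real.exp a) / 2 := by
    rw [Real.cosh_eq, neg_sub, Real.exp_sub, Real.exp_sub]
  rw [e5]
  generalize Real.exp a = E at *
  generalize Real.exp b = F at *
  field_simp
  have k1 : S ^ 2 = C ^ 2 - 1 := by linarith
  have k2 : T ^ 2 = D ^ 2 - 1 := by linarith
  ring_nf
  rw [k1, k2]
  ring

/-! ### the number `2 cos (2 pi / 7)` -/

/-- `2 cos (2 pi / 7)` -/
def kap40 : ℝ := 2 * Real.cos (2 * Real.pi / 7)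

theorem kap_one_lt : 1 < kap40 := by
  have h : Real.cos (Real.pi / 3) < Real.cos (2 * Real.pi / 7) := by
    apply Real.cos_lt_cos_of_nonneg_of_le_pi
    · positivity
    · linarith [Real.pi_pos]
    · linarith [Real.pi_pos]
  rw [Real.cos_pi_div_three] at h
  unfold kap40
  linarith

theorem kap_lt_two : kap40 < 2 := by
  have h : Real.cos (2 * Real.pi / 7) < Real.cos 0 := by
    apply Real.cos_lt_cos_of_nonneg_of_le_pi
    · exact le_refl 0
    · linarith [Real.pi_pos]
    · have := Real.pi_pos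
      positivity
  rw [Real.cos_zero] at h
  unfold kap40
  linarith

theorem kap_cubic : kap40 ^ 3 + kap40 ^ 2 - 2 * kap40 - 1 = 0 := by
  set x := Real.cos (2 * Real.pi / 7) with hx
  have h3 : Real.cos (3 * (2 * Real.pi / 7)) = 4 * x ^ 3 - 3 * x := Real.cos_three_mul _
  have h4 : Real.cos (2 * (2 * (2 * Real.pi / 7))) = 2 * (2 * x ^ 2 - 1) ^ 2 - 1 := by
    rw [Real.cos_two_mul, Real.cos_two_mul]
  have h5 : Real.cos (2 * (2 * (2 * Real.pi / 7))) = Real.cos (3 * (2 * Real.pi / 7)) := by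
    rw [← Real.cos_two_pi_sub]
    congr 1
    ring
  have hk : kap40 = 2 * x := rfl
  have h1 : x ≠ 1 := by
    have := kap_lt_two
    rw [hk] at this
    intro h
    linarith
  have h6 : (x - 1) * (8 * x ^ 3 + 4 * x ^ 2 - 4 * x - 1) = 0 := by
    have : 2 * (2 * x ^ 2 - 1) ^ 2 - 1 = 4 * x ^ 3 - 3 * x := by
      rw [← h4, ← h3, h5]
    linear_combination this
  rcases mul_eq_zero.1 h6 with h | h
  · exact absurd (by linarith) h1
  · rw [hk]
    linear_combination h

theorem cosh_d40 {d : ℝ} (hd : 0 < d) (ha : alpha d = 2 * Real.pi / 7) :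
    Real.cosh d = kap40 / (2 - kap40) := by
  have hc : 1 < Real.cosh d := Real.one_lt_cosh.2 hd.ne'
  have hs : 0 < Real.sinh d := Real.sinh_pos_iff.2 hd
  have e1 : Real.tanh (d / 2) / Real.tanh d = Real.cosh d / (Real.cosh d + 1) := by
    have c2 : Real.cosh d = Real.cosh (d / 2) ^ 2 + Real.sinh (d / 2) ^ 2 := by
      rw [← Real.cosh_two_mul]; congr 1; ring
    have s2 : Real.sinh d = 2 * Real.sinh (d / 2) * Real.cosh (d / 2) := by
      rw [← Real.sinh_two_mul]; congr 1; ring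
    have c3 : Real.cosh (d / 2) ^ 2 = Real.sinh (d / 2) ^ 2 + 1 := Real.cosh_sq _
    have p1 : 0 < Real.cosh (d / 2) := Real.cosh_pos _
    have p2 : 0 < Real.sinh (d / 2) := Real.sinh_pos_iff.2 (by linarith)
    rw [Real.tanh_eq_sinh_div_cosh, Real.tanh_eq_sinh_div_cosh, s2]
    have c4 : Real.cosh d + 1 = 2 * Real.cosh (d / 2) ^ 2 := by
      rw [c2, c3]; ring
    rw [c4]
    have p3 : Real.cosh d ≠ 0 := (Real.cosh_pos d).ne'
    field_simp
  have e2 : Real.cos (alpha d) = Real.cosh d / (Real.cosh d + 1) := by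
    unfold alpha
    rw [e1, Real.cos_arccos]
    · have : 0 < Real.cosh d / (Real.cosh d + 1) := by positivity
      linarith
    · rw [div_le_one (by linarith)]
      linarith
  rw [ha] at e2
  have h2 := kap_lt_two
  have e3 : kap40 = 2 * (Real.cosh d / (Real.cosh d + 1)) := by
    unfold kap40
    rw [e2]
  rw [eq_div_iff (by linarith), e3]
  field_simp
  ring

/-! ### the constants of the strip -/

/-- the common denominator -/
def den40 : ℝ := (2 - kap40) * (3 + kap40)

theorem den_pos40 : 0 < den40 := by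
  have h1 := kap_one_lt
  have h2 := kap_lt_two
  unfold den40
  exact mul_pos (by linarith) (by linarith)

/-- `cosh` of the distance of the centres from the axis -/
def cc40 : ℝ := Real.sqrt (4 / den40)

/-- `sinh` of the distance of the centres from the axis -/
def ss40 : ℝ := Real.sqrt ((kap40 + 2) * (kap40 - 1) / den40)

theorem cc_pos40 : 0 < cc40 := Real.sqrt_pos.2 (div_pos (by norm_num) den_pos40)

theorem cc_sq40 : cc40 ^ 2 = 4 / den40 :=
  Real.sq_sqrt (div_pos (by norm_num) den_pos40).le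

theorem ss_sq40 : ss40 ^ 2 = (kap40 + 2) * (kap40 - 1) / den40 := by
  apply Real.sq_sqrt
  have h1 := kap_one_lt
  exact (div_pos (mul_pos (by linarith) (by linarith)) den_pos40).le

/-- factor of `cosh` for the three kinds of points -/
def gam40 : Fin 3 → ℝ := ![1, kap40 + 1, kap40 ^ 2 + kap40 - 1]

/-- factor of `sinh` for the three kinds of points -/
def sig40 : Fin 3 → ℝ := ![1, 2 * kap40 ^ 2 + 2 * kap40 - 1, -(2 * kap40 + 1)]

theorem gam_pos40 (t : Fin 3) : 0 < gam40 t := by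
  have h1 := kap_one_lt
  fin_cases t <;> simp [gam40] <;> nlinarith

/-- half the translation length -/
def ell40 : ℝ := Real.arcosh ((1 + kap40) / 2)

theorem cosh_ell40 : Real.cosh ell40 = (1 + kap40) / 2 := by
  apply Real.cosh_arcosh
  linarith [kap_one_lt]

theorem norm40 (t : Fin 3) : (gam40 t * cc40) ^ 2 = (sig40 t * ss40) ^ 2 + 1 := by
  have hd := den_pos40.ne'
  have hk := kap_cubic
  rw [mul_pow, mul_pow, cc_sq40, ss_sq40]
  field_simp
  unfold den40
  fin_cases t
  · simp [gam40, sig40]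
    ring
  · simp [gam40, sig40]
    linear_combination (-8 * kap40 ^ 2 - 4 * kap40 ^ 3) * hk
  · simp [gam40, sig40]
    ring

/-- the points of the strip -/
def V40 (x : Fin 3 × ℕ) : ℍ :=
  pt40 (x.2 * ell40) ((-1) ^ x.2 * (sig40 x.1 * ss40)) (gam40 x.1 * cc40)
    (mul_pos (gam_pos40 x.1) cc_pos40)

theorem sgn_sq40 (m : ℕ) (z : ℝ) : ((-1) ^ m * z) ^ 2 = z ^ 2 := by
  rw [mul_pow, ← pow_mul, mul_comm m 2, pow_mul]
  simp

/-- the values of `cosh dist` -/
def G40 (t u : Fin 3) (n : ℕ) : ℝ :=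
  gam40 t * gam40 u * (4 / den40) * Real.cosh (n * ell40)
    - (-1) ^ n * (sig40 t * sig40 u * ((kap40 + 2) * (kap40 - 1) / den40))

theorem G_symm40 (t u : Fin 3) (n : ℕ) : G40 t u n = G40 u t n := by
  unfold G40; ring

theorem cosh_V40 (t u : Fin 3) (p n : ℕ) :
    Real.cosh (dist (V40 (t, p)) (V40 (u, p + n))) = G40 t u n := by
  unfold V40
  rw [cosh_pt40]
  · unfold G40
    rw [← cc_sq40, ← ss_sq40]
    have e1 : Real.cosh ((p : ℝ) * ell40 - ((p + n : ℕ) : ℝ) * ell40)
        = Real.cosh (n * ell40) := by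
      rw [← Real.cosh_neg]
      congr 1
      push_cast
      ring
    have e2 : ((-1 : ℝ)) ^ (p + n) = (-1) ^ p * (-1) ^ n := pow_add _ _ _
    have e3 : ((-1 : ℝ)) ^ p * (-1) ^ p = 1 := by
      rw [← mul_pow]; simp
    simp only
    rw [e1, e2]
    linear_combination (-(sig40 t * sig40 u * ss40 ^ 2 * (-1) ^ n)) * e3
  · simp only
    rw [sgn_sq40]
    exact norm40 t
  · simp only
    rw [sgn_sq40]
    exact norm40 u

theorem G_mono40 (t u : Fin 3) (n : ℕ) : G40 t u n ≤ G40 t u (n + 2) := by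
  unfold G40
  have h1 : ((-1 : ℝ)) ^ (n + 2) = (-1) ^ n := by
    rw [pow_add]; simp
  rw [h1]
  have h2 : Real.cosh ((n : ℝ) * ell40) ≤ Real.cosh (((n + 2 : ℕ) : ℝ) * ell40) := by
    rw [Real.cosh_le_cosh, abs_mul, abs_mul]
    apply mul_le_mul_of_nonneg_right _ (abs_nonneg _)
    rw [abs_of_nonneg (by positivity), abs_of_nonneg (by positivity)]
    push_cast
    linarith
  have h3 : 0 ≤ gam40 t * gam40 u * (4 / den40) :=
    mul_nonneg (mul_nonneg (gam_pos40 t).le (gam_pos40 u).le) (div_pos (by norm_num) den_pos40).le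
  nlinarith [mul_le_mul_of_nonneg_left h2 h3]

/-! ### the twelve base values -/

theorem T_zero40 : Real.cosh (((0 : ℕ) : ℝ) * ell40) = 1 := by simp

theorem T_one40 : Real.cosh (((1 : ℕ) : ℝ) * ell40) = (1 + kap40) / 2 := by
  rw [Nat.cast_one, one_mul, cosh_ell40]

theorem T_two40 : Real.cosh (((2 : ℕ) : ℝ) * ell40) = 2 * ((1 + kap40) / 2) ^ 2 - 1 := by
  have : ((2 : ℕ) : ℝ) * ell40 = 2 * ell40 := by norm_num
  rw [this, Real.cosh_two_mul, Real.sinh_sq, cosh_ell40]
  ring

/-- the value of `cosh d` -/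
def DD40 : ℝ := kap40 / (2 - kap40)

theorem DD_eq40 : DD40 = kap40 * (3 + kap40) / den40 := by
  have h1 := kap_one_lt
  have h2 := kap_lt_two
  unfold DD40 den40
  rw [div_eq_div_iff (by linarith) (mul_pos (by linarith) (by linarith)).ne']
  ring

/-- clearing the denominator -/
theorem G_sub40 (t u : Fin 3) (n : ℕ) : (G40 t u n - DD40) * den40
    = 4 * (gam40 t * gam40 u) * Real.cosh (n * ell40)
      - (-1) ^ n * (sig40 t * sig40 u) * ((kap40 + 2) * (kap40 - 1)) - kap40 * (3 + kap40) := by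
  have hd := den_pos40.ne'
  rw [DD_eq40]
  unfold G40
  field_simp

theorem G_le40 {t u : Fin 3} {n : ℕ} (h : 0 ≤ (G40 t u n - DD40) * den40) : DD40 ≤ G40 t u n := by
  have hd := den_pos40
  by_contra hlt
  push Not at hlt
  have : (G40 t u n - DD40) * den40 < 0 := mul_neg_of_neg_of_pos (by linarith) hd
  linarith

theorem G_eq40 {t u : Fin 3} {n : ℕ} (h : (G40 t u n - DD40) * den40 = 0) : G40 t u n = DD40 := by
  rcases mul_eq_zero.1 h with h | h
  · linarith
  · exact absurd h den_pos40.ne'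

theorem G001 : G40 0 0 1 = DD40 := by
  apply G_eq40
  rw [G_sub40, T_one40]
  simp [gam40, sig40]
  ring

theorem G002 : G40 0 0 2 = DD40 := by
  apply G_eq40
  rw [G_sub40, T_two40]
  simp [gam40, sig40]
  ring

theorem G010 : G40 0 1 0 = DD40 := by
  apply G_eq40
  rw [G_sub40, T_zero40]
  simp [gam40, sig40]
  linear_combination (-2 - 2 * kap40) * kap_cubic

theorem G021 : G40 0 2 1 = DD40 := by
  apply G_eq40
  rw [G_sub40, T_one40]
  simp [gam40, sig40]
  ring

theorem G121 : G40 1 2 1 = DD40 := by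
  apply G_eq40
  rw [G_sub40, T_one40]
  simp [gam40, sig40]
  linear_combination (4 - 4 * kap40 - 4 * kap40 ^ 2) * kap_cubic

theorem G111 : DD40 ≤ G40 1 1 1 := by
  apply G_le40
  rw [G_sub40, T_one40]
  have h1 := kap_one_lt
  have h3 := kap_cubic
  have e : 4 * (gam40 1 * gam40 1) * ((1 + kap40) / 2)
      - (-1) ^ 1 * (sig40 1 * sig40 1) * ((kap40 + 2) * (kap40 - 1)) - kap40 * (3 + kap40)
      = 2 + 16 * kap40 + 8 * kap40 ^ 2 := by
    simp [gam40, sig40]
    linear_combination (2 + 8 * kap40 ^ 2 + 4 * kap40 ^ 3) * h3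
  rw [e]
  positivity

theorem G112 : DD40 ≤ G40 1 1 2 := by
  apply G_le40
  rw [G_sub40, T_two40]
  have h1 := kap_one_lt
  have h3 := kap_cubic
  have e : 4 * (gam40 1 * gam40 1) * (2 * ((1 + kap40) / 2) ^ 2 - 1)
      - (-1) ^ 2 * (sig40 1 * sig40 1) * ((kap40 + 2) * (kap40 - 1)) - kap40 * (3 + kap40)
      = 6 + 2 * kap40 := by
    simp [gam40, sig40]
    linear_combination (6 + 2 * kap40 - 8 * kap40 ^ 2 - 4 * kap40 ^ 3) * h3
  rw [e]
  positivity

theorem G221 : DD40 ≤ G40 2 2 1 := by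
  apply G_le40
  rw [G_sub40, T_one40]
  have h1 := kap_one_lt
  have h3 := kap_cubic
  have e : 4 * (gam40 2 * gam40 2) * ((1 + kap40) / 2)
      - (-1) ^ 1 * (sig40 2 * sig40 2) * ((kap40 + 2) * (kap40 - 1)) - kap40 * (3 + kap40)
      = 6 + 8 * kap40 + 2 * kap40 ^ 2 := by
    simp [gam40, sig40]
    linear_combination (6 + 8 * kap40 + 2 * kap40 ^ 2) * h3
  rw [e]
  positivity

theorem G222 : DD40 ≤ G40 2 2 2 := by
  apply G_le40
  rw [G_sub40, T_two40]
  have h1 := kap_one_lt
  have h3 := kap_cubic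
  have e : 4 * (gam40 2 * gam40 2) * (2 * ((1 + kap40) / 2) ^ 2 - 1)
      - (-1) ^ 2 * (sig40 2 * sig40 2) * ((kap40 + 2) * (kap40 - 1)) - kap40 * (3 + kap40)
      = -4 + 2 * kap40 + 4 * kap40 ^ 2 := by
    simp [gam40, sig40]
    linear_combination (-4 - 2 * kap40 + 6 * kap40 ^ 2 + 2 * kap40 ^ 3) * h3
  rw [e]
  nlinarith

theorem G011 : DD40 ≤ G40 0 1 1 := by
  apply G_le40
  rw [G_sub40, T_one40]
  have h1 := kap_one_lt
  have h3 := kap_cubic
  have e : 4 * (gam40 0 * gam40 1) * ((1 + kap40) / 2)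
      - (-1) ^ 1 * (sig40 0 * sig40 1) * ((kap40 + 2) * (kap40 - 1)) - kap40 * (3 + kap40)
      = 6 + 2 * kap40 := by
    simp [gam40, sig40]
    linear_combination (2 + 2 * kap40) * h3
  rw [e]
  positivity

theorem G020 : DD40 ≤ G40 0 2 0 := by
  apply G_le40
  rw [G_sub40, T_zero40]
  have h1 := kap_one_lt
  have h3 := kap_cubic
  have e : 4 * (gam40 0 * gam40 2) * (1)
      - (-1) ^ 0 * (sig40 0 * sig40 2) * ((kap40 + 2) * (kap40 - 1)) - kap40 * (3 + kap40)
      = -4 + 2 * kap40 + 4 * kap40 ^ 2 := by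
    simp [gam40, sig40]
    linear_combination (2) * h3
  rw [e]
  nlinarith

theorem G120 : DD40 ≤ G40 1 2 0 := by
  apply G_le40
  rw [G_sub40, T_zero40]
  have h1 := kap_one_lt
  have h3 := kap_cubic
  have e : 4 * (gam40 1 * gam40 2) * (1)
      - (-1) ^ 0 * (sig40 1 * sig40 2) * ((kap40 + 2) * (kap40 - 1)) - kap40 * (3 + kap40)
      = 2 + 10 * kap40 + 6 * kap40 ^ 2 := by
    simp [gam40, sig40]
    linear_combination (4 + 6 * kap40 + 4 * kap40 ^ 2) * h3
  rw [e]
  positivity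

/-- all values are at least `cosh d` -/
theorem G_ge40 (t u : Fin 3) (n : ℕ) (h : t ≠ u ∨ n ≠ 0) : DD40 ≤ G40 t u n := by
  have key : ∀ m : ℕ, ∀ t u : Fin 3, (t ≠ u → DD40 ≤ G40 t u (2 * m) ∧ DD40 ≤ G40 t u (2 * m + 1)) ∧
      DD40 ≤ G40 t t (2 * m + 1) ∧ DD40 ≤ G40 t t (2 * m + 2) := by
    intro m
    induction m with
    | zero =>
      intro t u
      refine ⟨?_, ?_, ?_⟩
      · intro htu
        fin_cases t <;> fin_cases u
        · exact absurd rfl htu
        · exact ⟨G010.ge, G011⟩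
        · exact ⟨G020, G021.ge⟩
        · exact ⟨(G_symm40 _ _ _ ▸ G010.ge), (G_symm40 _ _ _ ▸ G011)⟩
        · exact absurd rfl htu
        · exact ⟨G120, G121.ge⟩
        · exact ⟨(G_symm40 _ _ _ ▸ G020), (G_symm40 _ _ _ ▸ G021.ge)⟩
        · exact ⟨(G_symm40 _ _ _ ▸ G120), (G_symm40 _ _ _ ▸ G121.ge)⟩
        · exact absurd rfl htu
      · fin_cases t
        · exact G001.ge
        · exact G111
        · exact G221
      · fin_cases t
        · exact G002.ge
        · exact G112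
        · exact G222
    | succ m ih =>
      intro t u
      obtain ⟨h1, h2, h3⟩ := ih t u
      refine ⟨?_, ?_, ?_⟩
      · intro htu
        obtain ⟨h4, h5⟩ := h1 htu
        exact ⟨h4.trans (G_mono40 t u (2 * m)), h5.trans (G_mono40 t u (2 * m + 1))⟩
      · exact h2.trans (G_mono40 t t (2 * m + 1))
      · exact h3.trans (G_mono40 t t (2 * m + 2))
  rcases Nat.even_or_odd' n with ⟨m, hm | hm⟩
  · by_cases htu : t = u
    · subst htu
      rcases m with _ | m
      · rcases h with h | h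
        · exact absurd rfl h
        · exact absurd hm (by simpa using h)
      · have := (key m t t).2.2
        rw [hm]
        exact this
    · rw [hm]
      exact ((key m t u).1 htu).1
  · by_cases htu : t = u
    · subst htu
      rw [hm]
      exact (key m t t).2.1
    · rw [hm]
      exact ((key m t u).1 htu).2

/-- distances of different points are at least `d` -/
theorem V_sep40 {d : ℝ} (hd : 0 < d) (ha : alpha d = 2 * Real.pi / 7) (x y : Fin 3 × ℕ)
    (hxy : x ≠ y) : d ≤ dist (V40 x) (V40 y) := by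
  have hD : Real.cosh d = DD40 := cosh_d40 hd ha
  have key : ∀ (t u : Fin 3) (p n : ℕ), (t ≠ u ∨ n ≠ 0) →
      d ≤ dist (V40 (t, p)) (V40 (u, p + n)) := by
    intro t u p n h
    have h1 := G_ge40 t u n h
    rw [← cosh_V40 t u p n, ← hD, Real.cosh_le_cosh, abs_of_pos hd, abs_of_nonneg dist_nonneg] at h1
    exact h1
  obtain ⟨t, p⟩ := x
  obtain ⟨u, q⟩ := y
  rcases le_total p q with h | h
  · obtain ⟨n, rfl⟩ := Nat.exists_eq_add_of_le h
    apply key
    by_contra hc
    push Not at hc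
    exact hxy (by rw [hc.1, hc.2]; rfl)
  · obtain ⟨n, rfl⟩ := Nat.exists_eq_add_of_le h
    rw [dist_comm]
    apply key
    by_contra hc
    push Not at hc
    exact hxy (by rw [hc.1, hc.2]; rfl)

theorem V_inj40 {d : ℝ} (hd : 0 < d) (ha : alpha d = 2 * Real.pi / 7) :
    Function.Injective V40 := by
  intro x y h
  by_contra hxy
  have := V_sep40 hd ha x y hxy
  rw [h, dist_self] at this
  linarith

/-- a value `G = cosh d` is a contact -/
theorem V_con40 {d : ℝ} (hd : 0 < d) (ha : alpha d = 2 * Real.pi / 7) {t u : Fin 3} {n : ℕ}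
    (h : G40 t u n = DD40) (p : ℕ) : dist (V40 (t, p)) (V40 (u, p + n)) = d := by
  have hD : Real.cosh d = DD40 := cosh_d40 hd ha
  rw [← cosh_V40 t u p n, ← hD] at h
  exact Real.cosh_injOn (Set.mem_Ici.2 dist_nonneg) (Set.mem_Ici.2 hd.le) h

/-- the five kinds of contacts -/
theorem con_cc1 {d : ℝ} (hd : 0 < d) (ha : alpha d = 2 * Real.pi / 7) (p : ℕ) :
    dist (V40 (0, p)) (V40 (0, p + 1)) = d := V_con40 hd ha G001 p

theorem con_cc2 {d : ℝ} (hd : 0 < d) (ha : alpha d = 2 * Real.pi / 7) (p : ℕ) :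
    dist (V40 (0, p)) (V40 (0, p + 2)) = d := V_con40 hd ha G002 p

theorem con_cm {d : ℝ} (hd : 0 < d) (ha : alpha d = 2 * Real.pi / 7) (p : ℕ) :
    dist (V40 (0, p)) (V40 (1, p)) = d := V_con40 hd ha G010 p

theorem con_cs {d : ℝ} (hd : 0 < d) (ha : alpha d = 2 * Real.pi / 7) (p : ℕ) :
    dist (V40 (0, p)) (V40 (2, p + 1)) = d := V_con40 hd ha G021 p

theorem con_sc {d : ℝ} (hd : 0 < d) (ha : alpha d = 2 * Real.pi / 7) (p : ℕ) :
    dist (V40 (2, p)) (V40 (0, p + 1)) = d :=
  V_con40 hd ha ((G_symm40 2 0 1).trans G021) p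

theorem con_ms {d : ℝ} (hd : 0 < d) (ha : alpha d = 2 * Real.pi / 7) (p : ℕ) :
    dist (V40 (1, p)) (V40 (2, p + 1)) = d := V_con40 hd ha G121 p

theorem con_sm {d : ℝ} (hd : 0 < d) (ha : alpha d = 2 * Real.pi / 7) (p : ℕ) :
    dist (V40 (2, p)) (V40 (1, p + 1)) = d :=
  V_con40 hd ha ((G_symm40 2 1 1).trans G121) p

end

end Pool.Agent.PEN
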