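import Pool.Agent.PEN.E71d

/-! # Hyperbolic penny graphs: final forms -/

set_option autoImplicit false

namespace Pool.Agent.PEN

open Classical UpperHalfPlane

noncomputable section

/-- `e_d(n)` is attained -/
theorem eD_greatest {d : ℝ} (hd : 0 < d) (n : ℕ) :
    IsGreatest {m : ℕ | ∃ P : Finset ℍ, P.card = n ∧
      (∀ x ∈ P, ∀ y ∈ P, x ≠ y → d ≤ dist x y) ∧ numEdges d P = m} (eD d n) := by
  have hb : BddAbove {m : ℕ | ∃ P : Finset ℍ, P.card = n ∧
      (∀ x ∈ P, ∀ y ∈ P, x ≠ y → d ≤ dist x y) ∧ numEdges d P = m} := by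
    refine ⟨eD d n, ?_⟩
    rintro m ⟨P, hc, hs, rfl⟩
    exact le_eD hd hc hs
  obtain ⟨P, hc, hs⟩ := exists_sep hd n
  refine ⟨Nat.sSup_mem ⟨_, P, hc, hs, rfl⟩ hb, ?_⟩
  rintro m ⟨Q, hc', hs', rfl⟩
  exact le_eD hd hc' hs'

/-- there is exactly one diameter with angle `2π/m`, for `m ≥ 7` -/
theorem exists_unique_dm {m : ℕ} (hm : 7 ≤ m) :
    ∃ d : ℝ, 0 < d ∧ alpha d = 2 * Real.pi / m ∧ ∀ e : ℝ, 0 < e → alpha e = 2 * Real.pi / m → e = d := by
  obtain ⟨d, hd, h⟩ := exists_dm hm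
  refine ⟨d, hd, h, fun e he h2 => ?_⟩
  rcases lt_trichotomy e d with h3 | h3 | h3
  · have := alpha_anti he h3
    rw [h, h2] at this
    exact absurd this (lt_irrefl _)
  · exact h3
  · have := alpha_anti hd h3
    rw [h, h2] at this
    exact absurd this (lt_irrefl _)

/-- the general bound, in real form -/
theorem eD_bound_real {k : ℕ} (hk : 6 ≤ k) {d : ℝ} (hd : 0 < d) (ha : alpha d < 2 * Real.pi / k)
    {n : ℕ} (hn : 6 ≤ n) :
    (eD d n : ℝ) ≤ ((2 * k - 7) * n - 3 * (k - 2)) / (k - 4) := by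
  have h := eD_bound hk hd ha hn
  obtain ⟨m, rfl⟩ := Nat.exists_eq_add_of_le hk
  have e1 : 6 + m - 4 = m + 2 := by omega
  have e2 : 2 * (6 + m) - 7 = 2 * m + 5 := by omega
  have e3 : 6 + m - 2 = m + 4 := by omega
  rw [e1, e2, e3] at h
  have h' : (((m + 2) * eD d n + 3 * (m + 4) : ℕ) : ℝ) ≤ (((2 * m + 5) * n : ℕ) : ℝ) := by
    exact_mod_cast h
  push_cast at h' ⊢
  have hm : (0 : ℝ) ≤ m := Nat.cast_nonneg m
  rw [le_div_iff₀ (by linarith)]
  nlinarith

/-- sharpness at `n = k + 2` -/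
theorem eD_sharp {k : ℕ} (hk : 6 ≤ k) {d : ℝ} (hd : 0 < d)
    (ha : alpha d = 2 * Real.pi / (k + 1 : ℕ)) : eD d (k + 2) = 2 * (k + 1) := by
  apply le_antisymm
  · have hkp : (0 : ℝ) < k := by
      have : (6 : ℝ) ≤ k := by exact_mod_cast hk
      linarith
    have h := eD_bound (n := k + 2) hk hd (by
      rw [ha, div_lt_div_iff₀ (by positivity) hkp]
      have := Real.pi_pos
      push_cast
      nlinarith) (by omega)
    obtain ⟨m, rfl⟩ := Nat.exists_eq_add_of_le hk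
    have e1 : 6 + m - 4 = m + 2 := by omega
    have e2 : 2 * (6 + m) - 7 = 2 * m + 5 := by omega
    have e3 : 6 + m - 2 = m + 4 := by omega
    rw [e1, e2, e3] at h
    have h2 : (m + 2) * eD d (6 + m + 2) ≤ (m + 2) * (2 * (6 + m + 1)) := by nlinarith
    exact Nat.le_of_mul_le_mul_left h2 (by omega)
  · obtain ⟨P, hc, hs, h⟩ := star_gen (m := k + 1) (by omega) hd ha
    have h1 := le_eD hd (n := k + 2) hc hs
    have h2 := two_numEdges hd P
    omega

end

end Pool.Agent.PEN
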