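import Pool.Agent.PEN.Defs

set_option linter.all false

/-!
# Plane segments: orientation, barycentric coordinates, exits from a triangle
-/

namespace Pool.Agent.PEN

theorem ori_rot (a b c : ℝ × ℝ) : ori b c a = ori a b c := by simp only [ori]; ring

theorem ori_rot' (a b c : ℝ × ℝ) : ori c a b = ori a b c := by simp only [ori]; ring

theorem ori_swap (a b c : ℝ × ℝ) : ori b a c = - ori a b c := by simp only [ori]; ring

theorem ori_swap' (a b c : ℝ × ℝ) : ori a c b = - ori a b c := by simp only [ori]; ring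

theorem ori_swap3 (a b c : ℝ × ℝ) : ori c b a = - ori a b c := by simp only [ori]; ring

@[simp] theorem ori_aab (a b : ℝ × ℝ) : ori a a b = 0 := by simp only [ori]; ring

@[simp] theorem ori_aba (a b : ℝ × ℝ) : ori a b a = 0 := by simp only [ori]; ring

@[simp] theorem ori_abb (a b : ℝ × ℝ) : ori a b b = 0 := by simp only [ori]; ring

theorem ori_comb (A B x y : ℝ × ℝ) {s t : ℝ} (h : s + t = 1) :
    ori A B (s • x + t • y) = s * ori A B x + t * ori A B y := by
  obtain rfl : s = 1 - t := by linarith
  simp only [ori, Prod.fst_add, Prod.snd_add, Prod.smul_fst, Prod.smul_snd, smul_eq_mul]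
  ring

theorem ori_comb2 (A B x y : ℝ × ℝ) {s t : ℝ} (h : s + t = 1) :
    ori A (s • x + t • y) B = s * ori A x B + t * ori A y B := by
  rw [ori_swap', ori_comb _ _ _ _ h, ori_swap' A B x, ori_swap' A B y]
  ring

theorem ori_comb1 (A B x y : ℝ × ℝ) {s t : ℝ} (h : s + t = 1) :
    ori (s • x + t • y) A B = s * ori x A B + t * ori y A B := by
  rw [← ori_rot, ori_comb _ _ _ _ h, ori_rot x A B, ori_rot y A B]

theorem ori_sum (A B C X : ℝ × ℝ) : ori B C X + ori C A X + ori A B X = ori A B C := by
  simp only [ori]; ring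

theorem ori_bary (A B C X : ℝ × ℝ) :
    ori A B C • X = ori B C X • A + ori C A X • B + ori A B X • C := by
  ext
  · simp only [ori, Prod.fst_add, Prod.snd_add, Prod.smul_fst, Prod.smul_snd, smul_eq_mul]
    ring
  · simp only [ori, Prod.fst_add, Prod.snd_add, Prod.smul_fst, Prod.smul_snd, smul_eq_mul]
    ring

theorem bary {A B C : ℝ × ℝ} (h : ori A B C ≠ 0) (X : ℝ × ℝ) :
    X = (ori B C X / ori A B C) • A + (ori C A X / ori A B C) • B +
      (ori A B X / ori A B C) • C := by
  have e := ori_bary A B C X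
  have e2 : X = (ori A B C)⁻¹ • (ori A B C • X) := by
    rw [smul_smul, inv_mul_cancel₀ h, one_smul]
  conv_lhs => rw [e2, e]
  rw [smul_add, smul_add, smul_smul, smul_smul, smul_smul]
  simp only [div_eq_inv_mul]

theorem bary_sum {A B C : ℝ × ℝ} (h : ori A B C ≠ 0) (X : ℝ × ℝ) :
    ori B C X / ori A B C + ori C A X / ori A B C + ori A B X / ori A B C = 1 := by
  rw [← add_div, ← add_div, ori_sum, div_self h]

/-- a point with one vanishing coordinate and two positive ones -/
theorem mem_side {A B C : ℝ × ℝ} (h : ori A B C ≠ 0) {X : ℝ × ℝ}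
    (h1 : ori C A X / ori A B C = 0) (h2 : 0 < ori B C X / ori A B C)
    (h3 : 0 < ori A B X / ori A B C) : X ∈ openSegment ℝ A C := by
  have hs := bary_sum h X
  have hb := bary h X
  rw [h1] at hs hb
  refine ⟨_, _, h2, h3, by linarith, ?_⟩
  rw [zero_smul, add_zero] at hb
  exact hb.symm

theorem mem_vertex {A B C : ℝ × ℝ} (h : ori A B C ≠ 0) {X : ℝ × ℝ}
    (h1 : ori C A X / ori A B C = 0) (h2 : ori B C X / ori A B C = 0) : X = C := by
  have hs := bary_sum h X
  have hb := bary h X
  rw [h1, h2] at hs hb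
  have : ori A B X / ori A B C = 1 := by linarith
  rw [this, zero_smul, zero_smul, one_smul, zero_add, zero_add] at hb
  exact hb

/-- **exit lemma**: go from a point `y` of the side `(A, B)` to a point `u` on the side of `C`:
either `u` is in the triangle or one leaves it through the two other sides -/
theorem exit_tri {A B C y u : ℝ × ℝ} (hD : ori A B C ≠ 0) (hy : y ∈ openSegment ℝ A B)
    (hu : 0 < ori A B u / ori A B C) :
    (0 ≤ ori B C u / ori A B C ∧ 0 ≤ ori C A u / ori A B C) ∨
      ∃ z ∈ openSegment ℝ y u, z ∈ openSegment ℝ A C ∨ z ∈ openSegment ℝ B C ∨ z = C := by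
  obtain ⟨s, t, hs, ht, hst, rfl⟩ := hy
  set ua := ori B C u / ori A B C with hua
  set ub := ori C A u / ori A B C with hub
  set uc := ori A B u / ori A B C with huc
  have hAy : ori B C (s • A + t • B) / ori A B C = s := by
    rw [ori_comb _ _ _ _ hst, ori_aba, mul_zero, add_zero, ori_rot, mul_div_assoc, div_self hD,
      mul_one]
  have hBy : ori C A (s • A + t • B) / ori A B C = t := by
    rw [ori_comb _ _ _ _ hst, ori_abb, mul_zero, zero_add, ori_rot', mul_div_assoc, div_self hD,
      mul_one]
  have hCy : ori A B (s • A + t • B) / ori A B C = 0 := by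
    rw [ori_comb _ _ _ _ hst, ori_aba, ori_abb, mul_zero, mul_zero, add_zero, zero_div]
  have coord : ∀ (P Q : ℝ × ℝ) (τ : ℝ), ori P Q ((1 - τ) • (s • A + t • B) + τ • u) / ori A B C =
      (1 - τ) * (ori P Q (s • A + t • B) / ori A B C) + τ * (ori P Q u / ori A B C) := by
    intro P Q τ
    rw [ori_comb _ _ _ _ (by ring)]
    ring
  -- leaving through `B C` or `C`
  have caseA : ua < 0 → 0 ≤ s * ub - ua * t → ∃ z ∈ openSegment ℝ (s • A + t • B) u,
      z ∈ openSegment ℝ A C ∨ z ∈ openSegment ℝ B C ∨ z = C := by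
    intro h1 h2
    have hpos : 0 < s - ua := by linarith
    set τ := s / (s - ua) with hτ
    have hτ0 : 0 < τ := div_pos hs hpos
    have hτ1 : τ < 1 := by rw [hτ, div_lt_one hpos]; linarith
    have hτe : τ * (s - ua) = s := by rw [hτ]; field_simp
    refine ⟨(1 - τ) • (s • A + t • B) + τ • u, ⟨1 - τ, τ, by linarith, hτ0, by ring, rfl⟩, ?_⟩
    have c1 := coord B C τ
    have c2 := coord C A τ
    have c3 := coord A B τ
    rw [hAy, ← hua] at c1
    rw [hBy, ← hub] at c2
    rw [hCy, ← huc] at c3
    have e1 : (1 - τ) * s + τ * ua = 0 := by linear_combination -hτe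
    have e2 : 0 ≤ (1 - τ) * t + τ * ub := by
      have : (s - ua) * ((1 - τ) * t + τ * ub) = s * ub - ua * t := by
        linear_combination (ub - t) * hτe
      by_contra hneg
      push Not at hneg
      nlinarith
    have e3 : 0 < (1 - τ) * 0 + τ * uc := by
      rw [mul_zero, zero_add]; exact mul_pos hτ0 hu
    rcases e2.lt_or_eq with e2 | e2
    · right; left
      have hD' : ori B A C ≠ 0 := by rw [ori_swap]; exact neg_ne_zero.2 hD
      refine mem_side hD' ?_ ?_ ?_
      · rw [ori_swap, ori_swap A B C, neg_div_neg_eq, c1, e1]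
      · rw [ori_swap, ori_swap A B C, neg_div_neg_eq, c2]; exact e2
      · rw [ori_swap, ori_swap A B C, neg_div_neg_eq, c3]; exact e3
    · right; right
      exact mem_vertex hD (by rw [c2]; exact e2.symm) (by rw [c1]; exact e1)
  -- leaving through `A C`
  have caseB : ub < 0 → 0 < t * ua - ub * s → ∃ z ∈ openSegment ℝ (s • A + t • B) u,
      z ∈ openSegment ℝ A C ∨ z ∈ openSegment ℝ B C ∨ z = C := by
    intro h1 h2
    have hpos : 0 < t - ub := by linarith
    set τ := t / (t - ub) with hτ
    have hτ0 : 0 < τ := div_pos ht hpos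
    have hτ1 : τ < 1 := by rw [hτ, div_lt_one hpos]; linarith
    have hτe : τ * (t - ub) = t := by rw [hτ]; field_simp
    refine ⟨(1 - τ) • (s • A + t • B) + τ • u, ⟨1 - τ, τ, by linarith, hτ0, by ring, rfl⟩, ?_⟩
    have c1 := coord B C τ
    have c2 := coord C A τ
    have c3 := coord A B τ
    rw [hAy, ← hua] at c1
    rw [hBy, ← hub] at c2
    rw [hCy, ← huc] at c3
    have e1 : (1 - τ) * t + τ * ub = 0 := by linear_combination -hτe
    have e2 : 0 < (1 - τ) * s + τ * ua := by
      have : (t - ub) * ((1 - τ) * s + τ * ua) = t * ua - ub * s := by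
        linear_combination (ua - s) * hτe
      by_contra hneg
      push Not at hneg
      nlinarith
    have e3 : 0 < (1 - τ) * 0 + τ * uc := by
      rw [mul_zero, zero_add]; exact mul_pos hτ0 hu
    left
    refine mem_side hD ?_ ?_ ?_
    · rw [c2, e1]
    · rw [c1]; exact e2
    · rw [c3]; exact e3
  rcases le_or_gt 0 ua with h1 | h1
  · rcases le_or_gt 0 ub with h2 | h2
    · exact Or.inl ⟨h1, h2⟩
    · exact Or.inr (caseB h2 (by nlinarith))
  · rcases le_or_gt 0 (s * ub - ua * t) with h2 | h2
    · exact Or.inr (caseA h1 h2)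
    · have h3 : ub < 0 := by
        by_contra h
        push Not at h
        nlinarith
      exact Or.inr (caseB h3 (by nlinarith))

end Pool.Agent.PEN
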