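import Pool.Agent.PEN.Defs2
import Pool.Agent.PEN.A27
import Pool.Agent.PNY.R5h39

/-! # Line M: the maximal non-crossing triangulation gives the interface `PTri0` (helper27) -/

set_option autoImplicit false
set_option linter.all false

namespace Pool.Agent.PEN

open Classical UpperHalfPlane

/-- no edge from `v` enters the open angle of a triangle at `v` -/
theorem angle27 {P : Finset Pt} {T : Pt → Pt → Prop} (hT : IsTrg P T) {v a b c : Pt}
    (h : IsT P T v a b) (hc : T v c) : ¬ (0 < ori v a c ∧ 0 < ori v c b) := by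
  rintro ⟨h1, h2⟩
  obtain ⟨hva, hab, hbv, hD, hem⟩ := h
  have hcP : c ∈ P := (hT.mem _ _ hc).2
  have key : ori a b c = ori v a b - (ori v c b + ori v a c) := by simp only [ori]; ring
  have key2 : ori b v c = ori v c b := by simp only [ori]; ring
  rcases le_or_gt (ori v c b + ori v a c) (ori v a b) with hle | hgt
  · rcases hem c hcP h1.le (by rw [key]; linarith) (by rw [key2]; exact h2.le) with h | h | h
    · exact hT.ne _ _ hc h.symm
    · rw [h] at h1
      have : ori v a a = 0 := by simp only [ori]; ring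
      rw [this] at h1; exact lt_irrefl _ h1
    · rw [h] at h2
      have : ori v b b = 0 := by simp only [ori]; ring
      rw [this] at h2; exact lt_irrefl _ h2
  · have hs : 0 < ori v c b + ori v a c := by linarith
    have ht1 : ori v a b / (ori v c b + ori v a c) < 1 := by rw [div_lt_one hs]; exact hgt
    have ht0 : 0 < ori v a b / (ori v c b + ori v a c) := div_pos hD hs
    have hs1 : ori v a c / (ori v c b + ori v a c) < 1 := by rw [div_lt_one hs]; linarith
    have hs0 : 0 < ori v a c / (ori v c b + ori v a c) := div_pos h1 hs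
    refine hT.noncross _ _ _ _ hc hab (PG27.cross_of_mem hs0 hs1 ht0 ht1 ?_ ?_)
    · refine PG27.frame_ext (a := v) (b := a) (c := b) (show ori v a b ≠ 0 from hD.ne') ?_ ?_
      · rw [PG27.det_c2, PG27.det_c2, PG27.det_abb, PG27.det_aab]
        show (1 - ori v a c / (ori v c b + ori v a c)) * ori v a b + _ * 0
          = (1 - ori v a b / (ori v c b + ori v a c)) * 0 + _ * ori v c b
        field_simp
        ring
      · rw [PG27.det_c3, PG27.det_c3, PG27.det_abb, PG27.det_aba]
        show _ * 0 + ori v a c / (ori v c b + ori v a c) * ori v a b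
          = _ * 0 + ori v a b / (ori v c b + ori v a c) * ori v a c
        field_simp
        ring
    · show ori v c a ≠ 0
      have : ori v c a = - ori v a c := by simp only [ori]; ring
      rw [this]; linarith [h1] 

theorem isT_rot27 {P : Finset Pt} {T : Pt → Pt → Prop} {a b c : Pt}
    (h : IsT P T a b c) : IsT P T b c a := by
  obtain ⟨hab, hbc, hca, hD, hem⟩ := h
  refine ⟨hbc, hca, hab, ?_, ?_⟩
  · have : ori b c a = ori a b c := by simp only [ori]; ring
    rw [this]; exact hD
  · intro p hp h1 h2 h3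
    rcases hem p hp h3 h1 h2 with h | h | h
    · exact Or.inr (Or.inr h)
    · exact Or.inl h
    · exact Or.inr (Or.inl h)

theorem ray27 {P : Finset Pt} {T : Pt → Pt → Prop} (hT : IsTrg P T) {v x y : Pt}
    (hx : T v x) (hy : T v y) : x ∉ openSegment ℝ v y :=
  hT.free _ _ hy x (hT.mem _ _ hx).2

theorem isT_unique27 {P : Finset Pt} {T : Pt → Pt → Prop} (hT : IsTrg P T) {a b c c' : Pt}
    (h : IsT P T a b c) (h' : IsT P T a b c') : c = c' := by
  have hac : T a c := hT.symm _ _ h.2.2.1
  have hac' : T a c' := hT.symm _ _ h'.2.2.1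
  have hD : 0 < ori a b c := h.2.2.2.1
  have hD' : 0 < ori a b c' := h'.2.2.2.1
  rcases lt_trichotomy 0 (ori a c c') with h1 | h1 | h1
  · exact absurd ⟨hD, h1⟩ (angle27 hT h' hac)
  · -- collinear
    by_contra hne
    have hsw : ori a c' c = 0 := by
      have : ori a c' c = - ori a c c' := by simp only [ori]; ring
      rw [this, ← h1, neg_zero]
    have key : ∀ x y : Pt, 0 < ori a b x → ori a b x < ori a b y → ori a x y = 0 → x ∈ openSegment ℝ a y := by
      intro x y hx hxy h0
      have hy : 0 < ori a b y := hx.trans hxy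
      refine PG27.mem_os.2 ⟨ori a b x / ori a b y, div_pos hx hy, by rw [div_lt_one hy]; exact hxy, ?_⟩
      refine PG27.frame_ext (a := a) (b := b) (c := y) (show ori a b y ≠ 0 from hy.ne') ?_ ?_
      · rw [PG27.det_c2, PG27.det_aab]
        show ori a x y = _ * 0 + _ * PG27.det a y y
        rw [h0, PG27.det_abb]; ring
      · rw [PG27.det_c3, PG27.det_aba]
        show ori a b x = _ * 0 + _ * ori a b y
        field_simp
        ring
    rcases lt_trichotomy (ori a b c) (ori a b c') with h2 | h2 | h2
    · exact ray27 hT hac hac' (key c c' hD h2 h1.symm)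
    · apply hne
      refine PG27.frame_ext (a := a) (b := b) (c := c) (show ori a b c ≠ 0 from hD.ne') ?_ h2
      rw [PG27.det_abb]
      exact hsw.symm
    · exact ray27 hT hac' hac (key c' c hD' h2 hsw)
  · have h2 : 0 < ori a c' c := by
      have : ori a c' c = - ori a c c' := by simp only [ori]; ring
      rw [this]; linarith
    exact absurd ⟨hD', h2⟩ (angle27 hT h hac')

/-- the maximal non-crossing family satisfies the interface -/
theorem IsTrg.toPTri0 {P : Finset Pt} {T : Pt → Pt → Prop} (hT : IsTrg P T) :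
    PTri0 P T (IsT P T) where
  mem := fun a b h => (hT.mem a b h).1
  ne := hT.ne
  symm := hT.symm
  ray := fun v x y hx hy => ray27 hT hx hy
  tr := fun a b c h => ⟨h.1, h.2.2.2.1⟩
  rot := fun a b c h => isT_rot27 h
  uniq := fun a b c c' h h' => isT_unique27 hT h h'
  ex := fun a b h h' => exists_isT hT h h'
  angle := fun v a b c h hc => angle27 hT h hc

/-! ## contact pairs -/

open Pool.Agent.PNY in
/-- edges of a regular subdivision do not cross -/
theorem Ed_noncross27 {P : Finset Pt} {g : Pt → ℝ} {a b c e : Pt} (h : Ed P g a b)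
    (h' : Ed P g c e) : ¬ Cross a b c e := by
  intro hcr
  obtain ⟨s, t, s0, s1, t0, t1, hst, -⟩ := PG27.cross_point (show PG27.Cross a b c e from hcr)
  obtain ⟨haP, hbP, hab, l, la, lb, lo⟩ := h
  obtain ⟨hcP, heP, hce, m, mc, me, mo⟩ := h'
  have afc : ∀ (n : ℝ × ℝ × ℝ) (k : ℝ) (x y : ℝ × ℝ),
      af n (PG27.cmb k x y) = (1 - k) * af n x + k * af n y := by
    intro n k x y; simp only [af, PG27.cmb]; ring
  have c1 : ∀ x y z : Pt, ori x y x = 0 ∧ ori x y y = 0 := by
    intro x y z; constructor <;> (simp only [ori]; ring)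
  have hca : c ≠ a := by
    rintro rfl
    have := hcr.1; rw [(c1 c b c).1] at this; simp at this
  have hcb : c ≠ b := by
    rintro rfl
    have := hcr.1; rw [(c1 a c c).2] at this; simp at this
  have hea : e ≠ a := by
    rintro rfl
    have := hcr.1; rw [(c1 e b c).1] at this; simp at this
  have heb : e ≠ b := by
    rintro rfl
    have := hcr.1; rw [(c1 a e c).2] at this; simp at this
  have g1 := lo c hcP hca hcb
  have g2 := lo e heP hea heb
  have g3 := mo a haP hca.symm hea.symm
  have g4 := mo b hbP hcb.symm heb.symm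
  have e1 : af l (PG27.cmb s c e) = (1 - t) * g a + t * g b := by rw [hst, afc, la, lb]
  have e2 : af m (PG27.cmb t a b) = (1 - s) * g c + s * g e := by rw [← hst, afc, mc, me]
  rw [afc] at e1 e2
  have i1 : (1 - s) * g c + s * g e < (1 - s) * af l c + s * af l e := by
    have := mul_lt_mul_of_pos_left g1 (show 0 < 1 - s by linarith)
    have := mul_lt_mul_of_pos_left g2 s0
    linarith
  have i2 : (1 - t) * g a + t * g b < (1 - t) * af m a + t * af m b := by
    have := mul_lt_mul_of_pos_left g3 (show 0 < 1 - t by linarith)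
    have := mul_lt_mul_of_pos_left g4 t0
    linarith
  linarith

open Pool.Agent.PNY in
/-- contact edges are free -/
theorem contact_free27 {d : ℝ} (hd : 0 < d) {Q : Finset ℍ} (hQ : Sep d Q) {a b : ℍ}
    (ha : a ∈ Q) (hb : b ∈ Q) (hab : dist a b = d) : Free (Q.image kl) (kl a) (kl b) := by
  intro q hq hmem
  obtain ⟨p, hp, rfl⟩ := Finset.mem_image.1 hq
  obtain ⟨t, t0, t1, ht⟩ := PG27.mem_os.1 hmem
  obtain ⟨-, -, hne, l, la, lb, lo⟩ := contact_Ed hd Q hQ ha hb hab
  have hpa : kl p ≠ kl a := by
    intro h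
    rw [h] at ht
    have e1 : (kl b).1 = (kl a).1 := by
      have := congrArg Prod.fst ht
      simp only [PG27.cmb] at this
      have : t * ((kl b).1 - (kl a).1) = 0 := by linarith
      have := (mul_eq_zero.1 this).resolve_left t0.ne'
      linarith
    have e2 : (kl b).2 = (kl a).2 := by
      have := congrArg Prod.snd ht
      simp only [PG27.cmb] at this
      have : t * ((kl b).2 - (kl a).2) = 0 := by linarith
      have := (mul_eq_zero.1 this).resolve_left t0.ne'
      linarith
    exact hne (Prod.ext e1.symm e2.symm)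
  have hpb : kl p ≠ kl b := by
    intro h
    rw [h] at ht
    have e1 : (kl b).1 = (kl a).1 := by
      have := congrArg Prod.fst ht
      simp only [PG27.cmb] at this
      have : (1 - t) * ((kl b).1 - (kl a).1) = 0 := by linarith
      have := (mul_eq_zero.1 this).resolve_left (by linarith)
      linarith
    have e2 : (kl b).2 = (kl a).2 := by
      have := congrArg Prod.snd ht
      simp only [PG27.cmb] at this
      have : (1 - t) * ((kl b).2 - (kl a).2) = 0 := by linarith
      have := (mul_eq_zero.1 this).resolve_left (by linarith)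
      linarith
    exact hne (Prod.ext e1.symm e2.symm)
  have h1 := lo _ hq hpa hpb
  have afc : ∀ (n : ℝ × ℝ × ℝ) (k : ℝ) (x y : ℝ × ℝ),
      af n (PG27.cmb k x y) = (1 - k) * af n x + k * af n y := by
    intro n k x y; simp only [af, PG27.cmb]; ring
  rw [ht, afc, la, lb, ← ht, gh_kl, gh_kl, gh_kl] at h1
  -- concavity
  have hL := lorentz39 a b
  have hc : 1 ≤ Real.cosh (dist a b) := Real.one_le_cosh _
  have ia := a.im_pos
  have ib := b.im_pos
  have ip := p.im_pos
  have sq : ∀ z : ℍ, z.im ^ 2 = (kl z).2 - (kl z).1 ^ 2 := by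
    intro z; simp only [kl]; ring
  have hconc : ((1 - t) * a.im + t * b.im) ^ 2 ≤ p.im ^ 2 := by
    have e0 : p.im ^ 2 - ((1 - t) * a.im + t * b.im) ^ 2
        = t * (1 - t) * (2 * a.im * b.im * (Real.cosh (dist a b) - 1)) := by
      have e1 := congrArg Prod.fst ht
      have e2 := congrArg Prod.snd ht
      simp only [PG27.cmb] at e1 e2
      have : 2 * a.im * b.im * (Real.cosh (dist a b) - 1) = (kl a).2 + (kl b).2
          - 2 * (kl a).1 * (kl b).1 - 2 * a.im * b.im := by rw [← hL]; ring
      rw [this, sq p, e1, e2]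
      have s1 := sq a
      have s2 := sq b
      linear_combination (-(1 - t) ^ 2) * s1 - t ^ 2 * s2
    have : 0 ≤ t * (1 - t) * (2 * a.im * b.im * (Real.cosh (dist a b) - 1)) := by
      have h2 : 0 ≤ 1 - t := by linarith
      have h3 : 0 ≤ Real.cosh (dist a b) - 1 := by linarith
      positivity
    linarith
  have hpos : 0 < (1 - t) * a.im + t * b.im := by
    have h2 : 0 < 1 - t := by linarith
    positivity
  have := abs_le_of_sq_le_sq' hconc ip.le
  linarith [this.2]

/-- LINE M: the interface for a separated set -/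
theorem exists_PTri0 {d : ℝ} (hd : 0 < d) {P : Finset ℍ} (hP : Sep d P) :
    ∃ T Tr, PTri0 (P.image kl) T Tr ∧ ∀ x ∈ P, ∀ y ∈ P, dist x y = d → T (kl x) (kl y) := by
  obtain ⟨T, hT, hG⟩ := exists_trg27 (P.image kl)
    (fun p q => ∃ x ∈ P, ∃ y ∈ P, dist x y = d ∧ kl x = p ∧ kl y = q)
    (by
      rintro _ _ ⟨x, hx, y, hy, -, rfl, rfl⟩
      exact ⟨Finset.mem_image_of_mem _ hx, Finset.mem_image_of_mem _ hy⟩)
    (by
      rintro _ _ ⟨x, hx, y, hy, h, rfl, rfl⟩ h2
      have : x = y := PNY.kl_inj39 h2
      rw [this, dist_self] at h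
      linarith)
    (by
      rintro _ _ ⟨x, hx, y, hy, h, rfl, rfl⟩
      exact ⟨y, hy, x, hx, by rw [dist_comm]; exact h, rfl, rfl⟩)
    (by
      rintro _ _ ⟨x, hx, y, hy, h, rfl, rfl⟩
      exact contact_free27 hd hP hx hy h)
    (by
      rintro _ _ _ _ ⟨x, hx, y, hy, h, rfl, rfl⟩ ⟨z, hz, w, hw, h', rfl, rfl⟩
      exact Ed_noncross27 (PNY.contact_Ed hd P hP hx hy h) (PNY.contact_Ed hd P hP hz hw h'))
  exact ⟨T, IsT (P.image kl) T, hT.toPTri0, fun x hx y hy h => hG _ _ ⟨x, hx, y, hy, h, rfl, rfl⟩⟩

end Pool.Agent.PEN
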