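import Pool.Agent.PEN.Defs

/-! # Planar triangulations: angle lemma, uniqueness of the left triangle -/

set_option autoImplicit false

namespace Pool.Agent.PEN

open Classical

noncomputable section

variable {P : Finset Pt} {T : Pt → Pt → Prop}

theorem ori_cyc85 (a b c : Pt) : ori b c a = ori a b c := by
  unfold ori; ring

theorem ori_cyc85' (a b c : Pt) : ori c a b = ori a b c := by
  unfold ori; ring

theorem ori_swap85 (a b c : Pt) : ori a c b = - ori a b c := by
  unfold ori; ring

theorem ori_swap85' (a b c : Pt) : ori b a c = - ori a b c := by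
  unfold ori; ring

theorem ori_self85 (a b : Pt) : ori a b a = 0 := by
  unfold ori; ring

theorem ori_self85' (a b : Pt) : ori a b b = 0 := by
  unfold ori; ring

theorem ori_self85'' (a b : Pt) : ori a a b = 0 := by
  unfold ori; ring

/-- membership in an open segment in coordinates -/
theorem mem_op85 {a b x : Pt} (t : ℝ) (h0 : 0 < t) (h1 : t < 1)
    (hx : x.1 = a.1 + t * (b.1 - a.1)) (hy : x.2 = a.2 + t * (b.2 - a.2)) :
    x ∈ openSegment ℝ a b := by
  refine ⟨1 - t, t, by linarith, h0, by ring, ?_⟩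
  ext
  · simp only [Prod.fst_add, Prod.smul_fst, smul_eq_mul]; rw [hx]; ring
  · simp only [Prod.snd_add, Prod.smul_snd, smul_eq_mul]; rw [hy]; ring

theorem of_op85 {a b x : Pt} (h : x ∈ openSegment ℝ a b) :
    ∃ t : ℝ, 0 < t ∧ t < 1 ∧ x.1 = a.1 + t * (b.1 - a.1) ∧ x.2 = a.2 + t * (b.2 - a.2) := by
  obtain ⟨s, t, hs, ht, hst, rfl⟩ := h
  refine ⟨t, ht, by linarith, ?_, ?_⟩
  · simp only [Prod.fst_add, Prod.smul_fst, smul_eq_mul]
    have : s = 1 - t := by linarith
    rw [this]; ring
  · simp only [Prod.snd_add, Prod.smul_snd, smul_eq_mul]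
    have : s = 1 - t := by linarith
    rw [this]; ring

/-- two points strictly on the left of `a b` in the same direction from `a` -/
theorem same85 {a b c c' : Pt} (h : 0 < ori a b c) (h' : 0 < ori a b c') (h0 : ori a c c' = 0) :
    c = c' ∨ c ∈ openSegment ℝ a c' ∨ c' ∈ openSegment ℝ a c := by
  have e1 : ori a b c * (c'.1 - a.1) = ori a b c' * (c.1 - a.1) := by
    have : ori a b c * (c'.1 - a.1) - ori a b c' * (c.1 - a.1) = - (b.1 - a.1) * ori a c c' := by
      unfold ori; ring
    rw [h0] at this; linarith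
  have e2 : ori a b c * (c'.2 - a.2) = ori a b c' * (c.2 - a.2) := by
    have : ori a b c * (c'.2 - a.2) - ori a b c' * (c.2 - a.2) = - (b.2 - a.2) * ori a c c' := by
      unfold ori; ring
    rw [h0] at this; linarith
  rcases lt_trichotomy (ori a b c) (ori a b c') with hlt | heq | hgt
  · right; left
    refine mem_op85 (ori a b c / ori a b c') (by positivity) ((div_lt_one h').2 hlt) ?_ ?_
    · field_simp; linarith
    · field_simp; linarith
  · left
    rw [heq] at e1 e2
    have f1 := mul_left_cancel₀ h'.ne' e1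
    have f2 := mul_left_cancel₀ h'.ne' e2
    ext <;> linarith
  · right; right
    refine mem_op85 (ori a b c' / ori a b c) (by positivity) ((div_lt_one h).2 hgt) ?_ ?_
    · field_simp; linarith
    · field_simp; linarith

/-- the angle lemma: no edge of the triangulation enters an empty triangle at a vertex -/
theorem angle85 (hT : IsTrg P T) {v a b c : Pt} (h : IsT P T v a b) (hc : T v c) :
    ¬ (0 < ori v a c ∧ 0 < ori v c b) := by
  rintro ⟨h1, h2⟩
  obtain ⟨hva, hab, hbv, hpos, hemp⟩ := h
  rcases le_or_gt 0 (ori a b c) with h3 | h3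
  · have hcP := (hT.mem _ _ hc).2
    rcases hemp c hcP h1.le h3 (by rw [ori_cyc85' v c b] at *; exact h2.le) with rfl | rfl | rfl
    · rw [ori_self85] at h1; exact lt_irrefl _ h1
    · rw [ori_self85'] at h1; exact lt_irrefl _ h1
    · rw [ori_self85'] at h2; exact lt_irrefl _ h2
  · refine hT.noncross _ _ _ _ hc hab ⟨?_, ?_⟩
    · rw [ori_swap85 v a c]
      exact mul_neg_of_neg_of_pos (by linarith) h2
    · rw [ori_cyc85 v a b]
      exact mul_neg_of_pos_of_neg hpos h3

/-- the triangle on the left of a dart is unique -/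
theorem uni85 (hT : IsTrg P T) {a b c c' : Pt} (h : IsT P T a b c) (h' : IsT P T a b c') :
    c = c' := by
  have hac : T a c := hT.symm _ _ h.2.2.1
  have hac' : T a c' := hT.symm _ _ h'.2.2.1
  rcases lt_trichotomy (ori a c c') 0 with hlt | heq | hgt
  · exact absurd ⟨h'.2.2.2.1, by rw [ori_swap85 a c c']; linarith⟩ (angle85 hT h hac')
  · rcases same85 h.2.2.2.1 h'.2.2.2.1 heq with rfl | h1 | h1
    · rfl
    · exact absurd h1 (hT.free _ _ hac' c (hT.mem _ _ hac).2)
    · exact absurd h1 (hT.free _ _ hac c' (hT.mem _ _ hac').2)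
  · exact absurd ⟨h.2.2.2.1, hgt⟩ (angle85 hT h' hac)

theorem cyc85 {a b c : Pt} (h : IsT P T a b c) : IsT P T b c a := by
  obtain ⟨h1, h2, h3, h4, h5⟩ := h
  refine ⟨h2, h3, h1, by rw [ori_cyc85]; exact h4, fun p hp g1 g2 g3 => ?_⟩
  rcases h5 p hp g3 g1 g2 with r | r | r
  · right; right; exact r
  · left; exact r
  · right; left; exact r

theorem cyc85' {a b c : Pt} (h : IsT P T a b c) : IsT P T c a b := cyc85 (cyc85 h)

theorem distinct85 {a b c : Pt} (h : IsT P T a b c) : a ≠ b ∧ b ≠ c ∧ c ≠ a := by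
  obtain ⟨_, _, _, h4, _⟩ := h
  refine ⟨?_, ?_, ?_⟩ <;> rintro rfl
  · rw [ori_self85''] at h4; exact lt_irrefl _ h4
  · rw [ori_self85'] at h4; exact lt_irrefl _ h4
  · rw [ori_self85] at h4; exact lt_irrefl _ h4

/-- the triangles on the two sides of an edge have different third vertices -/
theorem sides85 {a b c c' : Pt} (h : IsT P T a b c) (h' : IsT P T b a c') : c ≠ c' := by
  rintro rfl
  have h1 := h.2.2.2.1
  have h2 := h'.2.2.2.1
  rw [ori_swap85'] at h2
  linarith

/-- the triangle on the right of a dart is unique, too -/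
theorem uniR85 (hT : IsTrg P T) {a b c c' : Pt} (h : IsT P T a c b) (h' : IsT P T a c' b) :
    c = c' :=
  uni85 hT (cyc85' h) (cyc85' h')

/-- two triangles with the middle vertex `m` on the same side: the right ends agree -/
theorem germ85 (hT : IsTrg P T) {l m r l' r' : Pt} (h : IsT P T m r l) (h' : IsT P T m r' l')
    (h1 : 0 ≤ ori m r r') (h2 : 0 < ori m r' l) : r = r' ∨ ori m r r' = 0 := by
  by_contra hcon
  push Not at hcon
  have : 0 < ori m r r' := lt_of_le_of_ne h1 (Ne.symm hcon.2)
  exact angle85 hT h h'.1 ⟨this, h2⟩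

end

end Pool.Agent.PEN
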